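import Pool.Agent.N138.PA.Glob
import Pool.Agent.N103.Main

set_option autoImplicit false
set_option linter.unusedSectionVars false
set_option linter.unusedVariables false
set_option linter.unusedSimpArgs false

/-! # The strong monodromy conjecture for `h(x) (f_0(x) + ∑ y_j f_j(x)) ^ a`, every prime -/

namespace Pool.Agent.N138.PA

open MeasureTheory Set Pool.Agent.W427.SMC Pool.Agent.Y230.RE MvPolynomial
open Pool.Agent.Y230.PT hiding sw cc_sw pderiv_sw
open scoped ENNReal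
open Pool.Agent.N103 (FF lin)

variable {κ : Type} [Fintype κ] [DecidableEq κ]

/-- `h(x) (f_0(x) + ∑ y_j f_j(x)) ^ a` -/
noncomputable def aff {K : Type} [CommRing K] (h : MvPolynomial (Fin 2) K)
    (f : Option κ → MvPolynomial (Fin 2) K) (a : ℕ) : MvPolynomial (Fin 2 ⊕ κ) K :=
  rename Sum.inl h * (rename Sum.inl (f none) +
    ∑ j, X (Sum.inr j) * rename Sum.inl (f (some j))) ^ a

theorem map_aff {K L : Type} [CommRing K] [CommRing L] (φ : K →+* L) (h : MvPolynomial (Fin 2) K)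
    (f : Option κ → MvPolynomial (Fin 2) K) (a : ℕ) :
    map φ (aff h f a) = aff (map φ h) (fun j => map φ (f j)) a := by
  unfold aff
  rw [map_mul, map_pow, map_add, map_rename, map_rename, map_sum]
  congr 3
  refine Finset.sum_congr rfl fun j _ => ?_
  rw [map_mul, map_X, map_rename]

theorem aff_FF (h : MvPolynomial (Fin 2) ℂ) (f : Option κ → MvPolynomial (Fin 2) ℂ) (a : ℕ) :
    aff h f a = FF h f a := by
  rfl

/-- `f_0 + ∑ y_j f_j` is not zero -/
theorem lin_ne {K : Type} [CommRing K] [Nontrivial K] (f : Option κ → MvPolynomial (Fin 2) K)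
    (j1 : κ) (hj1 : f (some j1) ≠ 0) :
    (rename Sum.inl (f none) + ∑ j, X (Sum.inr j) * rename Sum.inl (f (some j)) :
      MvPolynomial (Fin 2 ⊕ κ) K) ≠ 0 := by
  intro h0
  have hren : ∀ q : MvPolynomial (Fin 2) K, pderiv (Sum.inr j1 : Fin 2 ⊕ κ) (rename Sum.inl q) = 0 := by
    intro q
    refine pderiv_eq_zero_of_notMem_vars fun hm => ?_
    obtain ⟨i, _, hi⟩ := Finset.mem_image.1 (vars_rename _ _ hm)
    exact absurd hi (by simp)
  have h1 := congrArg (pderiv (Sum.inr j1 : Fin 2 ⊕ κ)) h0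
  rw [map_add, map_sum, map_zero, hren, zero_add, Finset.sum_eq_single j1] at h1
  · rw [pderiv_mul, hren, mul_zero, add_zero, pderiv_X_self, one_mul] at h1
    exact hj1 (rename_injective _ Sum.inl_injective (by rw [h1, map_zero]))
  · intro i _ hi
    rw [pderiv_mul, hren, mul_zero, add_zero, pderiv_X_of_ne, zero_mul]
    exact fun h => hi (Sum.inr_injective h)
  · intro h
    exact absurd (Finset.mem_univ _) h

theorem aff_ne {K : Type} [CommRing K] [IsDomain K] (h : MvPolynomial (Fin 2) K)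
    (f : Option κ → MvPolynomial (Fin 2) K) (a : ℕ) (hh : h ≠ 0) (j1 : κ)
    (hj1 : f (some j1) ≠ 0) : aff h f a ≠ 0 := by
  refine mul_ne_zero (fun h0 => hh (rename_injective _ Sum.inl_injective (by rw [h0, map_zero])))
    (pow_ne_zero _ (lin_ne f j1 hj1))

variable {p : ℕ} [Fact p.Prime]

attribute [local instance] msZ bsZ

/-- the integral of `aff` -/
theorem zeta_aff (h : MvPolynomial (Fin 2) ℚ) (f : Option κ → MvPolynomial (Fin 2) ℚ) (a : ℕ)
    (ha : 1 ≤ a) (s : ℝ) (hs : 0 ≤ s) :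
    zetaQ p (aff h f a) (s : ℂ) = ZF (map (algebraMap ℚ ℚ_[p]) h)
      (fun j => map (algebraMap ℚ ℚ_[p]) (f j)) a s := by
  rw [zetaQ_eq, ZF_eq _ _ a ha s hs]
  congr 3
  funext x
  congr 1
  unfold aff
  rw [eval₂_mul, eval₂_pow, eval₂_add, eval₂_sum, eval₂_rename, eval₂_rename]
  have hx := fun q : MvPolynomial (Fin 2) ℚ => ev_rat (p := p) q (fun i => x (Sum.inl i))
  rw [hx, hx]
  congr 2
  · congr 1
    refine Finset.sum_congr rfl fun j _ => ?_
    rw [eval₂_mul, eval₂_X, eval₂_rename, hx]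
    rfl

/-- **Every pole is a root.** -/
theorem pole_aff (h : MvPolynomial (Fin 2) ℚ) (f : Option κ → MvPolynomial (Fin 2) ℚ) (a : ℕ)
    (ha : 1 ≤ a) (hh : h ≠ 0) (j1 : κ) (hj1 : f (some j1) ≠ 0) (b : Polynomial ℂ)
    (hb : Pool.Agent.H628R4.TP.IsBFunction (map (algebraMap ℚ ℂ) (aff h f a)) b)
    (Z : ℂ → ℂ) (hZ : MeromorphicOn Z Set.univ)
    (hZp : ∀ s : ℂ, 0 < s.re → Z s = zetaQ p (aff h f a) s) (s₀ : ℂ)
    (hs₀ : meromorphicOrderAt Z s₀ < 0) : b.eval (s₀.re : ℂ) = 0 := by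
  by_contra hne
  obtain ⟨φ⟩ := exists_emb p
  have hφ : φ.comp (algebraMap ℚ ℚ_[p]) = algebraMap ℚ ℂ := RingHom.ext_rat _ _
  have hmp : ∀ q : MvPolynomial (Fin 2) ℚ, map (algebraMap ℚ ℂ) q =
      mp φ (map (algebraMap ℚ ℚ_[p]) q) := by
    intro q
    unfold mp
    rw [map_map, hφ]
  have hK : ∀ q : MvPolynomial (Fin 2) ℚ, q ≠ 0 → map (algebraMap ℚ ℚ_[p]) q ≠ 0 := by
    intro q hq h0
    exact hq (map_injective _ (algebraMap ℚ ℚ_[p]).injective (by rw [h0, map_zero]))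
  rw [map_aff, aff_FF] at hb
  simp only [hmp] at hb
  have h1 : (pw p s₀) ≠ 0 := pw_ne_zero p s₀
  have h2 : rr p (pw p s₀) = s₀.re := pw_norm p s₀
  have hF : FF (mp φ (map (algebraMap ℚ ℚ_[p]) h))
      (fun j => mp φ (map (algebraMap ℚ ℚ_[p]) (f j))) a ≠ 0 := by
    rw [← aff_FF]
    refine aff_ne _ _ a ?_ j1 ?_
    · rw [← hmp]
      exact fun h0 => hh (map_injective _ (algebraMap ℚ ℂ).injective (by rw [h0, map_zero]))
    · rw [← hmp]
      exact fun h0 => hj1 (map_injective _ (algebraMap ℚ ℂ).injective (by rw [h0, map_zero]))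
  obtain ⟨D, P, hD, h3⟩ := reg_ZF φ (map (algebraMap ℚ ℚ_[p]) h)
    (fun j => map (algebraMap ℚ ℚ_[p]) (f j)) a ha (hK h hh) j1 (hK _ hj1) b
    (Pool.Agent.N103.heq_of_bfun _ b hb) hF h1 (by rw [h2]; exact hne)
  simp only [pow_zero, one_mul] at h3
  have hD0 : D ≠ 0 := by
    rintro rfl
    simp at hD
  have h4 := mero_bound p D P hD0 Z hZ (fun s hs => by
    rw [pw_real, hZp s (by simpa using hs), zeta_aff h f a ha s hs.le, h3 s hs.le]) s₀
  rw [Polynomial.rootMultiplicity_eq_zero (show ¬ Polynomial.IsRoot D (pw p s₀) from hD)] at h4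
  simp only [Nat.cast_zero, neg_zero] at h4
  exact absurd (lt_of_le_of_lt h4 hs₀) (lt_irrefl _)

end Pool.Agent.N138.PA
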