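import Pool.Agent.N138.PA.Pen

set_option autoImplicit false
set_option linter.unusedSectionVars false
set_option linter.unusedVariables false

/-! # Linear systems of polynomials with few special points -/

namespace Pool.Agent.N138.PA

open Polynomial Pool.Agent.W574.SM

variable {κ : Type} [Fintype κ] [DecidableEq κ]

/-- a member of the linear system -/
noncomputable def Pc (P0 : ℂ[X]) (Q : κ → ℂ[X]) (c : κ → ℂ) : ℂ[X] := P0 + ∑ j, C (c j) * Q j

theorem Pc_zero (P0 : ℂ[X]) (Q : κ → ℂ[X]) : Pc P0 Q 0 = P0 := by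
  simp [Pc]

theorem Pc_add (P0 : ℂ[X]) (Q : κ → ℂ[X]) (c : κ → ℂ) (i : κ) (τ : ℂ) :
    Pc P0 Q c + C τ * Q i = Pc P0 Q (c + Pi.single i τ) := by
  have h1 : ∑ j, C ((c + Pi.single i τ : κ → ℂ) j) * Q j = ∑ j, C (c j) * Q j + C τ * Q i := by
    have h2 : ∀ j, C ((c + Pi.single i τ : κ → ℂ) j) * Q j =
        C (c j) * Q j + C ((Pi.single i τ : κ → ℂ) j) * Q j := by
      intro j
      rw [Pi.add_apply, map_add, add_mul]
    simp only [h2]
    rw [Finset.sum_add_distrib]
    congr 1
    rw [Finset.sum_eq_single i]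
    · rw [Pi.single_eq_same]
    · intro j _ hj
      rw [Pi.single_eq_of_ne hj, map_zero, zero_mul]
    · intro h
      exact absurd (Finset.mem_univ i) h
  unfold Pc
  rw [h1]
  ring

/-- the conditions at the points of a critical curve -/
structure PenH (m mh a : ℕ) (Ph P0 : ℂ[X]) (Q : κ → ℂ[X]) (A1 N1 : ℂ → ℕ) (a0 n0 : ℕ) : Prop where
  hPh : Ph ≠ 0
  hPhd : Ph.natDegree ≤ mh
  hne : ∀ c, Pc P0 Q c ≠ 0
  hQm : ∀ j, (Q j).natDegree ≤ m
  hz : ∀ (z : ℂ) (c : κ → ℂ) (j : κ), Q j ≠ 0 →
    (Q j).rootMultiplicity z < (Pc P0 Q c).rootMultiplicity z →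
    A1 z + Ph.rootMultiplicity z + a * (Q j).rootMultiplicity z = 0 ∧ N1 z = 1 ∧
      (Pc P0 Q c).rootMultiplicity z = (Q j).rootMultiplicity z + 1
  hI : ∀ (c : κ → ℂ) (j : κ), Q j ≠ 0 → (Pc P0 Q c).natDegree < (Q j).natDegree →
    a0 + (mh - Ph.natDegree) + a * (m - (Q j).natDegree) = 0 ∧ n0 = 1 ∧
      m - (Pc P0 Q c).natDegree = m - (Q j).natDegree + 1

variable {m mh a : ℕ} {Ph P0 : ℂ[X]} {Q : κ → ℂ[X]} {A1 N1 : ℂ → ℕ} {a0 n0 : ℕ}

theorem PenH.pen (H : PenH m mh a Ph P0 Q A1 N1 a0 n0) (ha : 1 ≤ a) (c : κ → ℂ) (j : κ)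
    (hj : Q j ≠ 0) : ((Q j).natDegree = 0 ∧ (Pc P0 Q c).natDegree = 1) ∨ ∃ z : ℂ, 1 ≤ m ∧
      Q j = C (Q j).leadingCoeff * (X - C z) ^ m ∧
      ∃ α β : ℂ, Pc P0 Q c = (X - C z) ^ (m - 1) * (C α * X + C β) ∧ α * z + β ≠ 0 := by
  refine Pool.Agent.N138.PA.pen m (Pc P0 Q c) (Q j) hj (fun τ => ?_) (fun z τ h => ?_)
    (fun τ h => ?_)
  · rw [Pc_add]
    exact H.hne _
  · rw [Pc_add] at h ⊢
    obtain ⟨h1, h2, h3⟩ := H.hz z _ j hj h
    have h4 : a * (Q j).rootMultiplicity z = 0 := by omega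
    have h5 : (Q j).rootMultiplicity z = 0 := by
      rcases Nat.mul_eq_zero.1 h4 with h | h
      · omega
      · exact h
    exact ⟨h5, by omega⟩
  · rw [Pc_add] at h ⊢
    obtain ⟨h1, h2, h3⟩ := H.hI _ j hj h
    have h4 : a * (m - (Q j).natDegree) = 0 := by omega
    have h5 : m - (Q j).natDegree = 0 := by
      rcases Nat.mul_eq_zero.1 h4 with h | h
      · omega
      · exact h
    have h6 := H.hQm j
    omega

theorem PenH.point (H : PenH m mh a Ph P0 Q A1 N1 a0 n0) (z : ℂ) (j : κ)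
    (hj : (Q j).eval z ≠ 0) : A1 z = 0 ∧ N1 z = 1 ∧ Ph.eval z ≠ 0 := by
  have hj0 : Q j ≠ 0 := by
    intro h
    rw [h, eval_zero] at hj
    exact hj rfl
  set τ := -P0.eval z / (Q j).eval z with hτ
  have hroot : (Pc P0 Q (0 + Pi.single j τ)).IsRoot z := by
    rw [← Pc_add, Pc_zero, IsRoot, eval_add, eval_mul, eval_C, hτ, div_mul_cancel₀ _ hj,
      add_neg_cancel]
  have h0 : (Q j).rootMultiplicity z = 0 := rootMultiplicity_eq_zero hj
  obtain ⟨h1, h2, h3⟩ := H.hz z (0 + Pi.single j τ) j hj0 (by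
    rw [h0]
    exact (rootMultiplicity_pos (H.hne _)).2 hroot)
  refine ⟨by omega, h2, fun h => ?_⟩
  have := (rootMultiplicity_pos H.hPh).2 h
  omega

/-- if some member is constant, then all are -/
theorem PenH.const (H : PenH m mh a Ph P0 Q A1 N1 a0 n0) (ha : 1 ≤ a) (j : κ)
    (hj : Q j ≠ 0) (hd : (Q j).natDegree = 0) (i : κ) : (Q i).natDegree = 0 := by
  by_cases hi : Q i = 0
  · rw [hi, natDegree_zero]
  have key : ∀ c, (Pc P0 Q c).natDegree = 1 := by
    intro c
    rcases H.pen ha c j hj with h | ⟨z, hm, hQ, _⟩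
    · exact h.2
    · exfalso
      rw [hQ, natDegree_C_mul (leadingCoeff_ne_zero.2 hj), natDegree_pow, natDegree_X_sub_C,
        mul_one] at hd
      omega
  rcases H.pen ha 0 i hi with h | ⟨z, hm, hQ, _⟩
  · exact h.1
  · exfalso
    have hlc := leadingCoeff_ne_zero.2 hi
    have hdi : (Q i).natDegree = m := by
      rw [hQ, natDegree_C_mul hlc, natDegree_pow, natDegree_X_sub_C, mul_one]
    have h1 := key 0
    by_cases h2 : m = 1
    · have h3 := key (0 + Pi.single i (-(Pc P0 Q 0).leadingCoeff / (Q i).leadingCoeff))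
      have h4 : (Pc P0 Q (0 + Pi.single i (-(Pc P0 Q 0).leadingCoeff /
          (Q i).leadingCoeff))).coeff 1 = 0 := by
        rw [← Pc_add, coeff_add, coeff_C_mul]
        have e1 : (Pc P0 Q 0).coeff 1 = (Pc P0 Q 0).leadingCoeff := by
          rw [leadingCoeff, h1]
        have e2 : (Q i).coeff 1 = (Q i).leadingCoeff := by
          rw [leadingCoeff, hdi, h2]
        rw [e1, e2, div_mul_cancel₀ _ hlc, add_neg_cancel]
      have h5 : (Pc P0 Q (0 + Pi.single i (-(Pc P0 Q 0).leadingCoeff /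
          (Q i).leadingCoeff))).leadingCoeff = 0 := by
        rw [leadingCoeff, h3]
        exact h4
      exact H.hne _ (leadingCoeff_eq_zero.1 h5)
    · have h3 := key (0 + Pi.single i 1)
      rw [← Pc_add, map_one, one_mul, natDegree_add_eq_right_of_natDegree_lt (by omega)] at h3
      omega

/-- **The classification.** -/
theorem PenH.classify (H : PenH m mh a Ph P0 Q A1 N1 a0 n0) (ha : 1 ≤ a) (j1 : κ)
    (hj1 : Q j1 ≠ 0) :
    (Ph.natDegree = 0 ∧ A1 0 = 0 ∧ N1 0 = 1 ∧ P0.natDegree = 1 ∧ ∀ j, (Q j).natDegree = 0) ∨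
    ∃ z0 : ℂ, 1 ≤ m ∧ Ph = C Ph.leadingCoeff * (X - C z0) ^ mh ∧ a0 = 0 ∧ n0 = 1 ∧
      (z0 ≠ 0 → A1 0 = 0 ∧ N1 0 = 1) ∧ (∀ j, ∃ l : ℂ, Q j = C l * (X - C z0) ^ m) ∧
      ∃ α β : ℂ, P0 = (X - C z0) ^ (m - 1) * (C α * X + C β) ∧ α * z0 + β ≠ 0 := by
  rcases H.pen ha 0 j1 hj1 with ⟨h1, h2⟩ | ⟨z0, hm, hQ1, α, β, hP0, hαβ⟩
  · left
    rw [Pc_zero] at h2
    have hev : ∀ z, (Q j1).eval z ≠ 0 := by
      intro z h
      rw [eq_C_of_natDegree_eq_zero h1, eval_C] at h
      apply hj1
      rw [eq_C_of_natDegree_eq_zero h1, h, map_zero]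
    refine ⟨?_, (H.point 0 j1 (hev 0)).1, (H.point 0 j1 (hev 0)).2.1, h2,
      H.const ha j1 hj1 h1⟩
    by_contra hd
    obtain ⟨z, hz⟩ := IsAlgClosed.exists_root Ph (fun h => hd (natDegree_eq_of_degree_eq_some h))
    exact (H.point z j1 (hev z)).2.2 hz
  · right
    rw [Pc_zero] at hP0
    have hlc := leadingCoeff_ne_zero.2 hj1
    have hd1 : (Q j1).natDegree = m := by
      rw [hQ1, natDegree_C_mul hlc, natDegree_pow, natDegree_X_sub_C, mul_one]
    have hev : ∀ z, z ≠ z0 → (Q j1).eval z ≠ 0 := by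
      intro z hz
      rw [hQ1, eval_mul, eval_C, eval_pow, eval_sub, eval_X, eval_C]
      exact mul_ne_zero hlc (pow_ne_zero _ (sub_ne_zero.2 hz))
    -- infinity
    have hinf : a0 + (mh - Ph.natDegree) + a * (m - (Q j1).natDegree) = 0 ∧ n0 = 1 := by
      have hc : (Pc P0 Q (0 + Pi.single j1 (-α / (Q j1).leadingCoeff))).natDegree <
          (Q j1).natDegree := by
        have h3 : (Pc P0 Q (0 + Pi.single j1 (-α / (Q j1).leadingCoeff))).natDegree ≤ m := by
          rw [← Pc_add, Pc_zero]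
          refine (natDegree_add_le _ _).trans (max_le ?_ ?_)
          · rw [hP0]
            refine natDegree_mul_le.trans ?_
            rw [natDegree_pow, natDegree_X_sub_C, mul_one]
            have := natDegree_linear_le (a := α) (b := β)
            omega
          · exact (natDegree_C_mul_le _ _).trans hd1.le
        rw [hd1]
        refine lt_of_le_of_ne h3 fun h4 =>
          H.hne (0 + Pi.single j1 (-α / (Q j1).leadingCoeff)) ?_
        rw [← leadingCoeff_eq_zero, leadingCoeff, h4, ← Pc_add, Pc_zero, coeff_add, coeff_C_mul]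
        have e1 : (Q j1).coeff m = (Q j1).leadingCoeff := by rw [leadingCoeff, hd1]
        have e5 : ∀ k : ℕ, ((X - C z0 : ℂ[X]) ^ k * (C α * X + C β)).coeff (k + 1) = α := by
          intro k
          rw [coeff_mul_add_eq_of_natDegree_le (df := k) (dg := 1) _ natDegree_linear_le]
          · have e4 : ((X - C z0 : ℂ[X]) ^ k).coeff k = 1 := by
              have h5 : ((X - C z0 : ℂ[X]) ^ k).natDegree = k := by
                rw [natDegree_pow, natDegree_X_sub_C, mul_one]
              have h6 := ((monic_X_sub_C z0).pow k).coeff_natDegree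
              rwa [h5] at h6
            rw [e4]
            simp
          · rw [natDegree_pow, natDegree_X_sub_C, mul_one]
        have e2 : P0.coeff m = α := by
          have e3 := e5 (m - 1)
          rw [← hP0] at e3
          have e6 : m - 1 + 1 = m := by omega
          rwa [e6] at e3
        rw [e1, e2, div_mul_cancel₀ _ hlc, add_neg_cancel]
      obtain ⟨h1, h2, _⟩ := H.hI _ j1 hj1 hc
      exact ⟨h1, h2⟩
    have hPhd : Ph.natDegree = mh := by
      have := H.hPhd
      omega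
    refine ⟨z0, hm, ?_, by omega, hinf.2, ?_, ?_, α, β, hP0, hαβ⟩
    · have h3 : Ph.rootMultiplicity z0 = Ph.natDegree := by
        have h4 := sum_mult Ph H.hPh {z0} (fun z hz => by
          rw [Finset.mem_singleton] at hz
          exact (H.point z j1 (hev z hz)).2.2)
        rwa [Finset.sum_singleton] at h4
      have h4 := eq_pow_of_deg z0 Ph H.hPh h3
      rwa [hPhd] at h4
    · intro hz0
      obtain ⟨h1, h2, _⟩ := H.point 0 j1 (hev 0 hz0.symm)
      exact ⟨h1, h2⟩
    · intro i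
      by_cases hi : Q i = 0
      · exact ⟨0, by rw [hi, map_zero, zero_mul]⟩
      have hlci := leadingCoeff_ne_zero.2 hi
      rcases H.pen ha 0 i hi with ⟨h1, _⟩ | ⟨z1, _, hQi, _⟩
      · exfalso
        have := H.const ha i hi h1 j1
        omega
      · by_cases hz : z1 = z0
        · exact ⟨(Q i).leadingCoeff, by rw [hz] at hQi; exact hQi⟩
        · exfalso
          have hevi : (Q i).eval z0 ≠ 0 := by
            rw [hQi, eval_mul, eval_C, eval_pow, eval_sub, eval_X, eval_C]
            exact mul_ne_zero hlci (pow_ne_zero _ (sub_ne_zero.2 (Ne.symm hz)))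
          have key : ∀ τ : ℂ, ∃ α' β' : ℂ, P0 + C τ * Q i =
              (X - C z0) ^ (m - 1) * (C α' * X + C β') ∧ α' * z0 + β' ≠ 0 := by
            intro τ
            rcases H.pen ha (0 + Pi.single i τ) j1 hj1 with ⟨h1, _⟩ | ⟨z2, _, hQ2, α', β', h3, h4⟩
            · exfalso
              omega
            · have hz2 : z2 = z0 := by
                by_contra hne
                apply hev z2 hne
                rw [hQ2, eval_mul, eval_pow, eval_sub, eval_X, eval_C, eval_C, sub_self,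
                  zero_pow (by omega), mul_zero]
              rw [hz2, ← Pc_add, Pc_zero] at h3
              rw [hz2] at h4
              exact ⟨α', β', h3, h4⟩
          -- `m = 1`
          have hm1 : m - 1 = 0 := by
            by_contra hm1
            obtain ⟨α', β', h3, _⟩ := key 1
            have h5 := congrArg (eval z0) h3
            rw [hP0] at h5
            simp only [eval_add, eval_mul, eval_pow, eval_sub, eval_X, eval_C, sub_self,
              zero_pow hm1, zero_mul, zero_add, one_mul] at h5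
            exact hevi h5
          obtain ⟨α', β', h3, h4⟩ := key (-P0.eval z0 / (Q i).eval z0)
          have h5 := congrArg (eval z0) h3
          rw [hm1] at h5
          simp only [eval_add, eval_mul, eval_pow, eval_sub, eval_X, eval_C, pow_zero,
            one_mul] at h5
          rw [div_mul_cancel₀ _ hevi, add_neg_cancel] at h5
          exact h4 h5.symm

end Pool.Agent.N138.PA
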