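import Pool.Agent.N138.PA.Mu
import Pool.Agent.Y230.PT.Global

set_option autoImplicit false
set_option linter.unusedSectionVars false
set_option linter.unusedVariables false

/-! # The integral over the variables `y` -/

namespace Pool.Agent.N138.PA

open MeasureTheory Set Pool.Agent.W427.SMC Pool.Agent.Y230.PT
open scoped ENNReal
open Pool.Agent.Y230.RE

variable {p : ℕ} [Fact p.Prime]

attribute [local instance] msK bsK msZ bsZ

variable {κ : Type} [Fintype κ] {T0 : ℂ}

open Classical in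
/-- the integral of `|h| ^ s |z_0 + ∑ y_j z_j| ^ (a s)` over the unit ball of the `y_j`, as a
function of the family `G_j = h z_j ^ a` -/
noncomputable def muF (a : ℕ) (G : Option κ → ℚ_[p]) (s : ℝ) : ℝ≥0∞ :=
  if ∀ j, ‖G (some j)‖ < ‖G none‖ then N p s (G none) else mx G s * J (p := p) s a 1 0

theorem muF_pos (a : ℕ) (G : Option κ → ℚ_[p]) (s : ℝ) (h : ∀ j, ‖G (some j)‖ < ‖G none‖) :
    muF a G s = N p s (G none) := by
  unfold muF
  rw [if_pos h]

theorem muF_neg (a : ℕ) (G : Option κ → ℚ_[p]) (s : ℝ) (h : ¬ ∀ j, ‖G (some j)‖ < ‖G none‖) :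
    muF a G s = mx G s * J (p := p) s a 1 0 := by
  unfold muF
  rw [if_neg h]

theorem N_zero (x : ℚ_[p]) : N p 0 x = 1 := by
  unfold N
  rw [Real.rpow_zero, ENNReal.ofReal_one]

theorem N_of_zero {s : ℝ} (hs : s ≠ 0) : N p s 0 = 0 := by
  unfold N
  rw [norm_zero, Real.zero_rpow hs, ENNReal.ofReal_zero]

theorem w_zero (a : ℕ) (x : ℚ_[p]) : w 0 a 1 x = 1 := by
  unfold w
  rw [N_zero, one_pow, Nat.sub_self, pow_zero, mul_one]

theorem J_zero (a : ℕ) : J (p := p) 0 a 1 0 = 1 := by
  unfold J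
  simp only [w_zero]
  rw [setLIntegral_const, nu_bl, pow_zero, one_mul]

theorem mx_zero (G : Option κ → ℚ_[p]) : mx G 0 = 1 := by
  unfold mx
  simp only [N_zero]
  exact ciSup_const

theorem muF_zero (a : ℕ) (G : Option κ → ℚ_[p]) : muF a G 0 = 1 := by
  by_cases h : ∀ j, ‖G (some j)‖ < ‖G none‖
  · rw [muF_pos a G 0 h, N_zero]
  · rw [muF_neg a G 0 h, mx_zero, J_zero, one_mul]

theorem muF_of_zero (a : ℕ) {s : ℝ} (hs : s ≠ 0) : muF (p := p) (κ := κ) a (fun _ => 0) s = 0 := by
  by_cases h : ∀ j : κ, ‖(fun _ : Option κ => (0 : ℚ_[p])) (some j)‖ <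
      ‖(fun _ : Option κ => (0 : ℚ_[p])) none‖
  · rw [muF_pos a _ s h, N_of_zero hs]
  · rw [muF_neg a _ s h]
    have : mx (fun _ : Option κ => (0 : ℚ_[p])) s = 0 := by
      unfold mx
      simp only [N_of_zero hs]
      exact ciSup_const
    rw [this, zero_mul]

theorem muF_smul (a : ℕ) (c : ℚ_[p]) (G : Option κ → ℚ_[p]) (s : ℝ) :
    muF a (fun j => c * G j) s = N p s c * muF a G s := by
  by_cases hc : c = 0
  · subst hc
    by_cases hs : s = 0
    · subst hs
      rw [muF_zero, muF_zero, N_zero, one_mul]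
    · simp only [zero_mul]
      rw [muF_of_zero a hs, N_of_zero hs, zero_mul]
  · have hc' : 0 < ‖c‖ := norm_pos_iff.2 hc
    have hiff : (∀ j, ‖(fun j => c * G j) (some j)‖ < ‖(fun j => c * G j) none‖) ↔
        ∀ j, ‖G (some j)‖ < ‖G none‖ := by
      refine forall_congr' fun j => ?_
      simp only [norm_mul]
      exact mul_lt_mul_iff_right₀ hc'
    by_cases h : ∀ j, ‖G (some j)‖ < ‖G none‖
    · rw [muF_pos a G s h, muF_pos a _ s (hiff.2 h), N_mul]
    · rw [muF_neg a G s h, muF_neg a _ s (fun h' => h (hiff.1 h')), mx_smul, mul_assoc]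

theorem norm_le_near {X : Type} [TopologicalSpace X] (f : X → ℚ_[p]) (hf : Continuous f)
    (x0 : X) {R : ℝ} (hR : 0 < R) (h : ‖f x0‖ ≤ R) : ∃ U, IsOpen U ∧ x0 ∈ U ∧
      ∀ x ∈ U, ‖f x‖ ≤ R := by
  by_cases h0 : f x0 = 0
  · refine ⟨f ⁻¹' Metric.ball 0 R, Metric.isOpen_ball.preimage hf, ?_, fun x hx => ?_⟩
    · rw [Set.mem_preimage, h0]
      exact Metric.mem_ball_self hR
    · rw [Set.mem_preimage, Metric.mem_ball, dist_zero_right] at hx
      exact hx.le
  · obtain ⟨U, hU, hxU, hU2⟩ := norm_const_near f hf x0 h0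
    exact ⟨U, hU, hxU, fun x hx => by rw [hU2 x hx]; exact h⟩

theorem norm_lt_near {X : Type} [TopologicalSpace X] (f : X → ℚ_[p]) (hf : Continuous f)
    (x0 : X) {R : ℝ} (h : ‖f x0‖ < R) : ∃ U, IsOpen U ∧ x0 ∈ U ∧ ∀ x ∈ U, ‖f x‖ < R :=
  ⟨(fun x => ‖f x‖) ⁻¹' Set.Iio R, isOpen_Iio.preimage (continuous_norm.comp hf), h, fun _ hx => hx⟩

theorem muF_near (a : ℕ) {X : Type} [TopologicalSpace X] (f : Option κ → X → ℚ_[p])
    (hf : ∀ j, Continuous (f j)) (x0 : X) (hne : ∃ j, f j x0 ≠ 0) :
    ∃ U, IsOpen U ∧ x0 ∈ U ∧ ∀ x ∈ U, ∀ s : ℝ, 0 ≤ s →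
      muF a (fun j => f j x) s = muF a (fun j => f j x0) s := by
  by_cases h : ∀ j, ‖f (some j) x0‖ < ‖f none x0‖
  · have h0 : f none x0 ≠ 0 := by
      intro h0
      obtain ⟨j, hj⟩ := hne
      rcases j with _ | j
      · exact hj h0
      · have h1 := h j
        rw [h0, norm_zero] at h1
        exact absurd h1 (not_lt.2 (norm_nonneg _))
    obtain ⟨U0, hU0, hx0, hU02⟩ := norm_const_near (f none) (hf none) x0 h0
    choose U hU hxU hU2 using fun j => norm_lt_near (f (some j)) (hf (some j)) x0 (h j)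
    refine ⟨U0 ∩ ⋂ j, U j, hU0.inter (isOpen_iInter_of_finite hU), ⟨hx0, Set.mem_iInter.2 hxU⟩,
      fun x hx s hs => ?_⟩
    rw [muF_pos a (fun j => f j x0) s h, muF_pos a (fun j => f j x) s (fun j => ?_)]
    · exact N_norm s (hU02 x hx.1)
    · rw [hU02 x hx.1]
      exact hU2 j x (Set.mem_iInter.1 hx.2 j)
  · have h' := h
    push Not at h'
    obtain ⟨j1, hj1⟩ := h'
    obtain ⟨j2, hj2, hmax⟩ := exists_max (fun j => f j x0) hne
    -- the maximum over the `some j`
    have hmax' : ∃ j0 : κ, f (some j0) x0 ≠ 0 ∧ ‖f none x0‖ ≤ ‖f (some j0) x0‖ := by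
      rcases j2 with _ | j2
      · refine ⟨j1, fun h0 => hj2 ?_, hj1⟩
        rw [h0, norm_zero] at hj1
        exact norm_le_zero_iff.1 hj1
      · exact ⟨j2, hj2, hmax none⟩
    obtain ⟨j0, hj0, hle⟩ := hmax'
    obtain ⟨U0, hU0, hx0, hU02⟩ := norm_const_near (f (some j0)) (hf (some j0)) x0 hj0
    obtain ⟨U1, hU1, hx1, hU12⟩ := norm_le_near (f none) (hf none) x0 (norm_pos_iff.2 hj0) hle
    obtain ⟨U2, hU2, hx2, hU22⟩ := mx_const_near f hf x0 hne
    refine ⟨U0 ∩ U1 ∩ U2, (hU0.inter hU1).inter hU2, ⟨⟨hx0, hx1⟩, hx2⟩, fun x hx s hs => ?_⟩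
    rw [muF_neg a (fun j => f j x0) s h, muF_neg a (fun j => f j x) s, hU22 x hx.2 s hs]
    intro h3
    have h4 := h3 j0
    rw [hU02 x hx.1.1] at h4
    exact absurd h4 (not_lt.2 (hU12 x hx.1.2))

theorem ok_muF (a : ℕ) (f : Option κ → (ℚ_[p] × ℚ_[p]) → ℚ_[p]) (hf : ∀ j, Continuous (f j)) :
    Ok (fun s x => muF a (fun j => f j x) s) := by
  classical
  intro s hs
  have hN := (ok_N (f none) (hf none)) s hs
  have hM := (Ok.sup fun j => ok_N (f j) (hf j)) s hs
  have hJ : J (p := p) s a 1 0 ≠ ⊤ := J_ne_top hs a 1 0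
  constructor
  · have hset : MeasurableSet {x : ℚ_[p] × ℚ_[p] | ∀ j, ‖f (some j) x‖ < ‖f none x‖} := by
      have : {x : ℚ_[p] × ℚ_[p] | ∀ j, ‖f (some j) x‖ < ‖f none x‖} =
          ⋂ j, {x | ‖f (some j) x‖ < ‖f none x‖} := by
        ext x
        simp
      rw [this]
      exact (isOpen_iInter_of_finite fun j => isOpen_lt (continuous_norm.comp (hf (some j)))
        (continuous_norm.comp (hf none))).measurableSet
    exact Measurable.ite hset hN.1 (hM.1.mul_const _)
  · intro C hC
    obtain ⟨B1, hB1, h1⟩ := hN.2 C hC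
    obtain ⟨B2, hB2, h2⟩ := hM.2 C hC
    refine ⟨B1 + B2 * J (p := p) s a 1 0, ENNReal.add_ne_top.2 ⟨hB1, ENNReal.mul_ne_top hB2 hJ⟩,
      fun x hx => ?_⟩
    beta_reduce
    by_cases h : ∀ j, ‖f (some j) x‖ < ‖f none x‖
    · rw [muF_pos a (fun j => f j x) s h]
      exact (h1 x hx).trans le_self_add
    · rw [muF_neg a (fun j => f j x) s h]
      refine le_trans ?_ le_add_self
      exact mul_le_mul' (h2 x hx) le_rfl

theorem isMu_muF (hT0 : T0 ≠ 0) (a : ℕ) (hcr : ¬ Crit p T0 a 1) :
    IsMu T0 (muF (p := p) (κ := κ) a) where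
  smul := muF_smul a
  near := muF_near a
  top := by
    intro h s hs
    by_cases hh : ∀ j, ‖h (some j)‖ < ‖h none‖
    · rw [muF_pos a _ s hh]
      exact N_ne_top _ _
    · rw [muF_neg a _ s hh]
      exact ENNReal.mul_ne_top (mx_ne_top h hs) (J_ne_top hs a 1 0)
  reg := by
    intro h hne
    by_cases hh : ∀ j, ‖h (some j)‖ < ‖h none‖
    · have h0 : h none ≠ 0 := by
        intro h0
        obtain ⟨j, hj⟩ := hne
        rcases j with _ | j
        · exact hj h0
        · have h1 := hh j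
          rw [h0, norm_zero] at h1
          exact absurd h1 (not_lt.2 (norm_nonneg _))
      exact (reg_N hT0 (h none) h0).congr fun s _ => by rw [muF_pos a _ s hh]
    · obtain ⟨γ, hγ, h2⟩ := exists_mx h hne
      refine ((reg_N hT0 γ hγ).mul0 (reg_J a 1 0 le_rfl hcr)).congr fun s hs => ?_
      rw [muF_neg a _ s hh, h2 s hs, ENNReal.toReal_mul]
      push_cast
      rfl
  ok := ok_muF a

theorem J_unit (a : ℕ) (s : ℝ) : J (p := p) s a 1 0 = ∫⁻ t, tau p s t ^ a ∂(mu p) := by
  unfold J bl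
  rw [pow_zero, lintegral_unit]
  refine lintegral_congr fun t => ?_
  rw [w, Nat.sub_self, pow_zero, mul_one, N_inc]

/-- **The integral over the variables `y`.** -/
theorem lintegral_aff [DecidableEq κ] {s : ℝ} (hs : 0 ≤ s) (a : ℕ) (ha : 1 ≤ a) (h : ℚ_[p])
    (z : Option κ → ℚ_[p]) :
    ∫⁻ y : κ → ℤ_[p], N p s (h * (z none + ∑ j, inc p (y j) * z (some j)) ^ a)
      ∂(Measure.pi fun _ : κ => mu p) = muF a (fun j => h * z j ^ a) s := by
  have hzero : ∀ (F : (κ → ℤ_[p]) → ℚ_[p]), (∀ y, F y = 0) → ∀ G : Option κ → ℚ_[p],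
      (∀ j, G j = 0) → ∫⁻ y : κ → ℤ_[p], N p s (F y) ∂(Measure.pi fun _ : κ => mu p) =
        muF a G s := by
    intro F hF G hG
    simp only [hF]
    have hG' : G = fun _ => 0 := funext hG
    rw [lintegral_const, measure_univ, mul_one, hG']
    by_cases h0 : s = 0
    · subst h0
      rw [muF_zero, N_zero]
    · rw [muF_of_zero a h0, N_of_zero h0]
  by_cases hh : h = 0
  · subst hh
    exact hzero _ (fun y => by rw [zero_mul]) _ (fun j => by rw [zero_mul])
  have hsm : muF a (fun j => h * z j ^ a) s = N p s h * muF a (fun j => z j ^ a) s :=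
    muF_smul a h (fun j => z j ^ a) s
  rw [hsm]
  simp only [N_mul, N_pow]
  rw [lintegral_const_mul' _ _ (N_ne_top _ _)]
  congr 1
  by_cases hc : ∀ j, ‖z (some j)‖ < ‖z none‖
  · -- the constant term dominates
    have h1 : ∀ y : κ → ℤ_[p], ‖z none + ∑ j, inc p (y j) * z (some j)‖ = ‖z none‖ := by
      intro y
      have h2 : ‖∑ j, inc p (y j) * z (some j)‖ < ‖z none‖ ∨ z none = 0 := by
        by_cases h0 : z none = 0
        · exact Or.inr h0
        · left
          rcases isEmpty_or_nonempty κ with hκ | hκ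
          · rw [Finset.univ_eq_empty, Finset.sum_empty, norm_zero]
            exact norm_pos_iff.2 h0
          · obtain ⟨j, _, hj⟩ := IsUltrametricDist.exists_norm_finsetSum_le_of_nonempty
              (t := (Finset.univ : Finset κ)) Finset.univ_nonempty (fun j => inc p (y j) * z (some j))
            refine hj.trans_lt ?_
            rw [norm_mul]
            refine lt_of_le_of_lt (mul_le_of_le_one_left (norm_nonneg _) ?_) (hc j)
            exact PadicInt.norm_le_one (y j)
      rcases h2 with h2 | h2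
      · rw [Padic.add_eq_max_of_ne h2.ne', max_eq_left h2.le]
      · rcases isEmpty_or_nonempty κ with hκ | hκ
        · rw [Finset.univ_eq_empty, Finset.sum_empty, add_zero]
        · exfalso
          have h3 := hc (Classical.arbitrary κ)
          rw [h2, norm_zero] at h3
          exact absurd h3 (not_lt.2 (norm_nonneg _))
    have h2 : ∀ y : κ → ℤ_[p], N p s (z none + ∑ j, inc p (y j) * z (some j)) = N p s (z none) :=
      fun y => N_norm s (h1 y)
    simp only [h2]
    rw [lintegral_const, measure_univ, mul_one, muF_pos a _ s (fun j => ?_), N_pow]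
    simp only [norm_pow]
    exact pow_lt_pow_left₀ (hc j) (norm_nonneg _) (by omega)
  · have hc' := hc
    push Not at hc'
    obtain ⟨j1, hj1⟩ := hc'
    by_cases hz : ∃ j, z j ≠ 0
    swap
    · push Not at hz
      have h0 : ∀ y : κ → ℤ_[p], z none + ∑ j, inc p (y j) * z (some j) = 0 := by
        intro y
        simp [hz]
      have h1 := hzero (fun y => (z none + ∑ j, inc p (y j) * z (some j)) ^ a)
        (fun y => by rw [h0 y, zero_pow (by omega)]) (fun j => z j ^ a)
        (fun j => by rw [hz j, zero_pow (by omega)])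
      simp only [N_pow] at h1
      exact h1
    obtain ⟨j2, hj2, hmax⟩ := exists_max z hz
    have hmax' : ∃ j0 : κ, z (some j0) ≠ 0 ∧ ∀ j, ‖z j‖ ≤ ‖z (some j0)‖ := by
      rcases j2 with _ | j2
      · refine ⟨j1, fun h0 => hj2 ?_, fun j => (hmax j).trans hj1⟩
        rw [h0, norm_zero] at hj1
        exact norm_le_zero_iff.1 hj1
      · exact ⟨j2, hj2, hmax⟩
    obtain ⟨j0, hj0, hmax0⟩ := hmax'
    have hcpow : ¬ ∀ j, ‖(fun j => z j ^ a) (some j)‖ < ‖(fun j => z j ^ a) none‖ := by
      intro h3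
      have h4 := h3 j0
      simp only [norm_pow] at h4
      exact absurd h4 (not_lt.2 (pow_le_pow_left₀ (norm_nonneg _) (hmax0 none) a))
    rw [muF_neg a _ s hcpow, mx_eq_of_max (fun j => z j ^ a) (some j0) (fun j => by
      simp only [norm_pow]
      exact pow_le_pow_left₀ (norm_nonneg _) (hmax0 j) a) hs, N_pow]
    -- the coefficients
    have hu : ∀ j, ∃ u : ℤ_[p], z j = z (some j0) * inc p u := by
      intro j
      have h1 : ‖z j / z (some j0)‖ ≤ 1 := by
        rw [norm_div]
        exact div_le_one_of_le₀ (hmax0 j) (norm_nonneg _)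
      refine ⟨⟨z j / z (some j0), h1⟩, ?_⟩
      change z j = z (some j0) * (z j / z (some j0))
      rw [mul_div_cancel₀ _ hj0]
    choose u hu using hu
    have hu0 : u (some j0) = 1 := by
      have h1 := hu (some j0)
      have h2 : inc p (u (some j0)) = 1 := by
        have : z (some j0) * inc p (u (some j0)) = z (some j0) * 1 := by rw [← h1, mul_one]
        exact mul_left_cancel₀ hj0 this
      have h3 : ((u (some j0) : ℤ_[p]) : ℚ_[p]) = ((1 : ℤ_[p]) : ℚ_[p]) := by
        rw [PadicInt.coe_one]; exact h2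
      exact Subtype.ext h3
    have hincs : ∀ y : κ → ℤ_[p], inc p (u none + ∑ j, y j * u (some j)) =
        inc p (u none) + ∑ j, inc p (y j) * inc p (u (some j)) := by
      intro y
      simp [inc]
    have h1 : ∀ y : κ → ℤ_[p], N p s (z none + ∑ j, inc p (y j) * z (some j)) ^ a =
        N p s (z (some j0)) ^ a * tau p s (u none + ∑ j, y j * u (some j)) ^ a := by
      intro y
      rw [← N_inc, hincs, ← mul_pow, ← N_mul, mul_add, Finset.mul_sum]
      congr 2
      conv_lhs => rw [hu none]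
      congr 1
      refine Finset.sum_congr rfl fun j _ => ?_
      rw [hu (some j)]
      ring
    simp only [h1]
    rw [lintegral_const_mul' _ _ (ENNReal.pow_ne_top (N_ne_top _ _))]
    congr 1
    have hcont : Continuous (fun y : κ → ℤ_[p] => u none + ∑ j, y j * u (some j)) := by fun_prop
    have h0 := lintegral_avg p (fun y : κ → ℤ_[p] => tau p s (u none + ∑ j, y j * u (some j)) ^ a)
      (((tau_meas p s).comp hcont.measurable).pow_const a) j0
    rw [h0]
    have h2 : ∀ y : κ → ℤ_[p], ∫⁻ t, tau p s (u none + ∑ j, Function.update y j0 t j *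
        u (some j)) ^ a ∂(mu p) = J (p := p) s a 1 0 := by
      intro y
      have h3 : ∀ t, u none + ∑ j, Function.update y j0 t j * u (some j) =
          t + (u none + ∑ j ∈ Finset.univ.erase j0, y j * u (some j)) := by
        intro t
        rw [← Finset.add_sum_erase Finset.univ _ (Finset.mem_univ j0), Function.update_self, hu0,
          mul_one]
        have h4 : ∑ x ∈ Finset.univ.erase j0, Function.update y j0 t x * u (some x) =
            ∑ j ∈ Finset.univ.erase j0, y j * u (some j) := by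
          refine Finset.sum_congr rfl fun j hj => ?_
          rw [Function.update_of_ne (Finset.ne_of_mem_erase hj)]
        rw [h4]
        ring
      simp only [h3]
      rw [J_unit]
      exact lintegral_add_right_eq_self (μ := mu p) (fun t => tau p s t ^ a) _
    simp only [h2]
    rw [lintegral_const, measure_univ, mul_one]

end Pool.Agent.N138.PA
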