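import Pool.Agent.N138.PA.ModA
import Pool.Agent.N138.PA.MuF

set_option autoImplicit false
set_option linter.unusedSectionVars false
set_option linter.unusedVariables false

/-! # The models at the critical curves: one more special point -/

namespace Pool.Agent.N138.PA

open MeasureTheory Set Pool.Agent.W427.SMC Pool.Agent.Y230.PT
open scoped ENNReal
open Pool.Agent.Y230.RE

variable {p : ℕ} [Fact p.Prime]

attribute [local instance] msK bsK msZ bsZ

variable {κ : Type} [Fintype κ] {T0 : ℂ}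

/-- the family `x_2, lam_j x_1` -/
noncomputable def zl (lam : κ → ℚ_[p]) (x : ℚ_[p] × ℚ_[p]) : Option κ → ℚ_[p]
  | none => x.2
  | some j => lam j * x.1

theorem zl_cont (lam : κ → ℚ_[p]) (j : Option κ) : Continuous (fun x => zl lam x j) := by
  rcases j with _ | j
  · exact continuous_snd
  · exact continuous_const.mul continuous_fst

/-- the standard model -/
noncomputable def Xs (γ : ℚ_[p]) (lam : κ → ℚ_[p]) (a M n : ℕ) (s : ℝ) (x : ℚ_[p] × ℚ_[p]) :
    ℝ≥0∞ := muF a (fun j => γ * zl lam x j ^ a) s * w s M n x.1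

theorem ok_Xs (γ : ℚ_[p]) (lam : κ → ℚ_[p]) (a M n : ℕ) : Ok (Xs γ lam a M n) :=
  (ok_muF a (fun j x => γ * zl lam x j ^ a)
    (fun j => continuous_const.mul ((zl_cont lam j).pow a))).mul
    (ok_w (fun x => x.1) continuous_fst M n)

theorem norm_sum_le' (lam : κ → ℚ_[p]) (u : ℚ_[p]) (R : ℝ) (hR : 0 ≤ R)
    (hu : ∀ j, ‖lam j * u‖ ≤ R) (y : κ → ℤ_[p]) : ‖∑ j, inc p (y j) * (lam j * u)‖ ≤ R := by
  refine IsUltrametricDist.norm_sum_le_of_forall_le_of_nonneg hR fun j _ => ?_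
  rw [norm_mul]
  exact (mul_le_of_le_one_left (norm_nonneg _) (PadicInt.norm_le_one (y j))).trans (hu j)

theorem inner_eq (lam : κ → ℚ_[p]) (a : ℕ) (ha : 1 ≤ a) (γ : ℚ_[p]) {s : ℝ} (hs : 0 ≤ s) (l : ℕ)
    (u : ℚ_[p]) (hu : ∀ j, ‖lam j * u‖ ≤ qr p ^ l) :
    ∫⁻ v in bl (0 : ℚ_[p]) l, muF a (fun j => γ * zl lam (u, v) j ^ a) s ∂(nu p) =
      N p s γ * J (p := p) s a 1 l := by
  classical
  have h1 : ∀ v : ℚ_[p], muF a (fun j => γ * zl lam (u, v) j ^ a) s =
      ∫⁻ y : κ → ℤ_[p], N p s (γ * (v + ∑ j, inc p (y j) * (lam j * u)) ^ a)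
        ∂(Measure.pi fun _ : κ => mu p) := fun v =>
    (lintegral_aff hs a ha γ (zl lam (u, v))).symm
  simp only [h1]
  rw [lintegral_lintegral_swap]
  · have h2 : ∀ y : κ → ℤ_[p], ∫⁻ v in bl (0 : ℚ_[p]) l,
        N p s (γ * (v + ∑ j, inc p (y j) * (lam j * u)) ^ a) ∂(nu p) =
        N p s γ * J (p := p) s a 1 l := by
      intro y
      have h3 := norm_sum_le' lam u _ (pow_nonneg qr_pos.le l) hu y
      set c := ∑ j, inc p (y j) * (lam j * u) with hc
      simp only [N_mul]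
      rw [lintegral_const_mul' _ _ (N_ne_top _ _)]
      congr 1
      have h4 := isom_I1 s a 1 (0 : ℚ_[p]) l (fun v => v + c) (fun v _ v' _ => by
        congr 1
        ring)
      simp only [zero_add] at h4
      rw [I1_near s a 1 c l h3] at h4
      rw [← h4]
      refine lintegral_congr fun v => ?_
      rw [w1_eq]
    simp only [h2]
    rw [lintegral_const, measure_univ, mul_one]
  · refine Measurable.aemeasurable ?_
    have hinc : Measurable (inc p) := (inc_emb p).continuous.measurable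
    refine (N_meas s).comp (measurable_const.mul (Measurable.pow_const ?_ a))
    refine measurable_fst.add (Finset.measurable_fun_sum _ fun j _ => ?_)
    exact (hinc.comp ((measurable_pi_apply j).comp measurable_snd)).mul measurable_const

theorem Xs_box (γ : ℚ_[p]) (lam : κ → ℚ_[p]) (a M n : ℕ) (ha : 1 ≤ a) (κ' l : ℕ)
    (hκ : ∀ j, ‖lam j‖ * qr p ^ κ' ≤ 1) {s : ℝ} (hs : 0 ≤ s) :
    Zc (Xs γ lam a M n) (bx κ' 0 l) s = ((N p s γ).toReal : ℂ) *
      (((J (p := p) s a 1 l).toReal : ℂ) * ((J (p := p) s M n (l + κ')).toReal : ℂ)) := by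
  unfold Zc
  rw [bx, nu2, ← Measure.prod_restrict, lintegral_prod _ ((ok_Xs γ lam a M n) s hs).1.aemeasurable]
  have h1 : ∀ u ∈ bl (0 : ℚ_[p]) (l + κ'), ∫⁻ v in bl (0 : ℚ_[p]) l, Xs γ lam a M n s (u, v)
      ∂(nu p) = (N p s γ * J (p := p) s a 1 l) * w s M n u := by
    intro u hu
    unfold Xs
    simp only
    rw [lintegral_mul_const' _ _ (w_ne_top _ _ _ _), inner_eq lam a ha γ hs l u]
    intro j
    rw [mem_bl, sub_zero, pow_add] at hu
    rw [norm_mul]
    calc ‖lam j‖ * ‖u‖ ≤ ‖lam j‖ * (qr p ^ l * qr p ^ κ') :=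
          mul_le_mul_of_nonneg_left hu (norm_nonneg _)
      _ = qr p ^ l * (‖lam j‖ * qr p ^ κ') := by ring
      _ ≤ qr p ^ l := mul_le_of_le_one_right (pow_nonneg qr_pos.le _) (hκ j)
  have h2 : ∫⁻ u in bl (0 : ℚ_[p] × ℚ_[p]).1 (l + κ'), ∫⁻ v in bl (0 : ℚ_[p] × ℚ_[p]).2 l,
      Xs γ lam a M n s (u, v) ∂(nu p) ∂(nu p) =
      (N p s γ * J (p := p) s a 1 l) * J (p := p) s M n (l + κ') := by
    change ∫⁻ u in bl (0 : ℚ_[p]) (l + κ'), ∫⁻ v in bl (0 : ℚ_[p]) l,
      Xs γ lam a M n s (u, v) ∂(nu p) ∂(nu p) = _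
    rw [setLIntegral_congr_fun (bl_meas _ _) h1, lintegral_const_mul' _ _
      (ENNReal.mul_ne_top (N_ne_top _ _) (J_ne_top hs _ _ _))]
    rfl
  rw [h2, ENNReal.toReal_mul, ENNReal.toReal_mul]
  push_cast
  ring

/-- **The standard model is regular.** -/
theorem RA_Xs (hT0 : T0 ≠ 0) (γ : ℚ_[p]) (hγ : γ ≠ 0) (lam : κ → ℚ_[p]) (hlam : ∃ j, lam j ≠ 0)
    (a M n : ℕ) (ha : 1 ≤ a) (hn : 1 ≤ n) (hca : ¬ Crit p T0 a 1) (hcM : ¬ Crit p T0 M n) :
    RA T0 (Xs γ lam a M n) := by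
  have hμ := isMu_muF (p := p) (κ := κ) hT0 a hca
  have hpt : ∀ x : ℚ_[p] × ℚ_[p], x ≠ 0 → LReg T0 0 (Zc (Xs γ lam a M n)) x := by
    intro x hx
    have hne : ∃ j, γ * zl lam x j ^ a ≠ 0 := by
      by_cases h1 : x.1 = 0
      · refine ⟨none, mul_ne_zero hγ (pow_ne_zero _ fun h => hx ?_)⟩
        exact Prod.ext h1 h
      · obtain ⟨j, hj⟩ := hlam
        exact ⟨some j, mul_ne_zero hγ (pow_ne_zero _ (mul_ne_zero hj h1))⟩
    obtain ⟨U, hU, hxU, hU2⟩ := hμ.near (fun j y => γ * zl lam y j ^ a)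
      (fun j => continuous_const.mul ((zl_cont lam j).pow a)) x hne
    refine ⟨U, hU, hxU, fun C hC hCU => ?_⟩
    refine ((hμ.reg _ hne).mul0 (reg_mon hT0 1 one_ne_zero M n 0 1 hn le_rfl hcM not_crit01 C
      hC)).congr fun s hs => ?_
    unfold Zc
    rw [← Complex.ofReal_mul, ← ENNReal.toReal_mul, ← lintegral_const_mul' _ _ (hμ.top _ s hs)]
    congr 2
    refine setLIntegral_congr_fun hC.meas fun y hy => ?_
    unfold Xs Pool.Agent.Y230.PT.mon
    rw [N_one, w01, mul_one, one_mul, hU2 y (hCU hy) s hs]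
  have hadd := addF_Zc (ok_Xs γ lam a M n)
  obtain ⟨κ', hκ'⟩ : ∃ κ' : ℕ, ∀ j, ‖lam j‖ * qr p ^ κ' ≤ 1 := by
    obtain ⟨R, hR⟩ : ∃ R : ℝ, 0 < R ∧ ∀ j, ‖lam j‖ ≤ R := by
      refine ⟨∑ j, ‖lam j‖ + 1, ?_, fun j => ?_⟩
      · have : 0 ≤ ∑ j, ‖lam j‖ := Finset.sum_nonneg fun _ _ => norm_nonneg _
        linarith
      · have := Finset.single_le_sum (f := fun j => ‖lam j‖) (fun _ _ => norm_nonneg _)
          (Finset.mem_univ j)
        linarith
    obtain ⟨κ', hκ'⟩ := exists_pow_lt_of_lt_one (inv_pos.2 hR.1) (qr_lt_one (p := p))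
    refine ⟨κ', fun j => ?_⟩
    calc ‖lam j‖ * qr p ^ κ' ≤ R * R⁻¹ :=
          mul_le_mul (hR.2 j) hκ'.le (pow_nonneg qr_pos.le _) hR.1.le
      _ = 1 := mul_inv_cancel₀ hR.1.ne'
  have h0 : LReg T0 0 (Zc (Xs γ lam a M n)) 0 := by
    refine LReg.of_boxes hadd κ' isOpen_univ trivial fun y l _ => ?_
    by_cases h : (0 : ℚ_[p] × ℚ_[p]) ∈ bx κ' y l
    · rw [bx_eq h (self_mem_bx κ' 0 l)]
      exact ((reg_N hT0 γ hγ).mul0 ((reg_J a 1 l le_rfl hca).mul0
        (reg_J M n (l + κ') hn hcM))).congr fun s hs => (Xs_box γ lam a M n ha κ' l hκ' hs).symm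
    · exact LReg.glue hadd (CO_bx κ' y l) fun x hx => hpt x fun h1 => h (h1 ▸ hx)
  intro C hC
  refine LReg.glue hadd hC fun x _ => ?_
  by_cases hx : x = 0
  · rw [hx]
    exact h0
  · exact hpt x hx

section Change

variable {H : ℝ → ℚ_[p] × ℚ_[p] → ℝ≥0∞}

theorem RA.congr {G : ℝ → ℚ_[p] × ℚ_[p] → ℝ≥0∞} (h : RA T0 H)
    (hGH : ∀ s : ℝ, 0 ≤ s → ∀ x, G s x = H s x) : RA T0 G := fun C hC =>
  (h C hC).congr fun s hs => by
    unfold Zc
    simp only [hGH s hs]

theorem RA_V (hH : Ok H) (f : ℚ_[p] → ℚ_[p]) (hf : Continuous f)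
    (h : RA T0 (fun s x => H s (x.1, f x.1 + x.2))) : RA T0 H := fun C hC =>
  (h _ (hC.preimage (shV f hf))).congr fun s hs => (Zc_shearV H hH f hf hC hs).symm

theorem RA_U (hH : Ok H) (α : ℚ_[p]) (hα : α ≠ 0) (f : ℚ_[p] → ℚ_[p]) (hf : Continuous f)
    (h : RA T0 (fun s x => H s (f x.2 + α * x.1, x.2))) : RA T0 H := fun C hC => by
  refine ((Reg.const (((N p 1 α).toReal : ℝ) : ℂ)).mul0 (h _ (hC.preimage
    (shU α hα f hf)))).congr fun s hs => ?_
  rw [Zc_shearU H hH α hα f hf hC hs]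
  unfold Zc
  rw [← Complex.ofReal_mul, ← ENNReal.toReal_mul, ← lintegral_const_mul' _ _ (N_ne_top _ _)]
  rfl

theorem RA_S (h : RA T0 (fun s x => H s x.swap)) : RA T0 H := fun C hC =>
  (h _ ⟨(Homeomorph.prodComm _ _).isCompact_preimage.2 hC.cpt,
    hC.opn.preimage continuous_swap⟩).congr fun s _ => (Zc_swap H C s).symm

end Change

/-- invertible linear changes of the variables: `x_1` and a form `α x_2 + β x_1` -/
theorem RA_lin1 {H : ℝ → ℚ_[p] × ℚ_[p] → ℝ≥0∞} (hH : Ok H) (h : RA T0 H) (α β : ℚ_[p])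
    (hα : α ≠ 0) : RA T0 (fun s x => H s (x.1, α * x.2 + β * x.1)) := by
  have hok : Ok (fun s x => H s (x.1, α * x.2 + β * x.1)) :=
    hH.comp (fun x => (x.1, α * x.2 + β * x.1)) (by fun_prop)
  refine RA_V hok (fun x => -(α⁻¹ * β * x)) (by fun_prop) ?_
  refine RA_S ?_
  refine RA_U (H := fun s x => H s (x.2, α * x.1)) (hH.comp (fun x => (x.2, α * x.1)) (by fun_prop)) α⁻¹
    (inv_ne_zero hα) (fun _ => 0) continuous_const ?_ |>.congr ?_
  · refine RA_S (h.congr fun s _ x => ?_)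
    simp only [Prod.fst_swap, Prod.snd_swap, zero_add, mul_inv_cancel_left₀ hα]
  · intro s _ x
    simp only [Prod.fst_swap, Prod.snd_swap]
    congr 2
    field_simp
    ring

/-- invertible linear changes of the variables: `x_2 - z x_1` and a form `α x_2 + β x_1` -/
theorem RA_lin2 {H : ℝ → ℚ_[p] × ℚ_[p] → ℝ≥0∞} (hH : Ok H) (h : RA T0 H) (z α β : ℚ_[p])
    (hα : α * z + β ≠ 0) : RA T0 (fun s x => H s (x.2 - z * x.1, α * x.2 + β * x.1)) := by
  have hok : Ok (fun s x => H s (x.2 - z * x.1, α * x.2 + β * x.1)) :=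
    hH.comp (fun x => (x.2 - z * x.1, α * x.2 + β * x.1)) (by fun_prop)
  refine RA_V hok (fun x => z * x) (by fun_prop) ?_
  refine RA_U (H := fun s x => H s (x.2, α * x.2 + (α * z + β) * x.1))
    (hH.comp (fun x => (x.2, α * x.2 + (α * z + β) * x.1)) (by fun_prop)) (α * z + β)⁻¹
    (inv_ne_zero hα) (fun v => -((α * z + β)⁻¹ * α * v)) (by fun_prop) ?_ |>.congr ?_
  · refine RA_S (h.congr fun s _ x => ?_)
    simp only [Prod.fst_swap, Prod.snd_swap]
    congr 2
    field_simp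
    ring
  · intro s _ x
    simp only
    congr 2
    · ring
    · ring

theorem Fm_eq_Xs (γ : ℚ_[p]) (lam : κ → ℚ_[p]) (a M a' n' : ℕ) (s : ℝ) (q t : ℚ_[p])
    (G : Option κ → ℚ_[p]) (hG : ∀ j, G j = q ^ M * (γ * zl lam (q, t) j ^ a)) :
    muF a G s * w s a' n' q = Xs γ lam a (a' + M) n' s (q, t) := by
  have h1 : G = fun j => q ^ M * (γ * zl lam (q, t) j ^ a) := funext hG
  rw [h1, muF_smul, N_pow]
  unfold Xs
  simp only
  rw [w_add]
  ring

/-- **One more special point, at infinity.** -/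
theorem RA_inf (hT0 : T0 ≠ 0) (γ : ℚ_[p]) (hγ : γ ≠ 0) (lam : κ → ℚ_[p]) (hlam : ∃ j, lam j ≠ 0)
    (a mh mg : ℕ) (ha : 1 ≤ a) (hmg : 1 ≤ mg) (hca : ¬ Crit p T0 a 1) (a0 n0 : ℕ) (hn0 : 1 ≤ n0)
    (hcM : ¬ Crit p T0 (a0 + (mh + a * (mg - 1))) n0) (α β : ℚ_[p]) (hα : α ≠ 0)
    (Q : Option κ → Polynomial ℚ_[p])
    (hQ0 : Q none = Polynomial.C γ * (Polynomial.C α * Polynomial.X + Polynomial.C β) ^ a)
    (hQj : ∀ j, Q (some j) = Polynomial.C (γ * lam j ^ a)) :
    RA T0 (Fm (muF a) (mh + a * mg) Q a0 n0 0 1) := by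
  have hX := RA_lin1 (ok_Xs γ lam a (a0 + (mh + a * (mg - 1))) n0) (RA_Xs hT0 γ hγ lam hlam a _ n0 ha
    hn0 hca hcM) α β hα
  refine hX.congr fun s hs x => ?_
  unfold Fm
  rw [w01, mul_one]
  obtain ⟨e, rfl⟩ : ∃ e, mg = e + 1 := ⟨mg - 1, by omega⟩
  rw [Nat.add_sub_cancel]
  refine Fm_eq_Xs γ lam a (mh + a * e) a0 n0 s x.1 (α * x.2 + β * x.1) _ fun j => ?_
  rcases j with _ | j
  · simp only [zl]
    rw [hm_of (mh + a * (e + 1)) (Q none) ?_ (fun x => x.1 ^ (mh + a * e) *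
      (γ * (α * x.2 + β * x.1) ^ a)) (by fun_prop) ?_]
    · rw [hQ0]
      refine (Polynomial.natDegree_C_mul_le _ _).trans ?_
      refine Polynomial.natDegree_pow_le.trans ?_
      have h1 : (Polynomial.C α * Polynomial.X + Polynomial.C β).natDegree ≤ 1 :=
        Polynomial.natDegree_linear_le
      calc a * (Polynomial.C α * Polynomial.X + Polynomial.C β).natDegree ≤ a * 1 :=
            Nat.mul_le_mul_left _ h1
        _ ≤ mh + a * (e + 1) := by rw [Nat.mul_add]; omega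
    · intro u v
      rw [hQ0]
      simp only [Polynomial.eval_mul, Polynomial.eval_C, Polynomial.eval_pow, Polynomial.eval_add,
        Polynomial.eval_X]
      have h1 : u ^ (mh + a * (e + 1)) = u ^ (mh + a * e) * u ^ a := by
        rw [← pow_add]
        congr 1
        ring
      have h2 : α * (u * v) + β * u = u * (α * v + β) := by ring
      rw [h1, h2, mul_pow]
      ring
  · simp only [zl]
    rw [hm_of (mh + a * (e + 1)) (Q (some j)) ?_ (fun x => x.1 ^ (mh + a * e) *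
      (γ * (lam j * x.1) ^ a)) (by fun_prop) ?_]
    · rw [hQj, Polynomial.natDegree_C]
      exact Nat.zero_le _
    · intro u v
      rw [hQj, Polynomial.eval_C]
      simp only
      have h1 : u ^ (mh + a * (e + 1)) = u ^ (mh + a * e) * u ^ a := by
        rw [← pow_add]
        congr 1
        ring
      rw [h1, mul_pow]
      ring

/-- **One more special point, at a finite place.** -/
theorem RA_fin (hT0 : T0 ≠ 0) (γ : ℚ_[p]) (hγ : γ ≠ 0) (lam : κ → ℚ_[p]) (hlam : ∃ j, lam j ≠ 0)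
    (a mh mg : ℕ) (ha : 1 ≤ a) (hmg : 1 ≤ mg) (hca : ¬ Crit p T0 a 1) (a1 n1 : ℕ) (hn1 : 1 ≤ n1)
    (hcM : ¬ Crit p T0 (a1 + (mh + a * (mg - 1))) n1) (z α β : ℚ_[p]) (hα : α * z + β ≠ 0)
    (hz : z ≠ 0 → a1 = 0 ∧ n1 = 1) (Q : Option κ → Polynomial ℚ_[p])
    (hQ0 : Q none = Polynomial.C γ * (Polynomial.X - Polynomial.C z) ^ (mh + a * (mg - 1)) *
      (Polynomial.C α * Polynomial.X + Polynomial.C β) ^ a)
    (hQj : ∀ j, Q (some j) = Polynomial.C (γ * lam j ^ a) *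
      (Polynomial.X - Polynomial.C z) ^ (mh + a * mg)) :
    RA T0 (Fm (muF a) (mh + a * mg) Q 0 1 a1 n1) := by
  have hX := RA_lin2 (ok_Xs γ lam a (a1 + (mh + a * (mg - 1))) n1) (RA_Xs hT0 γ hγ lam hlam a _ n1 ha
    hn1 hca hcM) z α β hα
  refine hX.congr fun s hs x => ?_
  unfold Fm
  have hw : w s a1 n1 x.2 = w s a1 n1 (x.2 - z * x.1) := by
    by_cases h : z = 0
    · rw [h, zero_mul, sub_zero]
    · obtain ⟨rfl, rfl⟩ := hz h
      rw [w01, w01]
  rw [w01, one_mul, hw]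
  obtain ⟨e, rfl⟩ : ∃ e, mg = e + 1 := ⟨mg - 1, by omega⟩
  rw [Nat.add_sub_cancel]
  rw [Nat.add_sub_cancel] at hQ0
  refine Fm_eq_Xs γ lam a (mh + a * e) a1 n1 s (x.2 - z * x.1) (α * x.2 + β * x.1) _ fun j => ?_
  rcases j with _ | j
  · simp only [zl]
    rw [hm_of (mh + a * (e + 1)) (Q none) ?_ (fun x => (x.2 - z * x.1) ^ (mh + a * e) *
      (γ * (α * x.2 + β * x.1) ^ a)) (by fun_prop) ?_]
    · rw [hQ0]
      have h1 : (Polynomial.C α * Polynomial.X + Polynomial.C β).natDegree ≤ 1 :=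
        Polynomial.natDegree_linear_le
      have h2 : ((Polynomial.X - Polynomial.C z : Polynomial ℚ_[p]) ^ (mh + a * e)).natDegree ≤
          mh + a * e := by
        rw [Polynomial.natDegree_pow, Polynomial.natDegree_X_sub_C, mul_one]
      have h3 : ((Polynomial.C α * Polynomial.X + Polynomial.C β) ^ a).natDegree ≤ a := by
        refine Polynomial.natDegree_pow_le.trans ?_
        calc a * (Polynomial.C α * Polynomial.X + Polynomial.C β).natDegree ≤ a * 1 :=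
              Nat.mul_le_mul_left _ h1
          _ = a := mul_one a
      refine Polynomial.natDegree_mul_le.trans ?_
      have h4 := (Polynomial.natDegree_C_mul_le γ ((Polynomial.X - Polynomial.C z :
        Polynomial ℚ_[p]) ^ (mh + a * e))).trans h2
      calc _ ≤ (mh + a * e) + a := Nat.add_le_add h4 h3
        _ = mh + a * (e + 1) := by ring
    · intro u v
      rw [hQ0]
      simp only [Polynomial.eval_mul, Polynomial.eval_C, Polynomial.eval_pow, Polynomial.eval_add,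
        Polynomial.eval_X, Polynomial.eval_sub]
      have h1 : u ^ (mh + a * (e + 1)) = u ^ (mh + a * e) * u ^ a := by
        rw [← pow_add]
        congr 1
        ring
      have h2 : α * (u * v) + β * u = u * (α * v + β) := by ring
      have h3 : u * v - z * u = u * (v - z) := by ring
      rw [h1, h2, h3, mul_pow, mul_pow]
      ring
  · simp only [zl]
    rw [hm_of (mh + a * (e + 1)) (Q (some j)) ?_ (fun x => (x.2 - z * x.1) ^ (mh + a * e) *
      (γ * (lam j * (x.2 - z * x.1)) ^ a)) (by fun_prop) ?_]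
    · rw [hQj]
      refine (Polynomial.natDegree_C_mul_le _ _).trans ?_
      rw [Polynomial.natDegree_pow, Polynomial.natDegree_X_sub_C, mul_one]
    · intro u v
      rw [hQj]
      simp only [Polynomial.eval_mul, Polynomial.eval_C, Polynomial.eval_pow,
        Polynomial.eval_X, Polynomial.eval_sub]
      have h1 : u ^ (mh + a * (e + 1)) = u ^ (mh + a * e) * u ^ a := by
        rw [← pow_add]
        congr 1
        ring
      have h3 : u * v - z * u = u * (v - z) := by ring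
      have h4 : (v - z) ^ (mh + a * (e + 1)) = (v - z) ^ (mh + a * e) * (v - z) ^ a := by
        rw [← pow_add]
        congr 1
        ring
      rw [h1, h3, h4, mul_pow, mul_pow, mul_pow]
      ring

end Pool.Agent.N138.PA
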