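import Pool.Agent.N138.PA.CxP
import Pool.Agent.N138.PA.Classify
import Pool.Agent.N138.PA.ModB

set_option autoImplicit false
set_option linter.unusedSectionVars false
set_option linter.unusedVariables false
set_option linter.unusedSimpArgs false

/-! # The critical exceptional curves -/

namespace Pool.Agent.N138.PA

open Pool.Agent.W574.SM Pool.Agent.Y230.RE Pool.Agent.Y230.PL
open Pool.Agent.Y230.PT hiding sw cc_sw pderiv_sw
open Pool.Agent.N103 (InvA GeomD fc FF fam t0 t1 OrdP blow_sol nodeT)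
open Polynomial

theorem jar (a0 n0 a1 n1 m q : ℕ) (hn0 : 1 ≤ n0) (hn1 : 1 ≤ n1) (hz1 : a1 = 0 → n1 = 1)
    (hJ2' : 0 < a1 → (n1 - 1) * a0 < a1 * n0) (hJ1 : (n1 - 1) * m ≤ a1) (h : 0 < a1 + q) :
    (n1 - 1) * (a0 + a1 + m) < (n0 + n1) * (a1 + q) := by
  by_cases ha1 : 0 < a1
  · have h1 := hJ2' ha1
    have h3 : (n1 - 1) * (a0 + a1 + m) = (n1 - 1) * a0 + (n1 - 1) * a1 + (n1 - 1) * m := by ring
    have h4 : (n1 - 1) * a1 + a1 = a1 * n1 := by
      have : n1 = (n1 - 1) + 1 := by omega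
      conv_rhs => rw [this]
      ring
    have h5 : (n0 + n1) * (a1 + q) = a1 * n0 + a1 * n1 + (n0 + n1) * q := by ring
    have h6 : 0 ≤ (n0 + n1) * q := Nat.zero_le _
    omega
  · have h1 : a1 = 0 := by omega
    have h2 := hz1 h1
    rw [h2, Nat.sub_self, zero_mul]
    exact Nat.mul_pos (by omega) h

theorem jar' (a0 n0 a1 n1 m q : ℕ) (hn0 : 1 ≤ n0) (hn1 : 1 ≤ n1) (hz0 : a0 = 0 → n0 = 1)
    (hJ2 : 0 < a0 → (n0 - 1) * a1 < a0 * n1) (hJ1 : (n0 - 1) * m ≤ a0) (h : 0 < a0 + q) :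
    (n0 - 1) * (a0 + a1 + m) < (n0 + n1) * (a0 + q) := by
  have h1 := jar a1 n1 a0 n0 m q hn1 hn0 hz0 hJ2 hJ1 h
  rwa [add_comm a1 a0, add_comm n1 n0] at h1

theorem coeff_sub_pow (z : ℂ) (n k : ℕ) :
    ((X - C z : ℂ[X]) ^ n).coeff k = (-z) ^ (n - k) * (n.choose k : ℂ) := by
  have h1 : (X - C z : ℂ[X]) = X + C (-z) := by rw [map_neg, sub_eq_add_neg]
  rw [h1, coeff_X_add_C_pow]

theorem ordI {g g0 gI : MP} {m : ℕ}
    (h0 : MvPolynomial.aeval (chart 0) g = MvPolynomial.X 0 ^ m * g0)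
    (hI : MvPolynomial.aeval chartI g = MvPolynomial.X 1 ^ m * gI) (hne : res0 g0 ≠ 0) :
    OrdP (res0 (sw gI)) (m - (res0 g0).natDegree) := by
  obtain ⟨h1, h2, h3⟩ := coeff_resI g g0 gI m h0 hI
  rw [Pool.Agent.N103.res0_sw]
  constructor
  · intro i hi
    rw [h3 i (by omega)]
    exact coeff_eq_zero_of_natDegree_lt (by omega)
  · rw [h3 _ (by omega)]
    have h4 : m - (m - (res0 g0).natDegree) = (res0 g0).natDegree := by omega
    rw [h4]
    exact leadingCoeff_ne_zero.2 hne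

variable {κ : Type} [Fintype κ] [DecidableEq κ]

variable {p : ℕ} [Fact p.Prime]
variable {φ : ℚ_[p] →+* ℂ} {h : MP} {f : Option κ → MP} {a : ℕ} {Pt : Fin 2 → ℂ} {r : ℂ}
  {b : ℂ[X]} {T0 : ℂ}

/-- proportional leading forms -/
theorem prop_case (hT0 : T0 ≠ 0) (hcr : ∀ a n : ℕ, Crit p T0 a n → (n : ℂ) + r * (a : ℂ) = 0)
    (hca : ¬ Crit p T0 a 1) (ha : 1 ≤ a) {a0 n0 a1 n1 mh mg : ℕ} (hm : 1 ≤ mh + a * mg)
    (hn0 : 1 ≤ n0) (hn1 : 1 ≤ n1) (hz0 : a0 = 0 → n0 = 1) (hz1 : a1 = 0 → n1 = 1)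
    (hJ1 : (n0 - 1) * (mh + a * mg) ≤ a0 ∧ (n1 - 1) * (mh + a * mg) ≤ a1)
    (hJ2 : 0 < a0 → (n0 - 1) * a1 < a0 * n1) (hJ2' : 0 < a1 → (n1 - 1) * a0 < a1 * n0)
    (hrs : r = -((n0 + n1 : ℕ) : ℂ) / ((a0 + a1 + (mh + a * mg) : ℕ) : ℂ))
    (Ph : ℚ_[p][X]) (P : Option κ → ℚ_[p][X]) (hPh : Ph ≠ 0) (hPhd : Ph.natDegree ≤ mh)
    (j0 : Option κ) (hj0 : P j0 ≠ 0) (hj0d : (P j0).natDegree ≤ mg)
    (hprop : ∀ j, ∃ lam : ℂ, (P j).map φ = C lam * (P j0).map φ) (β : ℂ) (hβ : β ≠ 0) (A' : ℂ[X])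
    (hA' : A' ≠ 0)
    (hsol : (X ^ a1 * (Ph.map φ * (P j0).map φ ^ a)) * derivative A'
      + C r * derivative (X ^ a1 * (Ph.map φ * (P j0).map φ ^ a)) * A'
        = C β * X ^ (n1 - 1) * (X ^ a1 * (Ph.map φ * (P j0).map φ ^ a))) :
    RA T0 (Fm (muF a) (mh + a * mg) (fun j => Ph * P j ^ a) a0 n0 a1 n1) := by
  classical
  have hP' : Ph * P j0 ^ a ≠ 0 := mul_ne_zero hPh (pow_ne_zero _ hj0)
  have hmap : (Ph * P j0 ^ a).map φ = Ph.map φ * (P j0).map φ ^ a := by
    rw [Polynomial.map_mul, Polynomial.map_pow]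
  rw [← hmap] at hsol
  have hPm : (Ph * P j0 ^ a).map φ ≠ 0 := by rwa [Ne, Polynomial.map_eq_zero]
  have hdeg : ((Ph * P j0 ^ a).map φ).natDegree ≤ mh + a * mg := by
    rw [natDegree_map_eq_of_injective φ.injective]
    refine natDegree_mul_le.trans (Nat.add_le_add hPhd ?_)
    exact natDegree_pow_le.trans (Nat.mul_le_mul_left _ hj0d)
  set S : Finset ℂ := insert 0 ((Ph * P j0 ^ a).map φ).roots.toFinset with hS
  have hSP : ∀ c ∉ S, ((Ph * P j0 ^ a).map φ).eval c ≠ 0 := by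
    intro c hc h
    apply hc
    rw [hS, Finset.mem_insert, Multiset.mem_toFinset]
    exact Or.inr ((mem_roots hPm).2 h)
  obtain ⟨hA0, hAI, hAc, T, hT, hcard, h1, h2, hsum, hrel⟩ :=
    bracketT ((Ph * P j0 ^ a).map φ) hPm (mh + a * mg) a0 n0 a1 n1 hdeg hm hn0 hn1 S
      (Finset.mem_insert_self _ _) hSP
      (fun h => jar a0 n0 a1 n1 _ _ hn0 hn1 hz1 hJ2' hJ1.2 h) hz1
      (fun h => jar' a0 n0 a1 n1 _ _ hn0 hn1 hz0 hJ2 hJ1.1 h) hz0 β hβ A' hA' r hrs hsol
  obtain ⟨γ, μ0, T', ν, hSp⟩ := spec_of φ T0 r hcr (Ph * P j0 ^ a) hP' (mh + a * mg) a0 n0 a1 n1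
    hdeg hA0 hAI hAc T hT hcard h1 h2 hsum hrel
  -- the coefficients
  set d := (P j0).natDegree with hd
  have hlc : (P j0).coeff d ≠ 0 := leadingCoeff_ne_zero.2 hj0
  have hl : ∀ j, P j = C ((P j).coeff d / (P j0).coeff d) * P j0 := by
    intro j
    obtain ⟨l, hl⟩ := hprop j
    have hl2 : φ ((P j).coeff d / (P j0).coeff d) = l := by
      have h3 := congrArg (fun Q : ℂ[X] => Q.coeff d) hl
      simp only [coeff_map, coeff_C_mul] at h3
      rw [map_div₀, h3]
      exact mul_div_cancel_right₀ _ (fun h => hlc ((map_eq_zero φ).1 h))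
    apply Polynomial.map_injective φ φ.injective
    rw [hl, Polynomial.map_mul, Polynomial.map_C, hl2]
  refine RA_prop hT0 (isMu_muF hT0 a hca) hn0 hn1 hSp
    (fun j => ((P j).coeff d / (P j0).coeff d) ^ a) ⟨j0, ?_⟩ _ fun j => ?_
  · rw [div_self hlc, one_pow]
    exact one_ne_zero
  · conv_lhs => rw [hl j]
    rw [mul_pow, map_pow]
    ring

/-- **The critical exceptional curves.** -/
theorem CxP.crit (hb : Pool.Agent.N103.HEq 1 (FF h f a) b) (hF : FF h f a ≠ 0) (ha : 1 ≤ a)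
    (hr : b.eval r ≠ 0) (hT0 : T0 ≠ 0)
    (hcr : ∀ a n : ℕ, Crit p T0 a n → (n : ℂ) + r * (a : ℂ) = 0) (hca : ¬ Crit p T0 a 1)
    {G : Option κ → A ℚ_[p]} {d0 d1 : Bool} {a0 n0 a1 n1 m : ℕ} {Gc : ℚ_[p] → Option κ → A ℚ_[p]}
    {GI : Option κ → A ℚ_[p]} (hm : 1 ≤ m)
    (hGc : ∀ c j, MvPolynomial.aeval (ch c) (G j) = MvPolynomial.X 0 ^ m * Gc c j)
    (hGI : ∀ j, MvPolynomial.aeval chI (G j) = MvPolynomial.X 1 ^ m * GI j)
    (hne : ∃ j, r0 (Gc 0 j) ≠ 0) (hC : CxP φ h f a Pt r G d0 d1 a0 n0 a1 n1)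
    (hcrit : Crit p T0 (a0 + a1 + m) (n0 + n1)) :
    RA T0 (Fm (muF a) m (fun j => r0 (Gc 0 j)) a0 n0 a1 n1) := by
  classical
  obtain ⟨hT, h', g, hG, hinv⟩ := hC
  obtain ⟨mh, mg, hc, gc, hI, gI, rfl, hhc, hgc, hhI, hgI, e1, e2, hPh, hPg⟩ :=
    split a ha hGc hGI hne hG
  have hH : ∀ c : κ → ℂ, MvPolynomial.eval (Sum.elim Pt c) (1 : MvPolynomial (Fin 2 ⊕ κ) ℂ) ≠ 0 :=
    fun c => by rw [map_one]; exact one_ne_zero
  have hn0 := (hinv 0).hn0
  have hn1 := (hinv 0).hn1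
  have hz0 := (hinv 0).hz0
  have hz1 := (hinv 0).hz1
  have hJ2 := (hinv 0).hJ2
  have hJ2' := (hinv 0).hJ2'
  have hJ1 : (n0 - 1) * (mh + a * mg) ≤ a0 ∧ (n1 - 1) * (mh + a * mg) ≤ a1 :=
    (hinv 0).hJ1 mh mg ⟨⟨fun _ => hz φ (hc 0) 0, fun _ => hz_eq φ (hhc 0) 0⟩,
      ⟨fun _ => mp φ hI, fun _ => hI_eq φ hhI⟩⟩
      ⟨⟨gz φ 0 (gc 0) 0, fun j => gz_eq φ 0 (hgc 0) 0 j⟩, ⟨_, fun j => gI_eq φ 0 hgI j⟩⟩
  have hAc : ((a0 + a1 + (mh + a * mg) : ℕ) : ℂ) ≠ 0 := Nat.cast_ne_zero.2 (by omega)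
  have hrs : r = -((n0 + n1 : ℕ) : ℂ) / ((a0 + a1 + (mh + a * mg) : ℕ) : ℂ) := by
    rw [eq_div_iff hAc]
    linear_combination hcr _ _ hcrit
  have hs : b.eval (-((n0 + n1 : ℕ) : ℂ) / ((a0 + a1 + (mh + a * mg) : ℕ) : ℂ)) ≠ 0 := by
    rw [← hrs]
    exact hr
  -- the leading forms
  set Ph := r0 (hc 0) with hPhd
  set P : Option κ → ℚ_[p][X] := fun j => r0 (gc 0 j) with hPd
  have hGP : (fun j => r0 (Gc 0 j)) = fun j => Ph * P j ^ a := by
    funext j
    rw [e1, map_mul, map_pow]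
  rw [hGP]
  have hdH : Ph.natDegree ≤ mh := by
    rw [hPhd, r0_lead (hhc 0)]
    exact om_deg _ _
  have hdG : ∀ j, (P j).natDegree ≤ mg := by
    intro j
    rw [hPd]
    simp only
    rw [r0_lead (hgc 0 j)]
    exact om_deg _ _
  have hPhC : res0 (hz φ (hc 0) 0) = Ph.map φ := res0_hz0 φ hhc
  have hPhC0 : Ph.map φ ≠ 0 := by rwa [Ne, Polynomial.map_eq_zero]
  set P0 : ℂ[X] := (P none).map φ with hP0
  set Q : κ → ℂ[X] := fun j => (P (some j)).map φ with hQ
  have hPc : ∀ c : κ → ℂ, res0 (gz φ c (gc 0) 0 none) = Pc P0 Q c := by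
    intro c
    rw [gz0 φ c hgc, res0_fc_mp]
    rfl
  have hQc : ∀ (c : κ → ℂ) (j : κ), res0 (gz φ c (gc 0) 0 (some j)) = Q j := by
    intro c j
    rw [gz0 φ c hgc]
    change res0 (mp φ (gc 0 (some j))) = _
    rw [← mp_r0]
  by_cases hcase : ∃ c, Pc P0 Q c = 0
  · -- some member vanishes
    obtain ⟨c, hc0⟩ := hcase
    have hQne : ∃ j, Q j ≠ 0 := by
      by_contra hall
      push Not at hall
      obtain ⟨j, hj⟩ := hPg
      rcases j with _ | j
      · have h1 : Pc P0 Q c = P0 := by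
          unfold Pc
          rw [Finset.sum_eq_zero, add_zero]
          intro i _
          rw [hall i, mul_zero]
        rw [h1, hP0, Polynomial.map_eq_zero] at hc0
        exact hj hc0
      · have h1 := hall j
        rw [hQ] at h1
        simp only at h1
        rw [Polynomial.map_eq_zero] at h1
        exact hj h1
    obtain ⟨GD⟩ := (hinv c).geom
    obtain ⟨P', hP', ⟨lam, hlam⟩, ⟨j0, hj0⟩, β, A', hβ, hA', hsol⟩ :=
      blow_sol hb hF (hH c) ha GD hn0 hn1 mh mg hm (hz φ (hc 0) 0) (gz φ c (gc 0) 0)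
        (hz_eq φ (hhc 0) 0) (gz_eq φ c (hgc 0) 0) (by rw [hPhC]; exact hPhC0) true
        (by
          simp only [if_true]
          refine ⟨by rw [hPc, hc0], ?_⟩
          obtain ⟨j, hj⟩ := hQne
          exact ⟨j, by rw [hQc]; exact hj⟩) hs
    simp only [if_true] at hlam hj0
    rcases j0 with _ | j0
    · exfalso
      rw [hPc, hc0] at hj0
      exact hP' hj0.symm
    rw [hQc] at hj0
    have hj0' : P' = (P (some j0)).map φ := hj0.symm
    rw [← hrs, hPhC, hj0'] at hsol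
    refine prop_case hT0 hcr hca ha hm hn0 hn1 hz0 hz1 hJ1 hJ2 hJ2' hrs Ph P hPh hdH (some j0)
      (fun h => hP' (by rw [hj0', h, Polynomial.map_zero])) (hdG _) ?_ β hβ A' hA' hsol
    intro j
    rcases j with _ | j
    · have h1 : P0 = -∑ j, C (c j) * Q j := by
        have h2 : P0 + ∑ j, C (c j) * Q j = 0 := hc0
        exact eq_neg_of_add_eq_zero_left h2
      refine ⟨-∑ j, c j * lam (some j), ?_⟩
      change P0 = _
      rw [h1, map_neg, map_sum, neg_mul, Finset.sum_mul]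
      congr 1
      refine Finset.sum_congr rfl fun j _ => ?_
      have h3 := hlam (some j)
      rw [hQc, hj0'] at h3
      rw [h3, map_mul]
      ring
    · refine ⟨lam (some j), ?_⟩
      have h3 := hlam (some j)
      rw [hQc, hj0'] at h3
      exact h3
  push Not at hcase
  by_cases hQ0 : ∀ j, Q j = 0
  · -- only the constant member
    have hPn : P none ≠ 0 := by
      intro h1
      apply hcase 0
      rw [Pc_zero, hP0, h1, Polynomial.map_zero]
    obtain ⟨GD⟩ := (hinv 0).geom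
    obtain ⟨P', hP', ⟨lam, hlam⟩, ⟨j0, hj0⟩, β, A', hβ, hA', hsol⟩ :=
      blow_sol hb hF (hH 0) ha GD hn0 hn1 mh mg hm (hz φ (hc 0) 0) (gz φ 0 (gc 0) 0)
        (hz_eq φ (hhc 0) 0) (gz_eq φ 0 (hgc 0) 0) (by rw [hPhC]; exact hPhC0) false
        (by
          simp only [Bool.false_eq_true, if_false]
          rw [hPc]
          exact hcase 0) hs
    simp only [Bool.false_eq_true, if_false] at hj0
    rw [hPc, Pc_zero] at hj0
    rw [← hrs, hPhC, ← hj0] at hsol
    refine prop_case hT0 hcr hca ha hm hn0 hn1 hz0 hz1 hJ1 hJ2 hJ2' hrs Ph P hPh hdH none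
      hPn (hdG _) ?_ β hβ A' hA' hsol
    intro j
    rcases j with _ | j
    · exact ⟨1, by rw [map_one, one_mul]⟩
    · refine ⟨0, ?_⟩
      rw [map_zero, zero_mul]
      exact hQ0 j
  push Not at hQ0
  obtain ⟨j1, hj1⟩ := hQ0
  -- the orders at the points
  have hoh : ∀ z, OrdP (res0 (hz φ (hc 0) z)) ((Ph.map φ).rootMultiplicity z) := by
    intro z
    rw [res0_chart (mp φ h') (hz φ (hc 0) 0) (hz φ (hc 0) z) mh z (hz_eq φ (hhc 0) 0)
      (hz_eq φ (hhc 0) z), hPhC]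
    exact ord_comp _ hPhC0 z
  have ho : ∀ (c : κ → ℂ) (z : ℂ) (j : Option κ), res0 (gz φ c (gc 0) 0 j) ≠ 0 →
      OrdP (res0 (gz φ c (gc 0) z j)) ((res0 (gz φ c (gc 0) 0 j)).rootMultiplicity z) := by
    intro c z j hj
    rw [res0_chart (fc c (fun j => mp φ (g j)) j) (gz φ c (gc 0) 0 j) (gz φ c (gc 0) z j) mg z
      (gz_eq φ c (hgc 0) 0 j) (gz_eq φ c (hgc 0) z j)]
    exact ord_comp _ hj z
  have hPenH : PenH mg mh a (Ph.map φ) P0 Q (fun z => if z = 0 then a1 else 0)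
      (fun z => if z = 0 then n1 else 1) a0 n0 := by
    refine ⟨hPhC0, ?_, hcase, fun j => ?_, ?_, ?_⟩
    · rw [natDegree_map_eq_of_injective φ.injective]
      exact hdH
    · rw [hQ]
      simp only
      rw [natDegree_map_eq_of_injective φ.injective]
      exact hdG _
    · intro z c j hQj hlt
      obtain ⟨GD⟩ := (hinv c).geom
      have o0 := ho c z none (by rw [hPc]; exact hcase c)
      have oj := ho c z (some j) (by rw [hQc]; exact hQj)
      rw [hPc] at o0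
      rw [hQc] at oj
      by_cases hz' : z = 0
      · subst hz'
        simp only [if_true]
        exact (nodeT hb hF (hH c) ha (GD.child0 hn0 hn1 mh mg (hz φ (hc 0) 0) (gz φ c (gc 0) 0)
          (hz_eq φ (hhc 0) 0) (gz_eq φ c (hgc 0) 0)) (by omega) hn1 (by omega) hs j _ _ _ (hoh 0)
          o0 oj hlt (fun h => by
            have h1 := jar a0 n0 a1 n1 (mh + a * mg) ((Ph.map φ).rootMultiplicity 0 +
              a * (Q j).rootMultiplicity 0) hn0 hn1 hz1 hJ2' hJ1.2 (by omega)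
            rwa [← add_assoc a1] at h1) (fun h => hz1 (by omega))).1
      · rw [if_neg hz', if_neg hz']
        exact (nodeT hb hF (hH c) ha (GD.child hn0 hn1 mh mg z hz' (hz φ (hc 0) z)
          (gz φ c (gc 0) z) (hz_eq φ (hhc 0) z) (gz_eq φ c (hgc 0) z)) (by omega) le_rfl (by omega)
          hs j _ _ _ (hoh z) o0 oj hlt (fun h => by
            rw [Nat.sub_self, zero_mul]
            exact Nat.mul_pos (by omega) h) (fun _ => rfl)).1
    · intro c j hQj hlt
      obtain ⟨GD⟩ := (hinv c).geom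
      have oh := ordI (hz_eq φ (hhc 0) 0) (hI_eq φ hhI) (by rw [hPhC]; exact hPhC0)
      have o0 := ordI (gz_eq φ c (hgc 0) 0 none) (gI_eq φ c hgI none)
        (by rw [hPc]; exact hcase c)
      have oj := ordI (gz_eq φ c (hgc 0) 0 (some j)) (gI_eq φ c hgI (some j))
        (by rw [hQc]; exact hQj)
      rw [hPhC] at oh
      rw [hPc] at o0
      rw [hQc] at oj
      have hQd : (Q j).natDegree ≤ mg := by
        rw [hQ]
        simp only
        rw [natDegree_map_eq_of_injective φ.injective]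
        exact hdG _
      exact (nodeT hb hF (hH c) ha (GD.childI hn0 hn1 mh mg (mp φ hI)
        (fc c fun j => mp φ (gI j)) (hI_eq φ hhI) (gI_eq φ c hgI)).swap (by omega) hn0 (by omega)
        hs j _ _ _ oh o0 oj (by omega) (fun h => by
            have h1 := jar' a0 n0 a1 n1 (mh + a * mg) (mh - (Ph.map φ).natDegree +
              a * (mg - (Q j).natDegree)) hn0 hn1 hz0 hJ2 hJ1.1 (by omega)
            rwa [← add_assoc a0] at h1) (fun h => hz0 (by omega))).1
  have hinj := φ.injective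
  have hPd' : ∀ F : ℚ_[p][X], (F.map φ).natDegree = F.natDegree := fun F =>
    natDegree_map_eq_of_injective hinj F
  rcases hPenH.classify ha j1 hj1 with ⟨c1, c2, c3, c4, c5⟩ | ⟨z0, c1, c2, c3, c4, c5, c6, α, β,
    c7, c8⟩
  · -- the special point is at infinity
    simp only [if_true] at c2 c3
    subst c2
    subst c3
    rw [hPd'] at c1
    rw [hP0, hPd'] at c4
    have hPhe := eq_C_of_natDegree_eq_zero c1
    obtain ⟨α, β, hαβ⟩ := exists_eq_X_add_C_of_natDegree_le_one c4.le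
    have hα : α ≠ 0 := by
      rintro rfl
      rw [hαβ, map_zero, zero_mul, zero_add, natDegree_C] at c4
      omega
    have hPj : ∀ j, P (some j) = C ((P (some j)).coeff 0) := by
      intro j
      have h1 := c5 j
      rw [hQ] at h1
      simp only at h1
      rw [hPd'] at h1
      exact eq_C_of_natDegree_eq_zero h1
    have hγ : Ph.coeff 0 ≠ 0 := by
      intro h1
      apply hPh
      rw [hPhe, h1, map_zero]
    have hmg : 1 ≤ mg := by
      have := hdG none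
      omega
    refine RA_inf hT0 (Ph.coeff 0) hγ (fun j => (P (some j)).coeff 0) ⟨j1, fun h1 => hj1 ?_⟩ a mh mg
      ha hmg hca a0 n0 hn0 ?_ α β hα _ ?_ ?_
    · rw [hQ]
      simp only
      rw [hPj j1, h1, map_zero, Polynomial.map_zero]
    · intro h1
      obtain ⟨e, rfl⟩ : ∃ e, mg = e + 1 := ⟨mg - 1, by omega⟩
      rw [Nat.add_sub_cancel] at h1
      have h2 : a0 + 0 + (mh + a * (e + 1)) = (a0 + (mh + a * e)) + a := by ring
      rw [h2, crit_add _ _ _ _ h1] at hcrit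
      exact hca hcrit
    · rw [← hPhe, ← hαβ]
    · intro j
      rw [map_mul, map_pow, ← hPhe, ← hPj j]
  · -- the special point is at a finite place
    -- rationality
    have hQ1 := c6 j1
    obtain ⟨l1, hl1⟩ := hQ1
    have hl10 : l1 ≠ 0 := by
      rintro rfl
      rw [map_zero, zero_mul] at hl1
      exact hj1 hl1
    have hcoe : ∀ (F : ℚ_[p][X]) (l : ℂ), F.map φ = C l * (X - C z0) ^ mg → l = φ (F.coeff mg) := by
      intro F l hF'
      have h1 := congrArg (fun Q : ℂ[X] => Q.coeff mg) hF'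
      simp only [coeff_map, coeff_C_mul] at h1
      rw [coeff_sub_pow, Nat.sub_self, pow_zero, one_mul, Nat.choose_self, Nat.cast_one,
        mul_one] at h1
      exact h1.symm
    obtain ⟨x0, hx0⟩ : ∃ x0 : ℚ_[p], φ x0 = z0 := by
      refine ⟨-((P (some j1)).coeff (mg - 1) / ((P (some j1)).coeff mg * mg)), ?_⟩
      have h1 := hcoe (P (some j1)) l1 hl1
      have h2 := congrArg (fun Q : ℂ[X] => Q.coeff (mg - 1)) hl1
      rw [hQ] at h2
      simp only [coeff_map, coeff_C_mul] at h2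
      have h3 : mg - (mg - 1) = 1 := by omega
      have h4 : mg.choose (mg - 1) = mg := by
        rw [Nat.choose_symm_of_eq_add (b := 1) (by omega), Nat.choose_one_right]
      rw [coeff_sub_pow, h3, pow_one, h4] at h2
      have hmgc : (mg : ℂ) ≠ 0 := Nat.cast_ne_zero.2 (by omega)
      rw [map_neg, map_div₀, map_mul, map_natCast, ← h1, h2]
      field_simp
    have hX : ((X - C x0 : ℚ_[p][X])).map φ = X - C z0 := by
      rw [Polynomial.map_sub, map_X, map_C, hx0]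
    have hPhe : Ph = C Ph.leadingCoeff * (X - C x0) ^ mh := by
      apply Polynomial.map_injective φ hinj
      rw [Polynomial.map_mul, Polynomial.map_pow, hX, map_C]
      rw [leadingCoeff_map] at c2
      exact c2
    have hPj : ∀ j, P (some j) = C ((P (some j)).coeff mg) * (X - C x0) ^ mg := by
      intro j
      obtain ⟨l, hl⟩ := c6 j
      have h1 := hcoe (P (some j)) l hl
      apply Polynomial.map_injective φ hinj
      rw [Polynomial.map_mul, Polynomial.map_pow, hX, map_C, ← h1]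
      exact hl
    obtain ⟨L, hL⟩ : (X - C x0) ^ (mg - 1) ∣ P none := by
      rw [← map_dvd_map φ hinj ((monic_X_sub_C x0).pow _), Polynomial.map_pow, hX]
      exact ⟨_, c7⟩
    have hLm : L.map φ = C α * X + C β := by
      apply mul_left_cancel₀ (pow_ne_zero (mg - 1) (X_sub_C_ne_zero z0))
      rw [← c7, hP0]
      conv_rhs => rw [hL]
      rw [Polynomial.map_mul, Polynomial.map_pow, hX]
    have hLd : L.natDegree ≤ 1 := by
      rw [← hPd', hLm]
      exact natDegree_linear_le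
    obtain ⟨α', β', hαβ⟩ := exists_eq_X_add_C_of_natDegree_le_one hLd
    have hα' : α' * x0 + β' ≠ 0 := by
      intro h1
      apply c8
      have h2 : (L.map φ).eval z0 = φ (L.eval x0) := by
        rw [← hx0, eval_map, eval₂_hom]
      have h3 : L.eval x0 = 0 := by
        rw [hαβ]
        simp only [eval_add, eval_mul, eval_C, eval_X]
        exact h1
      rw [h3, map_zero, hLm] at h2
      simpa using h2
    subst c3
    subst c4
    refine RA_fin hT0 Ph.leadingCoeff (leadingCoeff_ne_zero.2 hPh)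
      (fun j => (P (some j)).coeff mg) ⟨j1, fun h1 => hj1 ?_⟩ a mh mg ha c1 hca a1 n1 hn1 ?_ x0 α'
      β' hα' (fun hx => ?_) _ ?_ ?_
    · rw [hQ]
      simp only
      rw [hPj j1, h1, map_zero, zero_mul, Polynomial.map_zero]
    · intro h1
      obtain ⟨e, rfl⟩ : ∃ e, mg = e + 1 := ⟨mg - 1, by omega⟩
      rw [Nat.add_sub_cancel] at h1
      have h2 : 0 + a1 + (mh + a * (e + 1)) = (a1 + (mh + a * e)) + a := by ring
      rw [h2, add_comm 1 n1, crit_add _ _ _ _ h1] at hcrit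
      exact hca hcrit
    · have h1 := c5 (by
        rw [← hx0]
        exact fun h => hx ((map_eq_zero φ).1 h))
      simpa using h1
    · have h1 : Ph * P none ^ a = C Ph.leadingCoeff * (X - C x0) ^ mh *
          ((X - C x0) ^ (mg - 1) * (C α' * X + C β')) ^ a := by
        rw [← hPhe, ← hαβ, ← hL]
      rw [h1, mul_pow, pow_add, pow_mul']
      ring
    · intro j
      have h1 : Ph * P (some j) ^ a = C Ph.leadingCoeff * (X - C x0) ^ mh *
          (C ((P (some j)).coeff mg) * (X - C x0) ^ mg) ^ a := by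
        rw [← hPhe, ← hPj j]
      rw [h1, mul_pow, pow_add, pow_mul', map_mul, map_pow]
      ring

end Pool.Agent.N138.PA
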