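import Pool.Agent.N103.PointA

set_option autoImplicit false
set_option linter.unusedSectionVars false
set_option linter.unusedVariables false
set_option linter.unusedSimpArgs false

/-! # The invariants of the children -/

namespace Pool.Agent.N138.PA

open Pool.Agent.W574.SM Pool.Agent.N103

open Polynomial

variable {κ : Type} [Fintype κ] [DecidableEq κ]

variable {h : MP} {f : Option κ → MP} {a : ℕ} {c : κ → ℂ} {Pt : Fin 2 → ℂ}
variable {b : ℂ[X]} {H : MvPolynomial (Fin 2 ⊕ κ) ℂ} {s0 : ℂ}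

theorem invA_children (hb : HEq H (FF h f a) b) (hF : FF h f a ≠ 0)
    (hH : MvPolynomial.eval (Sum.elim Pt c) H ≠ 0) (ha : 1 ≤ a) (hs0 : b.eval s0 ≠ 0)
    {h' : MP} {g : Option κ → MP} {a0 n0 a1 n1 : ℕ} (mh mg : ℕ) (hm : 1 ≤ mh + a * mg)
    (hc : ℂ → MP) (gc : ℂ → Option κ → MP) (hI : MP) (gI : Option κ → MP)
    (hhc : ∀ z, MvPolynomial.aeval (chart z) h' = MvPolynomial.X 0 ^ mh * hc z)
    (hgc : ∀ z j, MvPolynomial.aeval (chart z) (g j) = MvPolynomial.X 0 ^ mg * gc z j)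
    (hhI : MvPolynomial.aeval chartI h' = MvPolynomial.X 1 ^ mh * hI)
    (hgI : ∀ j, MvPolynomial.aeval chartI (g j) = MvPolynomial.X 1 ^ mg * gI j)
    (hPh : res0 (hc 0) ≠ 0) (hPg' : ∃ j, res0 (gc 0 j) ≠ 0)
    (inv : InvA h f a c Pt s0 h' g a0 n0 a1 n1) :
    InvA h f a c Pt s0 (hc 0) (gc 0) (a0 + a1 + (mh + a * mg)) (n0 + n1) a1 n1 ∧
    (∀ z, z ≠ 0 → InvA h f a c Pt s0 (hc z) (gc z) (a0 + a1 + (mh + a * mg)) (n0 + n1) 0 1) ∧
    InvA h f a c Pt s0 hI gI a0 n0 (a0 + a1 + (mh + a * mg)) (n0 + n1) := by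
  classical
  obtain ⟨G⟩ := inv.geom
  have hn0 := inv.hn0
  have hn1 := inv.hn1
  have hmultH : IsMult (fun _ : Unit => h') mh := ⟨⟨fun _ => hc 0, fun _ => hhc 0⟩,
    ⟨fun _ => hI, fun _ => hhI⟩⟩
  have hmultG : IsMult g mg := ⟨⟨gc 0, hgc 0⟩, ⟨gI, hgI⟩⟩
  have hJ1 := inv.hJ1 mh mg hmultH hmultG
  -- the restrictions to the new curve
  have hhz : ∀ z, res0 (hc z) = (res0 (hc 0)).comp (X + C z) := fun z =>
    res0_chart h' (hc 0) (hc z) mh z (hhc 0) (hhc z)
  have hgz : ∀ z j, res0 (gc z j) = (res0 (gc 0 j)).comp (X + C z) := fun z j =>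
    res0_chart (g j) (gc 0 j) (gc z j) mg z (hgc 0 j) (hgc z j)
  have hcc : ∀ (z : ℂ) (x y : MP), res0 x = (res0 y).comp (X + C z) →
      (res0 y).eval z = MvPolynomial.constantCoeff x := by
    intro z x y hxy
    rw [← coeff_res0, hxy, coeff_zero_eq_eval_zero, eval_comp]
    simp
  -- the type
  obtain ⟨t, j0, hPg, hjt⟩ : ∃ (t : Bool) (j0 : Option κ), res0 (gc 0 j0) ≠ 0 ∧
      (if t then res0 (gc 0 none) = 0 ∧ (∃ j, j0 = some j) else j0 = none) := by
    by_cases h0 : res0 (gc 0 none) = 0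
    · obtain ⟨j, hj⟩ := hPg'
      refine ⟨true, j, hj, ?_⟩
      simp only [if_true]
      rcases j with _ | j
      · exact absurd h0 hj
      · exact ⟨h0, j, rfl⟩
    · exact ⟨false, none, h0, by simp⟩
  set S : Finset ℂ := insert 0 ((res0 (hc 0)).roots.toFinset ∪ (res0 (gc 0 j0)).roots.toFinset)
    with hSd
  have h0S : (0 : ℂ) ∈ S := Finset.mem_insert_self _ _
  have hS : ∀ z ∉ S, MvPolynomial.constantCoeff (hc z) ≠ 0 ∧ HasType (gc z) t := by
    intro z hz
    rw [hSd, Finset.mem_insert, Finset.mem_union, Multiset.mem_toFinset, Multiset.mem_toFinset,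
      mem_roots hPh, mem_roots hPg] at hz
    push Not at hz
    obtain ⟨_, hz1, hz2⟩ := hz
    refine ⟨?_, ?_⟩
    · rw [← hcc z _ _ (hhz z)]
      exact hz1
    · rcases t with _ | _
      · simp only [Bool.false_eq_true, if_false] at hjt
        subst hjt
        show MvPolynomial.constantCoeff (gc z none) ≠ 0
        rw [← hcc z _ _ (hgz z none)]
        exact hz2
      · simp only [if_true] at hjt
        obtain ⟨h1, j, rfl⟩ := hjt
        show MvPolynomial.constantCoeff (gc z none) = 0 ∧ ∃ j,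
          MvPolynomial.constantCoeff (gc z (some j)) ≠ 0
        refine ⟨?_, j, ?_⟩
        · rw [← hcc z _ _ (hgz z none), h1, eval_zero]
        · rw [← hcc z _ _ (hgz z (some j))]
          exact hz2
  obtain ⟨z1, hz1S⟩ := Infinite.exists_notMem_finset S
  have hz1ne : z1 ≠ 0 := fun h => hz1S (h ▸ h0S)
  obtain ⟨hu1, ht1⟩ := hS z1 hz1S
  have hdegH := coeff_resI h' (hc 0) hI mh (hhc 0) hhI
  have hdegG := fun j => coeff_resI (g j) (gc 0 j) (gI j) mg (hgc 0 j) (hgI j)
  have hcomp : ∀ (x y : MP) (m : ℕ) (z : ℂ), res0 y ≠ 0 → (res0 y).natDegree ≤ m →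
      res0 x = (res0 y).comp (X + C z) → res0 x ≠ 0 ∧ (res0 x).natDegree ≤ m := by
    intro x y m z hy hd hxy
    have h1 : (X + C z : ℂ[X]).natDegree = 1 := natDegree_X_add_C z
    constructor
    · intro h
      have h2 := ord_comp (res0 y) hy z
      rw [hxy] at h
      rw [h, coeff_zero] at h2
      exact h2.2 rfl
    · rw [hxy, natDegree_comp, h1, mul_one]
      exact hd
  have hcompI : ∀ (x y : MP) (m : ℕ), res0 y ≠ 0 → (res0 y).natDegree ≤ m →
      (∀ k ≤ m, (res1 x).coeff k = (res0 y).coeff (m - k)) → res1 x ≠ 0 := by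
    intro x y m hy hd hxy h
    have h2 := hxy (m - (res0 y).natDegree) (by omega)
    rw [h, coeff_zero] at h2
    have h3 : m - (m - (res0 y).natDegree) = (res0 y).natDegree := by omega
    rw [h3] at h2
    exact hy (leadingCoeff_eq_zero.1 h2.symm)
  have hPHI : res1 hI ≠ 0 := hcompI hI (hc 0) mh hPh hdegH.1 hdegH.2.2
  have hPGI : res1 (gI j0) ≠ 0 := hcompI (gI j0) (gc 0 j0) mg hPg (hdegG j0).1 (hdegG j0).2.2
  -- the multiplicities of the transforms
  have hmc : ∀ z mh' mg', IsMult (fun _ : Unit => hc z) mh' → IsMult (gc z) mg' →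
      mh' + a * mg' ≤ mh + a * mg := by
    intro z mh' mg' hm1 hm2
    obtain ⟨g1, hg1⟩ := hm1.2
    obtain ⟨g2, hg2⟩ := hm2.2
    have e1 := hcomp (hc z) (hc 0) mh z hPh hdegH.1 (hhz z)
    have e2 := hcomp (gc z j0) (gc 0 j0) mg z hPg (hdegG j0).1 (hgz z j0)
    have l1 := le_of_dvd e1.1 e1.2 (res0_of_chartI (hg1 ()))
    have l2 := le_of_dvd e2.1 e2.2 (res0_of_chartI (hg2 j0))
    exact Nat.add_le_add l1 (Nat.mul_le_mul_left _ l2)
  have hmI : ∀ mh' mg', IsMult (fun _ : Unit => hI) mh' → IsMult gI mg' →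
      mh' + a * mg' ≤ mh + a * mg := by
    intro mh' mg' hm1 hm2
    obtain ⟨g1, hg1⟩ := hm1.1
    obtain ⟨g2, hg2⟩ := hm2.1
    have l1 := le_of_dvd hPHI hdegH.2.1 (res1_of_chart0 (hg1 ()))
    have l2 := le_of_dvd hPGI (hdegG j0).2.1 (res1_of_chart0 (hg2 j0))
    exact Nat.add_le_add l1 (Nat.mul_le_mul_left _ l2)
  have hresI : ∀ (t : Bool) (j : Option κ), res0 (fam t a h' g j)
      = X ^ (mh + a * mg) * res0 (fam t a hI gI j) := fun t j =>
    res0_of_chartI (fam_chart t a mh mg (MvPolynomial.aeval chartI) (MvPolynomial.X 1) h' hI g gI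
      hhI hgI j)
  have hres0 : ∀ (t : Bool) (j : Option κ), res1 (fam t a h' g j)
      = X ^ (mh + a * mg) * res1 (fam t a (hc 0) (gc 0) j) := fun t j =>
    res1_of_chart0 (fam_chart t a mh mg (MvPolynomial.aeval (chart 0)) (MvPolynomial.X 0) h'
      (hc 0) g (gc 0) (hhc 0) (hgc 0) j)
  -- the types
  have hXne : ∀ k : ℕ, (X : ℂ[X]) ^ k ≠ 0 := fun k => pow_ne_zero _ X_ne_zero
  have t0I : t0 gI = t0 g := by
    have e := res0_of_chartI (hgI none)
    rcases hb1 : t0 g with _ | _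
    · rw [t0_false] at hb1 ⊢
      intro h1
      rw [h1, mul_zero] at e
      exact hb1 e
    · rw [t0_true] at hb1 ⊢
      rw [hb1] at e
      exact (mul_eq_zero.1 e.symm).resolve_left (hXne _)
  have t10 : t1 (gc 0) = t1 g := by
    have e := res1_of_chart0 (hgc 0 none)
    rcases hb1 : t1 g with _ | _
    · rw [t1_false] at hb1 ⊢
      intro h1
      rw [h1, mul_zero] at e
      exact hb1 e
    · rw [t1_true] at hb1 ⊢
      rw [hb1] at e
      exact (mul_eq_zero.1 e.symm).resolve_left (hXne _)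
  have tgen : if t then res0 (gc 0 none) = 0 else res0 (gc 0 none) ≠ 0 := by
    rcases t with _ | _
    · simp only [Bool.false_eq_true, if_false] at hjt ⊢
      rwa [hjt] at hPg
    · simp only [if_true] at hjt ⊢
      exact hjt.1
  have t0z : ∀ z, t0 (gc z) = t := by
    intro z
    rcases t with _ | _
    · simp only [Bool.false_eq_true, if_false] at tgen
      rw [t0_false]
      exact (hcomp (gc z none) (gc 0 none) mg z tgen (hdegG none).1 (hgz z none)).1
    · simp only [if_true] at tgen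
      rw [t0_true, hgz, tgen, zero_comp]
  have t1I : t1 gI = t := by
    rcases t with _ | _
    · simp only [Bool.false_eq_true, if_false] at tgen
      rw [t1_false]
      exact hcompI (gI none) (gc 0 none) mg tgen (hdegG none).1 (hdegG none).2.2
    · simp only [if_true] at tgen
      rw [t1_true]
      ext k
      rw [coeff_zero]
      by_cases hk : k ≤ mg
      · rw [(hdegG none).2.2 k hk, tgen, coeff_zero]
      · exact coeff_eq_zero_of_natDegree_lt (by have := (hdegG none).2.1; omega)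
  have htype : t = true → (1 : ℂ) + a * s0 ≠ 0 :=
    type_ne hb hF hH ha hs0 (G.child hn0 hn1 mh mg z1 hz1ne (hc z1) (gc z1) (hhc z1) (hgc z1)) 1
      one_ne_zero (fun h => hu1 (by rw [h, map_zero])) (gc z1) (fun j => (one_mul _).symm) ht1
  -- the analysis of the new exceptional curve
  have han := fun hA => blowA hb hF hH ha G hn0 hn1 mh mg hm hc gc hI gI hhc hgc hhI hgI S h0S t
    hS hJ1 inv.hJ2 inv.hJ2' inv.hz0 inv.hz1 s0 hs0 hA
  set m := mh + a * mg with hmd
  have haz : a0 + a1 + m = 0 → n0 + n1 = 1 := by omega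
  -- the invariants of the children
  have inv0 : InvA h f a c Pt s0 (hc 0) (gc 0) (a0 + a1 + m) (n0 + n1) a1 n1 :=
    { geom := ⟨G.child0 hn0 hn1 mh mg (hc 0) (gc 0) (hhc 0) (hgc 0)⟩
      hn0 := by omega
      hn1 := hn1
      hz0 := haz
      hz1 := inv.hz1
      hJ1 := fun mh' mg' h1 h2 => ⟨arith3 a0 n0 a1 n1 m _ hn0 hn1 (hmc 0 mh' mg' h1 h2) hJ1.1
        hJ1.2, (Nat.mul_le_mul_left _ (hmc 0 mh' mg' h1 h2)).trans hJ1.2⟩
      hJ2 := fun _ => arith1 a0 n0 a1 n1 m hn0 hn1 hm inv.hz0 inv.hJ2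
      hJ2' := fun ha1 => arith2 a0 n0 a1 n1 m hn0 hn1 ha1 hJ1.2 inv.hJ2'
      hH0 := by
        intro hA μ' hμ'
        obtain ⟨μ, μI, hμ, hμI, h2, h3, h4, h5⟩ := han hA
        rw [t0z] at hμ'
        rwa [← (hμ 0).unique hμ']
      hH1 := by
        intro hA1 μ' hμ'
        rw [t10] at hμ'
        have h2 := inv.hH1 hA1 (m + μ') (hμ'.shift (hres0 _))
        intro h3
        apply h2
        push_cast at h3 ⊢
        linear_combination h3 - hA1
      hT0 := fun _ h1 => htype (by rw [← h1, t0z])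
      hT1 := fun hA1 h1 => inv.hT1 hA1 (by rw [← h1, t10]) }
  have invc : ∀ z, z ≠ 0 → InvA h f a c Pt s0 (hc z) (gc z) (a0 + a1 + m) (n0 + n1) 0 1 :=
    fun z hz0 =>
    { geom := ⟨G.child hn0 hn1 mh mg z hz0 (hc z) (gc z) (hhc z) (hgc z)⟩
      hn0 := by omega
      hn1 := le_rfl
      hz0 := haz
      hz1 := fun _ => rfl
      hJ1 := fun mh' mg' h1 h2 => ⟨arith3 a0 n0 a1 n1 m _ hn0 hn1 (hmc z mh' mg' h1 h2) hJ1.1
        hJ1.2, by simp⟩
      hJ2 := fun h => by rw [mul_zero, mul_one]; exact h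
      hJ2' := fun h => absurd h (lt_irrefl 0)
      hH0 := by
        intro hA μ' hμ'
        obtain ⟨μ, μI, hμ, hμI, h2, h3, h4, h5⟩ := han hA
        have h6 := h4 z hz0
        rw [t0z] at hμ'
        rw [(hμ z).unique hμ'] at h6
        rw [zero_add]
        push_cast
        exact h6
      hH1 := by
        intro hA1
        simp at hA1
      hT0 := fun _ h1 => htype (by rw [← h1, t0z])
      hT1 := by
        intro hA1
        simp at hA1 }
  have invI : InvA h f a c Pt s0 hI gI a0 n0 (a0 + a1 + m) (n0 + n1) :=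
    { geom := ⟨G.childI hn0 hn1 mh mg hI gI hhI hgI⟩
      hn0 := hn0
      hn1 := by omega
      hz0 := inv.hz0
      hz1 := haz
      hJ1 := fun mh' mg' h1 h2 => ⟨(Nat.mul_le_mul_left _ (hmI mh' mg' h1 h2)).trans hJ1.1,
        arith3 a0 n0 a1 n1 m _ hn0 hn1 (hmI mh' mg' h1 h2) hJ1.1 hJ1.2⟩
      hJ2 := fun ha0 => by
        have := arith2 a1 n1 a0 n0 m hn1 hn0 ha0 hJ1.1 inv.hJ2
        rwa [add_comm a1 a0, add_comm n1 n0] at this
      hJ2' := fun _ => by
        have := arith1 a1 n1 a0 n0 m hn1 hn0 hm inv.hz1 inv.hJ2'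
        rwa [add_comm a1 a0, add_comm n1 n0] at this
      hH0 := by
        intro hA0 μ' hμ'
        rw [t0I] at hμ'
        have h2 := inv.hH0 hA0 (m + μ') (hμ'.shift (hresI _))
        intro h3
        apply h2
        push_cast at h3 ⊢
        linear_combination h3 - hA0
      hH1 := by
        intro hA μ' hμ'
        obtain ⟨μ, μI, hμ, hμI, h2, h3, h4, h5⟩ := han hA
        rw [t1I] at hμ'
        rwa [← hμI.unique hμ']
      hT0 := fun hA0 h1 => inv.hT0 hA0 (by rw [← h1, t0I])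
      hT1 := fun _ h1 => htype (by rw [← h1, t1I]) }
  exact ⟨inv0, invc, invI⟩

end Pool.Agent.N138.PA
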