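import Pool.Agent.N138.PA.Split

set_option autoImplicit false
set_option linter.unusedSectionVars false
set_option linter.unusedVariables false
set_option linter.unusedSimpArgs false

/-! # The nodes over the `p`-adic numbers and over the complex numbers -/

namespace Pool.Agent.N138.PA

open Pool.Agent.W574.SM Pool.Agent.Y230.RE Pool.Agent.Y230.PL
open Pool.Agent.Y230.PT hiding sw cc_sw pderiv_sw
open Pool.Agent.N103 (InvA GeomD fc FF fam t0 t1 OrdP Ord_sw' curve_rootA)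
open Polynomial

variable {κ : Type} [Fintype κ] [DecidableEq κ]

section Blow

variable {k : Type} [Field k] [CharZero k] (φ : k →+* ℂ)

/-- the transforms of `h` over the complex numbers -/
noncomputable def hz (h0 : A k) (z : ℂ) : MP := gcC φ (fun _ : Unit => h0) z ()

/-- the transforms of the `g_j` over the complex numbers -/
noncomputable def gz (c : κ → ℂ) (g0 : Option κ → A k) (z : ℂ) : Option κ → MP :=
  fc c fun j => gcC φ g0 z j

theorem hz_eq {h' h0 : A k} {mh : ℕ}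
    (h : MvPolynomial.aeval (ch 0) h' = MvPolynomial.X 0 ^ mh * h0) (z : ℂ) :
    MvPolynomial.aeval (chart z) (mp φ h') = MvPolynomial.X 0 ^ mh * hz φ h0 z :=
  gcC_eq φ (g := fun _ : Unit => h') (g0 := fun _ => h0) (fun _ => h) z ()

theorem gz_eq (c : κ → ℂ) {g g0 : Option κ → A k} {mg : ℕ}
    (h : ∀ j, MvPolynomial.aeval (ch 0) (g j) = MvPolynomial.X 0 ^ mg * g0 j) (z : ℂ)
    (j : Option κ) : MvPolynomial.aeval (chart z) (fc c (fun j => mp φ (g j)) j) =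
      MvPolynomial.X 0 ^ mg * gz φ c g0 z j := by
  rw [fc_map, gz, ← fc_mul]
  congr 1
  funext i
  exact gcC_eq φ h z i

theorem hI_eq {h' hI : A k} {mh : ℕ}
    (h : MvPolynomial.aeval chI h' = MvPolynomial.X 1 ^ mh * hI) :
    MvPolynomial.aeval chartI (mp φ h') = MvPolynomial.X 1 ^ mh * mp φ hI :=
  chI_mp φ (g := fun _ : Unit => h') (gI := fun _ => hI) (fun _ => h) ()

theorem gI_eq (c : κ → ℂ) {g gI : Option κ → A k} {mg : ℕ}
    (h : ∀ j, MvPolynomial.aeval chI (g j) = MvPolynomial.X 1 ^ mg * gI j)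
    (j : Option κ) : MvPolynomial.aeval chartI (fc c (fun j => mp φ (g j)) j) =
      MvPolynomial.X 1 ^ mg * fc c (fun j => mp φ (gI j)) j := by
  rw [fc_map, ← fc_mul]
  congr 1
  funext i
  exact chI_mp φ h i

theorem hz_k {h' : A k} {hc : k → A k} {mh : ℕ}
    (h : ∀ c, MvPolynomial.aeval (ch c) h' = MvPolynomial.X 0 ^ mh * hc c) (x : k) :
    hz φ (hc 0) (φ x) = mp φ (hc x) :=
  gcC_k φ (g := fun _ : Unit => h') (gc := fun c _ => hc c) (fun c _ => h c) x ()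

theorem gz_k (c : κ → ℂ) {g : Option κ → A k} {gc : k → Option κ → A k} {mg : ℕ}
    (h : ∀ c j, MvPolynomial.aeval (ch c) (g j) = MvPolynomial.X 0 ^ mg * gc c j) (x : k) :
    gz φ c (gc 0) (φ x) = fc c fun j => mp φ (gc x j) := by
  rw [gz]
  congr 1
  funext j
  exact gcC_k φ h x j

theorem res0_hz0 {h' : A k} {hc : k → A k} {mh : ℕ}
    (h : ∀ c, MvPolynomial.aeval (ch c) h' = MvPolynomial.X 0 ^ mh * hc c) :
    res0 (hz φ (hc 0) 0) = (r0 (hc 0)).map φ := by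
  have h1 := hz_k φ h 0
  rw [map_zero] at h1
  rw [h1, ← mp_r0]

theorem gz0 (c : κ → ℂ) {g : Option κ → A k} {gc : k → Option κ → A k} {mg : ℕ}
    (h : ∀ c j, MvPolynomial.aeval (ch c) (g j) = MvPolynomial.X 0 ^ mg * gc c j) :
    gz φ c (gc 0) 0 = fc c fun j => mp φ (gc 0 j) := by
  have h1 := gz_k φ c h 0
  rwa [map_zero] at h1

theorem res0_fc_mp (c : κ → ℂ) (g : Option κ → A k) :
    res0 (fc c (fun j => mp φ (g j)) none) = (r0 (g none)).map φ +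
      ∑ j, C (c j) * (r0 (g (some j))).map φ := by
  rw [res0_fc, ← mp_r0]
  congr 1
  refine Finset.sum_congr rfl fun j _ => ?_
  rw [← mp_r0]

theorem fc_ne (c : κ → ℂ) (g : Option κ → A k) (hne : ∃ j, r0 (g j) ≠ 0) :
    ∃ j, res0 (fc c (fun j => mp φ (g j)) j) ≠ 0 := by
  by_cases hs : ∃ j, r0 (g (some j)) ≠ 0
  · obtain ⟨j, hj⟩ := hs
    refine ⟨some j, ?_⟩
    change res0 (mp φ (g (some j))) ≠ 0
    rw [← mp_r0, Ne, Polynomial.map_eq_zero]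
    exact hj
  · push Not at hs
    obtain ⟨j, hj⟩ := hne
    rcases j with _ | j
    · refine ⟨none, ?_⟩
      rw [res0_fc_mp]
      have h1 : ∑ j, C (c j) * (r0 (g (some j))).map φ = 0 :=
        Finset.sum_eq_zero fun j _ => by rw [hs j, Polynomial.map_zero, mul_zero]
      rw [h1, add_zero, Ne, Polynomial.map_eq_zero]
      exact hj
    · exact absurd (hs j) hj

end Blow

variable {p : ℕ} [Fact p.Prime]

/-- the nodes -/
def CxP (φ : ℚ_[p] →+* ℂ) (h : MP) (f : Option κ → MP) (a : ℕ) (Pt : Fin 2 → ℂ) (r : ℂ)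
    (G : Option κ → A ℚ_[p]) (d0 d1 : Bool) (a0 n0 a1 n1 : ℕ) : Prop :=
  TC G d0 d1 a0 n0 a1 n1 ∧ ∃ (h' : A ℚ_[p]) (g : Option κ → A ℚ_[p]), (∀ j, G j = h' * g j ^ a) ∧
    ∀ c : κ → ℂ, InvA h f a c Pt r (mp φ h') (fc c fun j => mp φ (g j)) a0 n0 a1 n1

variable {φ : ℚ_[p] →+* ℂ} {h : MP} {f : Option κ → MP} {a : ℕ} {Pt : Fin 2 → ℂ} {r : ℂ}
  {b : ℂ[X]}

theorem closed_CxP (hb : Pool.Agent.N103.HEq 1 (FF h f a) b) (hF : FF h f a ≠ 0) (ha : 1 ≤ a)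
    (hr : b.eval r ≠ 0) : Closed (CxP φ h f a Pt r) where
  pos _ _ _ _ _ _ _ h := ⟨h.1.1, h.1.2.1⟩
  ty0 _ _ _ _ _ _ h := h.1.2.2.1 rfl
  ty1 _ _ _ _ _ _ h := h.1.2.2.2 rfl
  child G d0 d1 a0 n0 a1 n1 m Gc GI hm hGc hGI hne hC := by
    obtain ⟨hT, h', g, hG, hinv⟩ := hC
    obtain ⟨t0, tc, tI⟩ := closed_TC.child G d0 d1 a0 n0 a1 n1 m Gc GI hm hGc hGI hne hT
    obtain ⟨mh, mg, hc, gc, hI, gI, rfl, hhc, hgc, hhI, hgI, e1, e2, hPh, hPg⟩ :=
      split a ha hGc hGI hne hG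
    have key : ∀ c : κ → ℂ,
        InvA h f a c Pt r (hz φ (hc 0) 0) (gz φ c (gc 0) 0) (a0 + a1 + (mh + a * mg)) (n0 + n1)
          a1 n1 ∧
        (∀ z, z ≠ 0 → InvA h f a c Pt r (hz φ (hc 0) z) (gz φ c (gc 0) z)
          (a0 + a1 + (mh + a * mg)) (n0 + n1) 0 1) ∧
        InvA h f a c Pt r (mp φ hI) (fc c fun j => mp φ (gI j)) a0 n0
          (a0 + a1 + (mh + a * mg)) (n0 + n1) := by
      intro c
      refine invA_children hb hF (by rw [map_one]; exact one_ne_zero) ha hr mh mg hm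
        (fun z => hz φ (hc 0) z) (fun z => gz φ c (gc 0) z) (mp φ hI) (fc c fun j => mp φ (gI j))
        (fun z => hz_eq φ (hhc 0) z) (fun z j => gz_eq φ c (hgc 0) z j) (hI_eq φ hhI)
        (gI_eq φ c hgI) ?_ ?_ (hinv c)
      · rw [res0_hz0 φ hhc, Ne, Polynomial.map_eq_zero]
        exact hPh
      · rw [gz0 φ c hgc]
        exact fc_ne φ c (gc 0) hPg
    refine ⟨⟨t0, hc 0, gc 0, fun j => e1 0 j, fun c => ?_⟩,
      fun x hx => ⟨tc x hx, hc x, gc x, fun j => e1 x j, fun c => ?_⟩,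
      ⟨tI, hI, gI, e2, fun c => (key c).2.2⟩⟩
    · have h1 := (key c).1
      rw [gz0 φ c hgc] at h1
      have h2 := hz_k φ hhc 0
      rw [map_zero] at h2
      rwa [h2] at h1
    · have h1 := (key c).2.1 (φ x) (fun h => hx ((map_eq_zero φ).1 h))
      rw [gz_k φ c hgc, hz_k φ hhc] at h1
      exact h1

theorem CxP.ord0 (ha : 1 ≤ a) {G : Option κ → A ℚ_[p]} {d0 d1 : Bool} {a0 n0 a1 n1 : ℕ}
    (hC : CxP φ h f a Pt r G d0 d1 a0 n0 a1 n1) (hA : (n0 : ℂ) + a0 * r = 0) (ρ : ℕ)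
    (hρ : IsO (fun j => r0 (G j)) ρ) : (n1 : ℂ) + r * ((a1 + ρ : ℕ) : ℂ) ≠ 0 := by
  obtain ⟨_, h', g, hG, hinv⟩ := hC
  have h1 : Ord0 (fun j => mp φ h' * mp φ (g j) ^ a) ρ := by
    have h2 := ord0_mp φ hρ
    have h3 : (fun j => mp φ (G j)) = fun j => mp φ h' * mp φ (g j) ^ a := by
      funext j
      rw [hG, mp_mul, mp_pow]
    rwa [h3] at h2
  obtain ⟨c, hc1, hc2⟩ := ord_c (mp φ h') (fun j => mp φ (g j)) a ha ρ h1
  exact (hinv c).hH0 hA ρ (by rw [hc1]; exact hc2)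

theorem sw_fc (c : κ → ℂ) (g : Option κ → MP) :
    (fun j => sw (fc c g j)) = fc c fun j => sw (g j) := by
  funext j
  exact fc_map sw c g j

theorem CxP.ord1 (ha : 1 ≤ a) {G : Option κ → A ℚ_[p]} {d0 d1 : Bool} {a0 n0 a1 n1 : ℕ}
    (hC : CxP φ h f a Pt r G d0 d1 a0 n0 a1 n1) (hA : (n1 : ℂ) + a1 * r = 0) (ρ : ℕ)
    (hρ : IsO (fun j => r1 (G j)) ρ) : (n0 : ℂ) + r * ((a0 + ρ : ℕ) : ℂ) ≠ 0 := by
  obtain ⟨_, h', g, hG, hinv⟩ := hC
  have h1 : Ord0 (fun j => sw (mp φ h') * sw (mp φ (g j)) ^ a) ρ := by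
    have h2 := ord1_mp φ hρ
    have h3 : ∀ j, res0 (sw (mp φ h') * sw (mp φ (g j)) ^ a) = res1 (mp φ (G j)) := by
      intro j
      rw [← map_pow, ← map_mul, Pool.Agent.N103.res0_sw, hG, mp_mul, mp_pow]
    refine ⟨fun j i hi => ?_, ?_⟩
    · rw [h3]
      exact h2.1 j i hi
    · obtain ⟨j, hj⟩ := h2.2
      exact ⟨j, by rw [h3]; exact hj⟩
  obtain ⟨c, hc1, hc2⟩ := ord_c (sw (mp φ h')) (fun j => sw (mp φ (g j))) a ha ρ h1
  rw [← sw_fc, Pool.Agent.N103.t0_sw] at hc1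
  rw [← sw_fc] at hc2
  exact (hinv c).hH1 hA ρ (by rw [hc1]; exact Ord_sw' hc2)

theorem CxP.curveV (hb : Pool.Agent.N103.HEq 1 (FF h f a) b) (hF : FF h f a ≠ 0) (ha : 1 ≤ a)
    {G : Option κ → A ℚ_[p]} {d0 d1 : Bool} {a0 n0 m : ℕ} (hm : 1 ≤ m)
    (hC : CxP φ h f a Pt r G d0 d1 a0 n0 0 1) (q : A ℚ_[p]) (K : Option κ → A ℚ_[p])
    (hG' : ∀ j, G j = q ^ m * K j) (h0 : MvPolynomial.constantCoeff q = 0)
    (h1 : MvPolynomial.constantCoeff (MvPolynomial.pderiv 1 q) ≠ 0) (j : Option κ)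
    (hj : MvPolynomial.constantCoeff (K j) ≠ 0) : b.eval (-1 / (m : ℂ)) = 0 := by
  obtain ⟨_, h', g, hG, hinv⟩ := hC
  obtain ⟨q0, kh, mh, mg, kg, rfl, hh, hg, e0, e1, e2, e3⟩ := factor_curve a ha h' g m q K
    (fun j => by rw [← hG, hG']) h0 1 h1 j hj
  obtain ⟨GD⟩ := (hinv 0).geom
  refine curve_rootA hb hF (by rw [map_one]; exact one_ne_zero) GD mh mg hm (mp φ q0) (mp φ kh)
    (fun j => mp φ (kg j)) (by rw [hh, mp_mul, mp_pow]) (fun j => ?_) (by rw [mp_cc, e0, map_zero])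
    (by
      rw [mp_pderiv, mp_cc]
      exact fun h => e1 ((map_eq_zero φ).1 h)) (by
      rw [mp_cc]
      exact fun h => e2 ((map_eq_zero φ).1 h)) j (by
      rw [mp_cc]
      exact fun h => e3 ((map_eq_zero φ).1 h))
  rw [fc_zero]
  rw [hg, mp_mul, mp_pow]

theorem CxP.curveU (hb : Pool.Agent.N103.HEq 1 (FF h f a) b) (hF : FF h f a ≠ 0) (ha : 1 ≤ a)
    {G : Option κ → A ℚ_[p]} {d0 d1 : Bool} {a1 n1 m : ℕ} (hm : 1 ≤ m)
    (hC : CxP φ h f a Pt r G d0 d1 0 1 a1 n1) (q : A ℚ_[p]) (K : Option κ → A ℚ_[p])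
    (hG' : ∀ j, G j = q ^ m * K j) (h0 : MvPolynomial.constantCoeff q = 0)
    (h1 : MvPolynomial.constantCoeff (MvPolynomial.pderiv 0 q) ≠ 0) (j : Option κ)
    (hj : MvPolynomial.constantCoeff (K j) ≠ 0) : b.eval (-1 / (m : ℂ)) = 0 := by
  obtain ⟨_, h', g, hG, hinv⟩ := hC
  obtain ⟨q0, kh, mh, mg, kg, rfl, hh, hg, e0, e1, e2, e3⟩ := factor_curve a ha h' g m q K
    (fun j => by rw [← hG, hG']) h0 0 h1 j hj
  obtain ⟨GD⟩ := (hinv 0).geom
  refine curve_rootA hb hF (by rw [map_one]; exact one_ne_zero) GD.swap mh mg hm (sw (mp φ q0))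
    (sw (mp φ kh)) (fun j => sw (mp φ (kg j))) (by rw [hh, mp_mul, mp_pow, map_mul, map_pow])
    (fun j => ?_) (by rw [cc_sw, mp_cc, e0, map_zero])
    (by
      rw [(pderiv_sw _).2, cc_sw, mp_pderiv, mp_cc]
      exact fun h => e1 ((map_eq_zero φ).1 h)) (by
      rw [cc_sw, mp_cc]
      exact fun h => e2 ((map_eq_zero φ).1 h)) j (by
      rw [cc_sw, mp_cc]
      exact fun h => e3 ((map_eq_zero φ).1 h))
  rw [fc_zero]
  rw [hg, mp_mul, mp_pow, map_mul, map_pow]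

end Pool.Agent.N138.PA
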