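import Pool.Agent.N138.PA.Loc

set_option autoImplicit false
set_option linter.unusedSectionVars false
set_option linter.unusedVariables false
set_option linter.unusedSimpArgs false

/-! # From the points to the unit ball -/

namespace Pool.Agent.N138.PA

open MeasureTheory Set Pool.Agent.W427.SMC Pool.Agent.Y230.RE
open Pool.Agent.Y230.PT hiding sw cc_sw pderiv_sw
open scoped ENNReal
open Pool.Agent.N103 (FF)

variable {p : ℕ} [Fact p.Prime]

attribute [local instance] msK bsK msZ bsZ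

section Gen

variable {ι : Type} [Fintype ι] {T0 : ℂ} {M : ℕ}

/-- the integrand is admissible -/
theorem ok_Hm0 {μ : (ι → ℚ_[p]) → ℝ → ℝ≥0∞}
    (hμ : ∀ f : ι → (ℚ_[p] × ℚ_[p]) → ℚ_[p], (∀ j, Continuous (f j)) →
      Ok (fun s x => μ (fun j => f j x) s)) (g : ι → A ℚ_[p]) (a0 n0 a1 n1 : ℕ) :
    Ok (Hm μ g a0 n0 a1 n1) :=
  (hμ (fun j x => ev x (g j)) (fun j => ev_cont (g j))).mul
    ((ok_w (fun x => x.1) continuous_fst a0 n0).mul (ok_w (fun x => x.2) continuous_snd a1 n1))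

theorem Hm_nd (μ : (ι → ℚ_[p]) → ℝ → ℝ≥0∞) (f : ι → A ℚ_[p]) (P : ℚ_[p] × ℚ_[p]) (s : ℝ)
    (x : ℚ_[p] × ℚ_[p]) :
    Hm μ f 0 1 0 1 s (P.1 + x.1, P.2 + x.2) = Hm μ (nd f ![P.1, P.2]) 0 1 0 1 s x := by
  unfold Hm
  rw [w01, w01, w01, w01]
  congr 2
  funext j
  unfold nd
  rw [ev_aeval]
  simp only [Matrix.cons_val_zero, Matrix.cons_val_one]
  rw [map_add, map_add, ev_X0, ev_X1, ev_C, ev_C, add_comm x.1, add_comm x.2]

theorem lreg_ptm {μ : (ι → ℚ_[p]) → ℝ → ℝ≥0∞}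
    (hμ : ∀ f : ι → (ℚ_[p] × ℚ_[p]) → ℚ_[p], (∀ j, Continuous (f j)) →
      Ok (fun s x => μ (fun j => f j x) s)) (f : ι → A ℚ_[p]) (P : ℚ_[p] × ℚ_[p])
    (h : LReg T0 M (Zc (Hm μ (nd f ![P.1, P.2]) 0 1 0 1)) (0, 0)) :
    LReg T0 M (Zc (Hm μ f 0 1 0 1)) P := by
  have h1 : LReg T0 M (Zc (fun s x => N p 1 1 * (fun s (x : ℚ_[p] × ℚ_[p]) =>
      Hm μ f 0 1 0 1 s (x.1, P.2 + x.2)) s ((fun _ => P.1) x.2 + 1 * x.1, x.2))) (0, 0) := by
    refine h.congr isOpen_univ trivial fun C _ _ s _ => ?_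
    unfold Zc
    congr 3
    funext x
    have h2 := Hm_nd μ f P s x
    simp only [N_one, one_mul]
    exact h2.symm
  have hok : Ok (fun s (x : ℚ_[p] × ℚ_[p]) => Hm μ f 0 1 0 1 s (x.1, P.2 + x.2)) :=
    (ok_Hm0 hμ f 0 1 0 1).comp (fun x => (x.1, P.2 + x.2)) (by fun_prop)
  have h2 := lreg_shU hok 1 one_ne_zero (fun _ => P.1) continuous_const h1
  have h3 : ((fun _ : ℚ_[p] => P.1) (0 : ℚ_[p]) + 1 * 0, (0 : ℚ_[p])) = (P.1, 0) := by simp
  simp only [mul_zero, add_zero] at h2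
  have h4 := lreg_shV (ok_Hm0 hμ f 0 1 0 1) (fun _ => P.2) continuous_const (x := (P.1, 0)) h2
  simpa using h4

/-- the integral over the unit ball, with integral coordinates -/
theorem Zub_eq {μ : (ι → ℚ_[p]) → ℝ → ℝ≥0∞}
    (hμ : ∀ f : ι → (ℚ_[p] × ℚ_[p]) → ℚ_[p], (∀ j, Continuous (f j)) →
      Ok (fun s x => μ (fun j => f j x) s)) (f : ι → A ℚ_[p]) (s : ℝ) (hs : 0 ≤ s) :
    Zc (Hm μ f 0 1 0 1) ub s = ((∫⁻ x : Fin 2 → ℤ_[p], μ (fun j => ev (inc p (x 0), inc p (x 1))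
      (f j)) s ∂(Measure.pi fun _ : Fin 2 => mu p)).toReal : ℂ) := by
  unfold Zc
  congr 2
  have hH : ∀ x, Hm μ f 0 1 0 1 s x = μ (fun j => ev x (f j)) s := by
    intro x
    unfold Hm
    rw [w01, w01, mul_one, mul_one]
  have hmeas : Measurable (fun x => μ (fun j => ev x (f j)) s) := by
    have h1 := (ok_Hm0 hμ f 0 1 0 1 s hs).1
    have h2 : Hm μ f 0 1 0 1 s = fun x => μ (fun j => ev x (f j)) s := funext hH
    rwa [h2] at h1
  have hmp := measurePreserving_finTwoArrow (mu p)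
  have hinc : Measurable (inc p) := (inc_emb p).continuous.measurable
  have h1 : ∫⁻ x : Fin 2 → ℤ_[p], μ (fun j => ev (inc p (x 0), inc p (x 1)) (f j)) s
      ∂(Measure.pi fun _ : Fin 2 => mu p) =
      ∫⁻ z : ℤ_[p] × ℤ_[p], μ (fun j => ev (inc p z.1, inc p z.2) (f j)) s
        ∂((mu p).prod (mu p)) := by
    rw [← hmp.lintegral_comp (f := fun z : ℤ_[p] × ℤ_[p] =>
      μ (fun j => ev (inc p z.1, inc p z.2) (f j)) s)]
    · rfl
    · exact hmeas.comp ((hinc.comp measurable_fst).prodMk (hinc.comp measurable_snd))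
  have h2 := lintegral_prod (μ := mu p) (ν := mu p) (fun z : ℤ_[p] × ℤ_[p] =>
    μ (fun j => ev (inc p z.1, inc p z.2) (f j)) s) (hmeas.comp ((hinc.comp measurable_fst).prodMk
    (hinc.comp measurable_snd))).aemeasurable
  rw [h1, h2]
  simp only [hH]
  have hbl : ∀ (G : ℚ_[p] → ℝ≥0∞), ∫⁻ x in bl (0 : ℚ_[p]) 0, G x ∂(nu p) =
      ∫⁻ z, G (inc p z) ∂(mu p) := by
    intro G
    rw [← lintegral_unit]
    unfold bl
    rw [pow_zero]
  rw [ub, bx, nu2, ← Measure.prod_restrict, lintegral_prod _ hmeas.aemeasurable, add_zero, hbl]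
  refine lintegral_congr fun a => ?_
  exact hbl (fun v => μ (fun j => ev (inc p a, v) (f j)) s)

end Gen

variable {κ : Type} [Fintype κ] [DecidableEq κ]

/-- Fubini -/
theorem lintegral_sumPi2 (G : (Fin 2 → ℤ_[p]) × (κ → ℤ_[p]) → ℝ≥0∞) (hG : Measurable G) :
    ∫⁻ x : Fin 2 ⊕ κ → ℤ_[p], G (fun i => x (Sum.inl i), fun i => x (Sum.inr i))
      ∂(Measure.pi fun _ : Fin 2 ⊕ κ => mu p) =
    ∫⁻ x : Fin 2 → ℤ_[p], ∫⁻ y : κ → ℤ_[p], G (x, y) ∂(Measure.pi fun _ : κ => mu p)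
      ∂(Measure.pi fun _ : Fin 2 => mu p) := by
  have hmp := (measurePreserving_sumPiEquivProdPi (X := fun _ : Fin 2 ⊕ κ => ℤ_[p])
    (fun _ : Fin 2 ⊕ κ => mu p))
  have h3 := hmp.lintegral_comp hG
  rw [← lintegral_prod G hG.aemeasurable, ← h3]
  rfl

/-- the zeta function of `h (f_0 + ∑ y_j f_j) ^ a` -/
noncomputable def ZF (h : A ℚ_[p]) (f : Option κ → A ℚ_[p]) (a : ℕ) (s : ℝ) : ℂ :=
  Zc (Hm (muF a) (fun j => h * f j ^ a) 0 1 0 1) ub s

theorem reg_ZF (φ : ℚ_[p] →+* ℂ) (h : A ℚ_[p]) (f : Option κ → A ℚ_[p]) (a : ℕ) (ha : 1 ≤ a)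
    (hh : h ≠ 0) (j1 : κ) (hj1 : f (some j1) ≠ 0) (b : Polynomial ℂ)
    (hb : Pool.Agent.N103.HEq 1 (FF (mp φ h) (fun j => mp φ (f j)) a) b)
    (hF : FF (mp φ h) (fun j => mp φ (f j)) a ≠ 0) {T0 : ℂ} (hT0 : T0 ≠ 0)
    (hr : b.eval ((rr p T0 : ℝ) : ℂ) ≠ 0) : Reg p T0 0 (ZF h f a) :=
  LReg.glue (addF_Zc (ok_Hm0 (ok_muF a) _ 0 1 0 1)) CO_ub fun x _ =>
    lreg_ptm (ok_muF a) _ x (local_F φ h f a ha hh j1 hj1 b hb hF hT0 hr ![x.1, x.2])

/-- the integral over all the variables -/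
theorem ZF_eq (h : A ℚ_[p]) (f : Option κ → A ℚ_[p]) (a : ℕ) (ha : 1 ≤ a) (s : ℝ) (hs : 0 ≤ s) :
    ZF h f a s = ((∫⁻ x : Fin 2 ⊕ κ → ℤ_[p], N p s
      (ev (inc p (x (Sum.inl 0)), inc p (x (Sum.inl 1))) h *
        (ev (inc p (x (Sum.inl 0)), inc p (x (Sum.inl 1))) (f none) + ∑ j, inc p (x (Sum.inr j)) *
          ev (inc p (x (Sum.inl 0)), inc p (x (Sum.inl 1))) (f (some j))) ^ a)
      ∂(Measure.pi fun _ : Fin 2 ⊕ κ => mu p)).toReal : ℂ) := by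
  unfold ZF
  rw [Zub_eq (ok_muF a) _ s hs]
  congr 2
  have hinc : Measurable (inc p) := (inc_emb p).continuous.measurable
  have hev : ∀ q : A ℚ_[p], Measurable (fun z : (Fin 2 → ℤ_[p]) × (κ → ℤ_[p]) =>
      ev (inc p (z.1 0), inc p (z.1 1)) q) := fun q => (ev_cont q).measurable.comp
    ((hinc.comp ((measurable_pi_apply 0).comp measurable_fst)).prodMk
      (hinc.comp ((measurable_pi_apply 1).comp measurable_fst)))
  have hG : Measurable (fun z : (Fin 2 → ℤ_[p]) × (κ → ℤ_[p]) => N p s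
      (ev (inc p (z.1 0), inc p (z.1 1)) h *
        (ev (inc p (z.1 0), inc p (z.1 1)) (f none) + ∑ j, inc p (z.2 j) *
          ev (inc p (z.1 0), inc p (z.1 1)) (f (some j))) ^ a)) := by
    refine (N_meas s).comp ((hev h).mul (((hev _).add
      (Finset.measurable_fun_sum _ fun j _ => ?_)).pow_const a))
    exact (hinc.comp ((measurable_pi_apply j).comp measurable_snd)).mul (hev _)
  rw [lintegral_sumPi2 (fun z : (Fin 2 → ℤ_[p]) × (κ → ℤ_[p]) => N p s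
      (ev (inc p (z.1 0), inc p (z.1 1)) h *
        (ev (inc p (z.1 0), inc p (z.1 1)) (f none) + ∑ j, inc p (z.2 j) *
          ev (inc p (z.1 0), inc p (z.1 1)) (f (some j))) ^ a)) hG]
  refine lintegral_congr fun x => ?_
  have h1 := lintegral_aff hs a ha (ev (inc p (x 0), inc p (x 1)) h)
    (fun j => ev (inc p (x 0), inc p (x 1)) (f j))
  rw [h1]
  congr 1
  funext j
  rw [map_mul, map_pow]

end Pool.Agent.N138.PA
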