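import Pool.Agent.N138.PA.Crit
import Pool.Agent.Y230.PT.Final

set_option autoImplicit false
set_option linter.unusedSectionVars false
set_option linter.unusedVariables false
set_option linter.unusedSimpArgs false

/-! # The local theorem -/

namespace Pool.Agent.N138.PA

open Pool.Agent.W574.SM Pool.Agent.Y230.RE Pool.Agent.Y230.PL
open Pool.Agent.Y230.PT hiding sw cc_sw pderiv_sw
open Pool.Agent.N103 (InvA GeomD fc FF fam t0 t1 OrdP typeH_root geomInit inv_init)
open Polynomial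

variable {κ : Type} [Fintype κ] [DecidableEq κ]

theorem cc_translate (P : Fin 2 → ℂ) (q : MP) :
    MvPolynomial.constantCoeff (translate P q) = MvPolynomial.eval P q := by
  change MvPolynomial.constantCoeff (MvPolynomial.aeval
    (fun i => MvPolynomial.X i + MvPolynomial.C (P i)) q) = _
  induction q using MvPolynomial.induction_on with
  | C a =>
    rw [MvPolynomial.aeval_C, MvPolynomial.eval_C]
    exact MvPolynomial.constantCoeff_C _ a
  | add p q hp hq => rw [map_add, map_add, hp, hq, map_add]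
  | mul_X p i hp =>
    rw [map_mul, map_mul, hp, map_mul, MvPolynomial.aeval_X, MvPolynomial.eval_X, map_add,
      MvPolynomial.constantCoeff_X, MvPolynomial.constantCoeff_C, zero_add]

theorem translate_ne (P : Fin 2 → ℂ) (q : MP) (hq : q ≠ 0) : translate P q ≠ 0 := by
  intro h
  apply hq
  refine MvPolynomial.funext fun x => ?_
  rw [map_zero]
  have h1 := eval_translate P (x 0 - P 0) (x 1 - P 1) q
  rw [h, map_zero] at h1
  have h2 : (![P 0 + (x 0 - P 0), P 1 + (x 1 - P 1)] : Fin 2 → ℂ) = x := by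
    funext i
    fin_cases i <;> simp
  rw [h2] at h1
  exact h1.symm

theorem type_root (h : MP) (f : Option κ → MP) (a : ℕ) (ha : 1 ≤ a) (b : ℂ[X])
    (hb : Pool.Agent.N103.HEq 1 (FF h f a) b) (hF : FF h f a ≠ 0) (hh : h ≠ 0) (j : κ)
    (hj : f (some j) ≠ 0) : b.eval (-1 / (a : ℂ)) = 0 := by
  obtain ⟨Pt, hPt⟩ : ∃ Pt : Fin 2 → ℂ, MvPolynomial.eval Pt (f (some j)) ≠ 0 := by
    by_contra hall
    push Not at hall
    exact hj (MvPolynomial.funext fun x => by rw [hall x, map_zero])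
  set c : κ → ℂ := Pi.single j (-MvPolynomial.eval Pt (f none) / MvPolynomial.eval Pt (f (some j)))
    with hc
  refine typeH_root (c := c) (Pt := Pt) hb hF (by rw [map_one]; exact one_ne_zero) ha
    (geomInit h f a c Pt) 1 one_ne_zero (translate_ne Pt h hh) (fun i => translate Pt (fc c f i))
    (fun i => (one_mul _).symm) ?_ j ?_
  · rw [cc_translate]
    change MvPolynomial.eval Pt (f none + ∑ i, MvPolynomial.C (c i) * f (some i)) = 0
    rw [map_add, map_sum, Finset.sum_eq_single j]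
    · rw [map_mul, MvPolynomial.eval_C, hc, Pi.single_eq_same, div_mul_cancel₀ _ hPt,
        add_neg_cancel]
    · intro i _ hi
      rw [map_mul, MvPolynomial.eval_C, hc, Pi.single_eq_of_ne hi, zero_mul]
    · intro h
      exact absurd (Finset.mem_univ j) h
  · rw [cc_translate]
    exact hPt

variable {p : ℕ} [Fact p.Prime]

/-- the local family -/
theorem nd_fam (h : A ℚ_[p]) (f : Option κ → A ℚ_[p]) (a : ℕ) (P : Fin 2 → ℚ_[p])
    (j : Option κ) : nd (fun j => h * f j ^ a) P j =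
      nd (fun _ : Unit => h) P () * nd f P j ^ a := by
  unfold nd
  rw [map_mul, map_pow]

/-- **No pole at a point.** -/
theorem local_F (φ : ℚ_[p] →+* ℂ) (h : A ℚ_[p]) (f : Option κ → A ℚ_[p]) (a : ℕ) (ha : 1 ≤ a)
    (hh : h ≠ 0) (j1 : κ) (hj1 : f (some j1) ≠ 0) (b : ℂ[X])
    (hb : Pool.Agent.N103.HEq 1 (FF (mp φ h) (fun j => mp φ (f j)) a) b)
    (hF : FF (mp φ h) (fun j => mp φ (f j)) a ≠ 0) {T0 : ℂ} (hT0 : T0 ≠ 0)
    (hr : b.eval ((rr p T0 : ℝ) : ℂ) ≠ 0) (P : Fin 2 → ℚ_[p]) :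
    LReg T0 0 (Zc (Hm (muF a) (nd (fun j => h * f j ^ a) P) 0 1 0 1)) (0, 0) := by
  set r : ℂ := ((rr p T0 : ℝ) : ℂ) with hrdef
  have mpne : ∀ q : A ℚ_[p], q ≠ 0 → mp φ q ≠ 0 := fun q hq h => hq
    (MvPolynomial.map_injective φ φ.injective (by
      rw [map_zero]; exact h))
  have hcr : ∀ a n : ℕ, Crit p T0 a n → (n : ℂ) + r * (a : ℂ) = 0 := fun a n h => crit_r hT0 a n h
  have hcr' : ∀ a n : ℕ, Crit p T0 a n → (n : ℂ) + (a : ℂ) * r = 0 := fun a n h => by
    rw [mul_comm]
    exact hcr a n h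
  have hcurve : ∀ m : ℕ, 1 ≤ m → b.eval (-1 / (m : ℂ)) = 0 → ¬ Crit p T0 m 1 := by
    intro m hm h1 h2
    apply hr
    have hmc : (m : ℂ) ≠ 0 := Nat.cast_ne_zero.2 (by omega)
    have h3 : r = -1 / (m : ℂ) := by
      rw [eq_div_iff hmc]
      have := hcr _ _ h2
      push_cast at this
      linear_combination this
    rw [h3]
    exact h1
  have hca : ¬ Crit p T0 a 1 := hcurve a ha (type_root (mp φ h) (fun j => mp φ (f j)) a ha b hb hF
    (mpne h hh) j1 (mpne _ hj1))
  have hμ := isMu_muF (p := p) (κ := κ) hT0 a hca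
  set Pt : Fin 2 → ℂ := fun i => φ (P i) with hPt
  set G : Option κ → A ℚ_[p] := nd (fun j => h * f j ^ a) P with hG
  have hGne : ∃ j, G j ≠ 0 := tr_ne_zero (fun j => h * f j ^ a) P
    ⟨some j1, mul_ne_zero hh (pow_ne_zero _ hj1)⟩
  have hT : KT G false false := exists_KT G false false hGne (by simp) (by simp)
  have hCC := main_C hT0 hμ (CxP φ (mp φ h) (fun j => mp φ (f j)) a Pt r)
    (closed_CxP hb hF ha hr)
    (fun g d0 d1 a0 n0 a1 n1 hc j hj ⟨h1, h2⟩ => by
      have ho : IsO (fun j => r0 (g j)) 0 := ⟨fun i k hk => absurd hk (Nat.not_lt_zero k), j, by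
        simp only; rw [r0_coeff, ← cc_eq]; exact hj⟩
      have h3 := hc.ord0 ha (hcr' _ _ h1) 0 ho
      rw [add_zero] at h3
      exact h3 (hcr _ _ h2))
    (fun g d0 a0 n0 m hm hc q K hgj h0 h1 j hj =>
      hcurve m hm (hc.curveV hb hF ha hm q K hgj h0 h1 j hj))
    (fun g d1 a1 n1 m hm hc q K hgj h0 h1 j hj =>
      hcurve m hm (hc.curveU hb hF ha hm q K hgj h0 h1 j hj))
    (fun g d0 d1 a0 n0 a1 n1 m gc gI hm hgc hgI hne' hc hcrit =>
      hE_of hμ g a0 n0 a1 n1 m hc.1.1 hc.1.2.1 gc gI hgc hgI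
        (hc.crit hb hF ha hr hT0 hcr hca hm hgc hgI hne' hcrit))
    (fun g d0 d1 a0 n0 a1 n1 hc hcrit ρ hρ h => hc.ord0 ha (hcr' _ _ hcrit) ρ hρ (hcr _ _ h))
    (fun g d0 d1 a0 n0 a1 n1 hc hcrit ρ hρ h => hc.ord1 ha (hcr' _ _ hcrit) ρ hρ (hcr _ _ h))
    hT 0 1 0 1 ⟨⟨le_rfl, le_rfl, fun _ => ⟨rfl, rfl⟩, fun _ => ⟨rfl, rfl⟩⟩,
      nd (fun _ : Unit => h) P (), nd f P, nd_fam h f a P, fun c => by
        have h1 := inv_init (mp φ h) (fun j => mp φ (f j)) a c Pt r
        have h2 : translate Pt (mp φ h) = mp φ (nd (fun _ : Unit => h) P ()) :=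
          (mp_tr φ P h).symm
        have h3 : (fun j => translate Pt (fc c (fun j => mp φ (f j)) j)) =
            fc c fun j => mp φ (nd f P j) := by
          funext j
          rw [fc_map]
          congr 1
          funext i
          exact (mp_tr φ P (f i)).symm
        rw [h2, h3] at h1
        exact h1⟩
  refine (hCC 0 0 (fun h => absurd h not_crit01) (fun h => absurd h not_crit01)).congr
    isOpen_univ trivial fun C _ _ s _ => ?_
  rw [crr_false not_crit01, crr_false not_crit01, sub_zero, sub_zero]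

end Pool.Agent.N138.PA
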