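import Pool.Agent.N138.PA.Fin

set_option autoImplicit false
set_option linter.unusedSectionVars false
set_option linter.unusedVariables false
set_option linter.unusedSimpArgs false

/-! # No poles in the closed unit disc, and rationality -/

namespace Pool.Agent.N138.PA

open MeasureTheory Set Pool.Agent.W427.SMC Pool.Agent.Y230.RE
open Pool.Agent.Y230.PT hiding sw cc_sw pderiv_sw
open scoped ENNReal

variable {p : ℕ} [Fact p.Prime]

attribute [local instance] msK bsK msZ bsZ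

theorem local_0m {ι : Type} [Fintype ι] [DecidableEq ι] {μ : (ι → ℚ_[p]) → ℝ → ℝ≥0∞} {T0 : ℂ} (hT0 : T0 ≠ 0)
    (hT1 : ‖T0‖ ≤ 1) (hμ : IsMu T0 μ) (f : ι → A ℚ_[p]) (P : Fin 2 → ℚ_[p])
    (hne : ∃ j, f j ≠ 0) : LReg T0 0 (Zc (Hm μ (nd f P) 0 1 0 1)) (0, 0) := by
  have hgne := tr_ne_zero f P hne
  have hT : KT (nd f P) false false := exists_KT (nd f P) false false hgne (by simp) (by simp)
  have htc : TC (nd f P) false false 0 1 0 1 := ⟨le_rfl, le_rfl, fun _ => ⟨rfl, rfl⟩,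
    fun _ => ⟨rfl, rfl⟩⟩
  have hCC := main_C hT0 hμ TC closed_TC
    (fun _ _ _ _ _ _ _ hc _ _ h => not_crit_small hT1 _ _ hc.1 h.1)
    (fun _ _ _ _ _ _ hc _ _ _ _ _ _ _ => not_crit_small hT1 _ _ le_rfl)
    (fun _ _ _ _ _ _ hc _ _ _ _ _ _ _ => not_crit_small hT1 _ _ le_rfl)
    (fun _ _ _ _ _ _ _ _ _ _ _ _ _ _ hc h => absurd h (not_crit_small hT1 _ _ (by
      have := hc.1
      omega)))
    (fun _ _ _ _ _ _ _ hc h _ _ => absurd h (not_crit_small hT1 _ _ hc.1))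
    (fun _ _ _ _ _ _ _ hc h _ _ => absurd h (not_crit_small hT1 _ _ hc.2.1))
    hT 0 1 0 1 htc
  refine (hCC 0 0 (fun h => absurd h not_crit01) (fun h => absurd h not_crit01)).congr
    isOpen_univ trivial fun C _ _ s _ => ?_
  rw [crr_false not_crit01, crr_false not_crit01, sub_zero, sub_zero]

variable {κ : Type} [Fintype κ] [DecidableEq κ]

theorem reg_ZF0 (h : A ℚ_[p]) (f : Option κ → A ℚ_[p]) (a : ℕ) (hne : ∃ j, h * f j ^ a ≠ 0)
    {T0 : ℂ} (hT0 : T0 ≠ 0) (hT1 : ‖T0‖ ≤ 1) : Reg p T0 0 (ZF h f a) :=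
  LReg.glue (addF_Zc (ok_Hm0 (ok_muF a) _ 0 1 0 1)) CO_ub fun x _ =>
    lreg_ptm (ok_muF a) _ x (local_0m hT0 hT1 (isMu_muF hT0 a (not_crit_small hT1 _ _ le_rfl)) _ _
      hne)

/-- the order of a pole is finite -/
theorem reg_fin {F : ℝ → ℂ} (hF : Reg p 1 0 F) (T0 : ℂ) : ∃ M, Reg p T0 M F := by
  obtain ⟨D, P, hD, h⟩ := hF
  simp only [pow_zero, one_mul] at h
  have hD0 : D ≠ 0 := by
    rintro rfl
    simp at hD
  obtain ⟨D1, h1, h2⟩ := Polynomial.exists_eq_pow_rootMultiplicity_mul_and_not_dvd D hD0 T0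
  refine ⟨D.rootMultiplicity T0, D1, P, fun h3 => h2 (Polynomial.dvd_iff_isRoot.2 h3), fun s hs => ?_⟩
  rw [← h1]
  exact h s hs

end Pool.Agent.N138.PA
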