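import Pool.Agent.N138.PA.Mu
import Pool.Agent.Y230.PT.MainC
import Pool.Agent.Y230.RE.Exist

set_option autoImplicit false
set_option linter.unusedSectionVars false
set_option linter.unusedVariables false

/-! # Integrands given by a homogeneous function of a family: the induction -/

namespace Pool.Agent.N138.PA

open MeasureTheory Set Pool.Agent.W427.SMC Pool.Agent.Y230.PT
open scoped ENNReal
open Pool.Agent.Y230.RE

variable {p : ℕ} [Fact p.Prime]

attribute [local instance] msK bsK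

variable {ι : Type} [Fintype ι] {T0 : ℂ} {μ : (ι → ℚ_[p]) → ℝ → ℝ≥0∞}

/-- a family of polynomials has an order at every point -/
theorem exists_isO (h : ι → Polynomial ℚ_[p]) (hne : ∃ j, h j ≠ 0) : ∃ ρ, IsO h ρ := by
  classical
  have hex : ∃ ρ, ∃ j, (h j).coeff ρ ≠ 0 := by
    obtain ⟨j, hj⟩ := hne
    exact ⟨(h j).natDegree, j, by
      rw [Polynomial.coeff_natDegree]
      exact Polynomial.leadingCoeff_ne_zero.2 hj⟩
  refine ⟨Nat.find hex, fun j i hi => ?_, Nat.find_spec hex⟩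
  by_contra hne
  exact Nat.find_min hex hi ⟨j, hne⟩

/-- a family of polynomials near a point -/
theorem fam_near (hμ : IsMu T0 μ) (h : ι → Polynomial ℚ_[p]) (hne : ∃ j, h j ≠ 0) (c : ℚ_[p]) :
    ∃ (ρ : ℕ) (V : Set ℚ_[p]), IsOpen V ∧ 0 ∈ V ∧
      IsO (fun j => (h j).comp (Polynomial.X + Polynomial.C c)) ρ ∧
      ∀ v ∈ V, ∀ s : ℝ, 0 ≤ s → μ (fun j => (h j).eval (c + v)) s =
        μ (fun j => ((h j).comp (Polynomial.X + Polynomial.C c)).coeff ρ) s * N p s v ^ ρ := by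
  have hne' : ∃ j, (h j).comp (Polynomial.X + Polynomial.C c) ≠ 0 := by
    obtain ⟨j, hj⟩ := hne
    exact ⟨j, comp_ne (h j) c hj⟩
  obtain ⟨ρ, hρ⟩ := exists_isO _ hne'
  have hfac : ∀ j, ∃ Q : Polynomial ℚ_[p],
      (h j).comp (Polynomial.X + Polynomial.C c) = Polynomial.X ^ ρ * Q := by
    intro j
    exact Polynomial.X_pow_dvd_iff.2 (hρ.1 j)
  choose Q hQ using hfac
  have hQ0 : ∀ j, (Q j).eval 0 = ((h j).comp (Polynomial.X + Polynomial.C c)).coeff ρ := by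
    intro j
    rw [hQ, Polynomial.coeff_X_pow_mul', if_pos le_rfl, Nat.sub_self,
      Polynomial.coeff_zero_eq_eval_zero]
  obtain ⟨V, hV, h0V, hV2⟩ := hμ.near (fun j (v : ℚ_[p]) => (Q j).eval v)
    (fun j => (Q j).continuous) 0 (by
      obtain ⟨j, hj⟩ := hρ.2
      exact ⟨j, by rw [hQ0]; exact hj⟩)
  refine ⟨ρ, V, hV, h0V, hρ, fun v hv s hs => ?_⟩
  have h1 : (fun j => (h j).eval (c + v)) = fun j => v ^ ρ * (Q j).eval v := by
    funext j
    have h2 := congrArg (Polynomial.eval v) (hQ j)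
    rw [Polynomial.eval_comp, Polynomial.eval_mul, Polynomial.eval_pow, Polynomial.eval_X,
      Polynomial.eval_add, Polynomial.eval_X, Polynomial.eval_C] at h2
    rw [add_comm, h2]
  rw [h1, hμ.smul, hV2 v hv s hs, N_pow, mul_comm]
  simp only [hQ0]

/-- **No poles.** -/
theorem main_C (hT0 : T0 ≠ 0) (hμ : IsMu T0 μ)
    (Cx : (ι → A ℚ_[p]) → Bool → Bool → ℕ → ℕ → ℕ → ℕ → Prop) (hCx : Closed Cx)
    (hunit : ∀ (g : ι → A ℚ_[p]) (d0 d1 : Bool) (a0 n0 a1 n1 : ℕ), Cx g d0 d1 a0 n0 a1 n1 →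
      ∀ j, MvPolynomial.constantCoeff (g j) ≠ 0 → ¬ (Crit p T0 a0 n0 ∧ Crit p T0 a1 n1))
    (hV : ∀ (g : ι → A ℚ_[p]) (d0 : Bool) (a0 n0 m : ℕ), 1 ≤ m → Cx g d0 false a0 n0 0 1 →
      ∀ (h : A ℚ_[p]) (κ : ι → A ℚ_[p]), (∀ j, g j = h ^ m * κ j) →
      MvPolynomial.constantCoeff h = 0 → MvPolynomial.constantCoeff (MvPolynomial.pderiv 1 h) ≠ 0 →
      ∀ j, MvPolynomial.constantCoeff (κ j) ≠ 0 → ¬ Crit p T0 m 1)
    (hU : ∀ (g : ι → A ℚ_[p]) (d1 : Bool) (a1 n1 m : ℕ), 1 ≤ m → Cx g false d1 0 1 a1 n1 →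
      ∀ (h : A ℚ_[p]) (κ : ι → A ℚ_[p]), (∀ j, g j = h ^ m * κ j) →
      MvPolynomial.constantCoeff h = 0 → MvPolynomial.constantCoeff (MvPolynomial.pderiv 0 h) ≠ 0 →
      ∀ j, MvPolynomial.constantCoeff (κ j) ≠ 0 → ¬ Crit p T0 m 1)
    (hE : ∀ (g : ι → A ℚ_[p]) (d0 d1 : Bool) (a0 n0 a1 n1 m : ℕ) (gc : ℚ_[p] → ι → A ℚ_[p])
      (gI : ι → A ℚ_[p]), 1 ≤ m →
      (∀ c j, MvPolynomial.aeval (ch c) (g j) = MvPolynomial.X 0 ^ m * gc c j) →
      (∀ j, MvPolynomial.aeval chI (g j) = MvPolynomial.X 1 ^ m * gI j) →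
      (∃ j, r0 (gc 0 j) ≠ 0) → Cx g d0 d1 a0 n0 a1 n1 → Crit p T0 (a0 + a1 + m) (n0 + n1) →
      ∃ Φ : ℝ → ℚ_[p] × ℚ_[p] → ℝ≥0∞, Ok Φ ∧ (∀ C, CO C → Reg p T0 0 (Zc Φ C)) ∧
        (∀ (s : ℝ) (x : ℚ_[p] × ℚ_[p]), 0 ≤ s → H1 Φ s x =
          μ (fun j => (r0 (gc 0 j)).eval x.2) s *
            (w s (a0 + a1 + m) (n0 + n1) x.1 * w s a1 n1 x.2)) ∧
        (∀ (s : ℝ) (x : ℚ_[p] × ℚ_[p]), 0 ≤ s → H2 Φ s x =
          μ (fun j => (r1 (gI j)).eval x.1) s *
            (w s a0 n0 x.1 * w s (a0 + a1 + m) (n0 + n1) x.2)))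
    (hH0 : ∀ (g : ι → A ℚ_[p]) (d0 d1 : Bool) (a0 n0 a1 n1 : ℕ), Cx g d0 d1 a0 n0 a1 n1 →
      Crit p T0 a0 n0 → ∀ ρ, IsO (fun j => r0 (g j)) ρ → ¬ Crit p T0 (a1 + ρ) n1)
    (hH1 : ∀ (g : ι → A ℚ_[p]) (d0 d1 : Bool) (a0 n0 a1 n1 : ℕ), Cx g d0 d1 a0 n0 a1 n1 →
      Crit p T0 a1 n1 → ∀ ρ, IsO (fun j => r1 (g j)) ρ → ¬ Crit p T0 (a0 + ρ) n0)
    {g : ι → A ℚ_[p]} {d0 d1 : Bool} (hT : KT g d0 d1) : ∀ a0 n0 a1 n1 : ℕ,
    Cx g d0 d1 a0 n0 a1 n1 → CC T0 μ g a0 n0 a1 n1 := by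
  induction hT with
  | unit g d0 d1 j hj =>
    intro a0 n0 a1 n1 hc
    obtain ⟨hn0, hn1⟩ := hCx.pos _ _ _ _ _ _ _ hc
    exact CC_unit hT0 hμ g j hj hn0 hn1 (hunit _ _ _ _ _ _ _ hc j hj)
  | curveV g d0 m hm h κ hg h0 h1 j hj =>
    intro a0 n0 a1 n1 hc
    obtain ⟨hn0, hn1⟩ := hCx.pos _ _ _ _ _ _ _ hc
    obtain ⟨rfl, rfl⟩ := hCx.ty1 _ _ _ _ _ _ hc
    exact CC_curveV hT0 hμ g m h κ hg h0 h1 j hj hn0 (hV g d0 a0 n0 m hm hc h κ hg h0 h1 j hj)
  | curveU g d1 m hm h κ hg h0 h1 j hj =>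
    intro a0 n0 a1 n1 hc
    obtain ⟨hn0, hn1⟩ := hCx.pos _ _ _ _ _ _ _ hc
    obtain ⟨rfl, rfl⟩ := hCx.ty0 _ _ _ _ _ _ hc
    exact CC_curveU hT0 hμ g m h κ hg h0 h1 j hj hn1 (hU g d1 a1 n1 m hm hc h κ hg h0 h1 j hj)
  | blowup g d0 d1 m hm gc gI hgc hgI hne h0 hcc hI ih0 ihc ihI =>
    intro a0 n0 a1 n1 hc
    obtain ⟨hn0, hn1⟩ := hCx.pos _ _ _ _ _ _ _ hc
    obtain ⟨c0, cc, cI⟩ := hCx.child g d0 d1 a0 n0 a1 n1 m gc gI hm hgc hgI hne hc
    intro ρ0 ρ1 hρ0 hρ1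
    have e1 : H1 (Hm μ g a0 n0 a1 n1) = Hm μ (gc 0) (a0 + a1 + m) (n0 + n1) a1 n1 := by
      funext s x
      exact Hm_c1 hμ g (gc 0) m (hgc 0) a0 n0 a1 n1 hn0 hn1 s x
    have e2 : H2 (Hm μ g a0 n0 a1 n1) = Hm μ gI a0 n0 (a0 + a1 + m) (n0 + n1) := by
      funext s x
      exact Hm_c2 hμ g gI m hgI a0 n0 a1 n1 hn0 hn1 s x
    have hr0 : ∀ j, r0 (g j) = Polynomial.X ^ m * r0 (gI j) := fun j => r0_chI (hgI j)
    have hr1 : ∀ j, r1 (g j) = Polynomial.X ^ m * r1 (gc 0 j) := fun j => r1_ch (hgc 0 j)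
    have hneI : ∃ j, r1 (gI j) ≠ 0 := by
      obtain ⟨j, hj⟩ := hne
      refine ⟨j, fun h => hj ?_⟩
      have hdeg : (r0 (gc 0 j)).natDegree ≤ m := by
        rw [r0_lead (hgc 0 j)]
        exact om_deg _ _
      ext i
      rw [Polynomial.coeff_zero]
      by_cases hi : i ≤ m
      · have h3 := r1_lead' (hgc 0 j) (hgI j) (m - i) (Nat.sub_le _ _)
        rw [h, Polynomial.coeff_zero, Nat.sub_sub_self hi] at h3
        exact h3.symm
      · exact Polynomial.coeff_eq_zero_of_natDegree_lt (by omega)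
    -- the correction terms of the children
    obtain ⟨ρ0', hρ0'⟩ : ∃ ρ0', Crit p T0 a0 n0 → ρ0 = m + ρ0' ∧ IsO (fun j => r0 (gI j)) ρ0' := by
      by_cases h : Crit p T0 a0 n0
      · obtain ⟨ρ', h1, h2⟩ := (hρ0 h).shift hr0
        exact ⟨ρ', fun _ => ⟨h1, h2⟩⟩
      · exact ⟨0, fun h' => absurd h' h⟩
    obtain ⟨ρ1', hρ1'⟩ : ∃ ρ1', Crit p T0 a1 n1 → ρ1 = m + ρ1' ∧
        IsO (fun j => r1 (gc 0 j)) ρ1' := by
      by_cases h : Crit p T0 a1 n1
      · obtain ⟨ρ', h1, h2⟩ := (hρ1 h).shift hr1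
        exact ⟨ρ', fun _ => ⟨h1, h2⟩⟩
      · exact ⟨0, fun h' => absurd h' h⟩
    -- the model
    obtain ⟨Φ, hE'⟩ : ∃ Φ : ℝ → ℚ_[p] × ℚ_[p] → ℝ≥0∞, Ok Φ ∧ (Crit p T0 (a0 + a1 + m) (n0 + n1) →
        (∀ C, CO C → Reg p T0 0 (Zc Φ C)) ∧
        (∀ (s : ℝ) (x : ℚ_[p] × ℚ_[p]), 0 ≤ s → H1 Φ s x =
          μ (fun j => (r0 (gc 0 j)).eval x.2) s *
            (w s (a0 + a1 + m) (n0 + n1) x.1 * w s a1 n1 x.2)) ∧
        (∀ (s : ℝ) (x : ℚ_[p] × ℚ_[p]), 0 ≤ s → H2 Φ s x =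
          μ (fun j => (r1 (gI j)).eval x.1) s *
            (w s a0 n0 x.1 * w s (a0 + a1 + m) (n0 + n1) x.2))) := by
      by_cases h : Crit p T0 (a0 + a1 + m) (n0 + n1)
      · obtain ⟨Φ, h1, h2⟩ := hE g d0 d1 a0 n0 a1 n1 m gc gI hm hgc hgI hne hc h
        exact ⟨Φ, h1, fun _ => h2⟩
      · exact ⟨fun _ _ => 1, ok_one, fun h' => absurd h' h⟩
    obtain ⟨okΦ, hE'⟩ := hE'
    set M0 := Mm μ (fun j => (r0 (g j)).coeff ρ0) a0 n0 (a1 + ρ0) n1 with hM0
    set M1 := Mm μ (fun j => (r1 (g j)).coeff ρ1) (a0 + ρ1) n0 a1 n1 with hM1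
    have okH : Ok (Hm μ g a0 n0 a1 n1) := ok_Hm hμ g a0 n0 a1 n1
    have okM0 : Ok M0 := ok_Mm hμ _ _ _ _ _
    have okM1 : Ok M1 := ok_Mm hμ _ _ _ _ _
    have hΦreg : ∀ C, CO C → Reg p T0 0 (crr (Crit p T0 (a0 + a1 + m) (n0 + n1)) (Zc Φ) C) := by
      intro C hC
      by_cases h : Crit p T0 (a0 + a1 + m) (n0 + n1)
      · rw [crr_true h]
        exact (hE' h).1 C hC
      · rw [crr_false h]
        exact Reg.zero
    -- regularity of the pullback of `M0`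
    have hM0reg : ∀ C, CO C → Reg p T0 0 (crr (Crit p T0 a0 n0) (Zc (H1 M0)) C) := by
      intro C hC
      by_cases h : Crit p T0 a0 n0
      · rw [crr_true h]
        have h3 := hH0 _ _ _ _ _ _ _ hc h ρ0 (hρ0 h)
        have e : H1 M0 = Mm μ (fun j => (r0 (g j)).coeff ρ0) (a0 + (a1 + ρ0)) (n0 + n1)
            (a1 + ρ0) n1 := by
          funext s x
          exact Mm_c1 _ _ _ _ _ hn0 hn1 s x
        rw [e]
        exact Mm_reg hT0 hμ _ (hρ0 h).2 (by omega) hn1 (by rwa [crit_add a0 n0 _ _ h]) h3 hC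
      · rw [crr_false h]
        exact Reg.zero
    have hM1reg : ∀ C, CO C → Reg p T0 0 (crr (Crit p T0 a1 n1) (Zc (H2 M1)) C) := by
      intro C hC
      by_cases h : Crit p T0 a1 n1
      · rw [crr_true h]
        have h3 := hH1 _ _ _ _ _ _ _ hc h ρ1 (hρ1 h)
        have e : H2 M1 = Mm μ (fun j => (r1 (g j)).coeff ρ1) (a0 + ρ1) n0 (a0 + ρ1 + a1)
            (n0 + n1) := by
          funext s x
          exact Mm_c2 _ _ _ _ _ hn0 hn1 s x
        rw [e]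
        refine Mm_reg hT0 hμ _ (hρ1 h).2 hn0 (by omega) h3 ?_ hC
        rwa [add_comm (a0 + ρ1) a1, add_comm n0 n1, crit_add a1 n1 _ _ h]
      · rw [crr_false h]
        exact Reg.zero
    -- the other pullbacks
    have eM1 : Crit p T0 a1 n1 → H1 M1 = Mm μ (fun j => (r1 (gc 0 j)).coeff ρ1')
        (a0 + a1 + m + ρ1') (n0 + n1) a1 n1 := by
      intro h
      funext s x
      rw [hM1, Mm_c1 _ _ _ _ _ hn0 hn1, (hρ1' h).1]
      have h3 : (fun j => (r1 (g j)).coeff (m + ρ1')) = fun j => (r1 (gc 0 j)).coeff ρ1' := by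
        funext j
        exact coeff_up _ _ _ _ (hr1 j)
      rw [h3]
      congr 1
      ring
    have eM0 : Crit p T0 a0 n0 → H2 M0 = Mm μ (fun j => (r0 (gI j)).coeff ρ0') a0 n0
        (a0 + a1 + m + ρ0') (n0 + n1) := by
      intro h
      funext s x
      rw [hM0, Mm_c2 _ _ _ _ _ hn0 hn1, (hρ0' h).1]
      have h3 : (fun j => (r0 (g j)).coeff (m + ρ0')) = fun j => (r0 (gI j)).coeff ρ0' := by
        funext j
        exact coeff_up _ _ _ _ (hr0 j)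
      rw [h3]
      congr 1
      ring
    -- the first chart
    have hF1 : ∀ c : ℚ_[p], LReg T0 0 (fun C s => Zc (H1 (Hm μ g a0 n0 a1 n1)) C s
        - crr (Crit p T0 a0 n0) (Zc (H1 M0)) C s - crr (Crit p T0 a1 n1) (Zc (H1 M1)) C s
        - crr (Crit p T0 (a0 + a1 + m) (n0 + n1)) (Zc (H1 Φ)) C s) (0, c) := by
      intro c
      obtain ⟨ρE, V, hVo, h0V, hVO, hVE⟩ := fam_near hμ (fun j => r0 (gc 0 j)) hne c
      have hcomp : ∀ j, r0 (gc c j) = (r0 (gc 0 j)).comp (Polynomial.X + Polynomial.C c) := by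
        intro j
        rw [ch_shift (hgc 0 j) (hgc c j), r0_shift]
      have hVO' : IsO (fun j => r0 (gc c j)) ρE := by
        simp only [hcomp]
        exact hVO
      have hVE' : ∀ v ∈ V, ∀ s : ℝ, 0 ≤ s → μ (fun j => (r0 (gc 0 j)).eval (c + v)) s =
          μ (fun j => (r0 (gc c j)).coeff ρE) s * N p s v ^ ρE := by
        intro v hv s hs
        rw [hVE v hv s hs]
        simp only [hcomp]
      by_cases hc0 : c = 0
      · subst hc0
        have hIH := ih0 _ _ _ _ c0 ρE ρ1' (fun h => hVO') (fun h => (hρ1' h).2)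
        refine (hIH.sub (LReg.of_all _ hM0reg)).congr (hVo.preimage continuous_snd) h0V
          fun C hC hCV s hs => ?_
        have e3 : crr (Crit p T0 a1 n1) (Zc (H1 M1)) C s = crr (Crit p T0 a1 n1)
            (Zc (Mm μ (fun j => (r1 (gc 0 j)).coeff ρ1') (a0 + a1 + m + ρ1') (n0 + n1) a1 n1))
              C s := by
          by_cases h : Crit p T0 a1 n1
          · rw [crr_true h, crr_true h, eM1 h]
          · rw [crr_false h, crr_false h]
        have e4 : crr (Crit p T0 (a0 + a1 + m) (n0 + n1)) (Zc (H1 Φ)) C s =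
            crr (Crit p T0 (a0 + a1 + m) (n0 + n1)) (Zc (Mm μ (fun j => (r0 (gc 0 j)).coeff ρE)
              (a0 + a1 + m) (n0 + n1) (a1 + ρE) n1)) C s := by
          by_cases h : Crit p T0 (a0 + a1 + m) (n0 + n1)
          · rw [crr_true h, crr_true h]
            refine Zc_congr hC fun x hx => ?_
            have h6 := hVE' x.2 (hCV hx) s hs
            rw [zero_add] at h6
            rw [(hE' h).2.1 s x hs, h6]
            unfold Mm
            rw [w_add s a1 ρE n1]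
            ring
          · rw [crr_false h, crr_false h]
        rw [e1, e3, e4]
        ring
      · have hIH := ihc c hc0 _ _ _ _ (cc c hc0) ρE 0 (fun h => hVO')
          (fun h => absurd h not_crit01)
        rw [crr_false not_crit01] at hIH
        obtain ⟨V', hV', h0V', hV2'⟩ := norm_add_near c hc0
        have h5 := lreg_chart hT0 (M := 0) c hc0 a1 n1 (H1 (Hm μ g a0 n0 a1 n1))
          (Hm μ (gc c) (a0 + a1 + m) (n0 + n1) 0 1) (H1 Φ)
          (Mm μ (fun j => (r0 (gc c j)).coeff ρE) (a0 + a1 + m) (n0 + n1) (0 + ρE) 1)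
          okH.H1 okΦ.H1 (Crit p T0 (a0 + a1 + m) (n0 + n1))
          (hV'.inter (hVo.preimage continuous_snd)) ⟨h0V', h0V⟩ (by
            intro x hx s _
            rw [e1]
            exact Hm_shift (gc 0) (gc c) c (fun j => ch_shift (hgc 0 j) (hgc c j)) _ _ _ _ s x
              (hV2' x hx.1)) (by
            intro h x hx s hs
            have h6 := hVE' x.2 hx.2 s hs
            rw [(hE' h).2.1 s _ hs]
            simp only
            rw [h6, w_norm s a1 n1 (hV2' x hx.1)]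
            unfold Mm
            rw [w_add s 0 ρE 1, w01]
            ring) (by
            refine hIH.congr isOpen_univ trivial fun C _ _ s _ => ?_
            rw [sub_zero])
        have h6 : LReg T0 0 (fun C s => crr (Crit p T0 a1 n1) (Zc (H1 M1)) C s) (0, c) := by
          by_cases h : Crit p T0 a1 n1
          · rw [crr_true h, eM1 h]
            refine Mm_lreg hT0 hμ _ (hρ1' h).2.2 (by omega) ?_ c hc0
            have h7 := hH1 _ _ _ _ _ _ _ hc h ρ1 (hρ1 h)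
            have h8 : a0 + a1 + m + ρ1' = a1 + (a0 + ρ1) := by
              rw [(hρ1' h).1]; ring
            rw [h8, add_comm n0 n1, crit_add a1 n1 _ _ h]
            exact h7
          · rw [crr_false h]
            exact LReg.zero
        refine ((h5.sub h6).sub (LReg.of_all _ hM0reg)).congr isOpen_univ trivial
          fun C _ _ s _ => ?_
        ring
    have hF2 : LReg T0 0 (fun C s => Zc (H2 (Hm μ g a0 n0 a1 n1)) C s
        - crr (Crit p T0 a0 n0) (Zc (H2 M0)) C s - crr (Crit p T0 a1 n1) (Zc (H2 M1)) C s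
        - crr (Crit p T0 (a0 + a1 + m) (n0 + n1)) (Zc (H2 Φ)) C s) (0, 0) := by
      obtain ⟨ρI, V, hVo, h0V, hVO, hVE⟩ := fam_near hμ (fun j => r1 (gI j)) hneI 0
      have hcomp : ∀ j, (r1 (gI j)).comp (Polynomial.X + Polynomial.C (0 : ℚ_[p])) = r1 (gI j) := by
        intro j
        rw [map_zero, add_zero, Polynomial.comp_X]
      simp only [hcomp, zero_add] at hVO hVE
      have hIH := ihI _ _ _ _ cI ρ0' ρI (fun h => (hρ0' h).2) (fun _ => hVO)
      refine (hIH.sub (LReg.of_all _ hM1reg)).congr (hVo.preimage continuous_fst) h0V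
        fun C hC hCV s hs => ?_
      have e3 : crr (Crit p T0 a0 n0) (Zc (H2 M0)) C s = crr (Crit p T0 a0 n0)
          (Zc (Mm μ (fun j => (r0 (gI j)).coeff ρ0') a0 n0 (a0 + a1 + m + ρ0') (n0 + n1))) C s := by
        by_cases h : Crit p T0 a0 n0
        · rw [crr_true h, crr_true h, eM0 h]
        · rw [crr_false h, crr_false h]
      have e4 : crr (Crit p T0 (a0 + a1 + m) (n0 + n1)) (Zc (H2 Φ)) C s =
          crr (Crit p T0 (a0 + a1 + m) (n0 + n1)) (Zc (Mm μ (fun j => (r1 (gI j)).coeff ρI)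
            (a0 + ρI) n0 (a0 + a1 + m) (n0 + n1))) C s := by
        by_cases h : Crit p T0 (a0 + a1 + m) (n0 + n1)
        · rw [crr_true h, crr_true h]
          refine Zc_congr hC fun x hx => ?_
          rw [(hE' h).2.2 s x hs, hVE x.1 (hCV hx) s hs]
          unfold Mm
          rw [w_add s a0 ρI n0]
          ring
        · rw [crr_false h, crr_false h]
      rw [e2, e3, e4]
      ring
    have hblow : ∀ (δ : Prop) (F : ℝ → ℚ_[p] × ℚ_[p] → ℝ≥0∞), Ok F → ∀ L C, CO C →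
        ∀ s : ℝ, 0 ≤ s → crr δ (Zc F) C s = crr δ (Zc (H1 F)) (S1 L C) s +
          crr δ (Zc (H2 F)) (S2 L C) s := by
      intro δ F hF L C hC s hs
      by_cases h : δ
      · rw [crr_true h, crr_true h, crr_true h, Zc_blow L hF hC hs]
      · rw [crr_false h, crr_false h, crr_false h, add_zero]
    have hF := LReg.blow (F := fun C s => Zc (Hm μ g a0 n0 a1 n1) C s
        - crr (Crit p T0 a0 n0) (Zc M0) C s - crr (Crit p T0 a1 n1) (Zc M1) C s
        - crr (Crit p T0 (a0 + a1 + m) (n0 + n1)) (Zc Φ) C s)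
      ((((addF_Zc okH.H1).sub ((addF_Zc okM0.H1).crr _)).sub ((addF_Zc okM1.H1).crr _)).sub
        ((addF_Zc okΦ.H1).crr _)) (by
        intro L C hC s hs
        beta_reduce
        rw [Zc_blow L okH hC hs, hblow _ M0 okM0 L C hC s hs, hblow _ M1 okM1 L C hC s hs,
          hblow _ Φ okΦ L C hC s hs]
        ring) hF1 hF2
    refine (hF.add (LReg.of_all (0, 0) hΦreg)).congr isOpen_univ trivial fun C _ _ s _ => ?_
    ring

end Pool.Agent.N138.PA
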