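import Pool.Agent.N138.PA.MainC

set_option autoImplicit false
set_option linter.unusedSectionVars false
set_option linter.unusedVariables false

/-! # The models at the critical curves: proportional leading forms -/

namespace Pool.Agent.N138.PA

open MeasureTheory Set Pool.Agent.W427.SMC Pool.Agent.Y230.PT
open scoped ENNReal
open Pool.Agent.Y230.RE

variable {p : ℕ} [Fact p.Prime]

attribute [local instance] msK bsK

/-- the form of degree `m` whose dehomogenization is `P` -/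
noncomputable def hm (m : ℕ) (P : Polynomial ℚ_[p]) (x : ℚ_[p] × ℚ_[p]) : ℚ_[p] :=
  ∑ i ∈ Finset.range (m + 1), P.coeff i * (x.1 ^ (m - i) * x.2 ^ i)

theorem hm_cont (m : ℕ) (P : Polynomial ℚ_[p]) : Continuous (hm m P) := by
  unfold hm
  exact continuous_finsetSum _ fun i _ => by fun_prop

theorem hm_c1 (m : ℕ) (P : Polynomial ℚ_[p]) (hd : P.natDegree ≤ m) (x : ℚ_[p] × ℚ_[p]) :
    hm m P (c1 x) = x.1 ^ m * P.eval x.2 := by
  rw [Polynomial.eval_eq_sum_range' (Nat.lt_succ_of_le hd), Finset.mul_sum]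
  refine Finset.sum_congr rfl fun i hi => ?_
  have hi' : i ≤ m := by
    rw [Finset.mem_range] at hi
    omega
  change P.coeff i * (x.1 ^ (m - i) * (x.1 * x.2) ^ i) = _
  have h1 : x.1 ^ m = x.1 ^ (m - i) * x.1 ^ i := by rw [← pow_add]; congr 1; omega
  rw [h1, mul_pow]
  ring

theorem hm_c2 (m : ℕ) (P Q : Polynomial ℚ_[p]) (hQ : ∀ i ≤ m, Q.coeff i = P.coeff (m - i))
    (hd : Q.natDegree ≤ m) (x : ℚ_[p] × ℚ_[p]) : hm m P (c2 x) = x.2 ^ m * Q.eval x.1 := by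
  rw [Polynomial.eval_eq_sum_range' (Nat.lt_succ_of_le hd), Finset.mul_sum]
  unfold hm
  rw [← Finset.sum_range_reflect]
  refine Finset.sum_congr rfl fun i hi => ?_
  have hi' : i ≤ m := by
    rw [Finset.mem_range] at hi
    omega
  rw [hQ i hi']
  have e1 : m + 1 - 1 - i = m - i := by omega
  have e2 : m - (m - i) = i := by omega
  rw [e1, e2]
  change P.coeff (m - i) * ((x.1 * x.2) ^ i * x.2 ^ (m - i)) = _
  have h1 : x.2 ^ m = x.2 ^ i * x.2 ^ (m - i) := by rw [← pow_add]; congr 1; omega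
  rw [h1, mul_pow]
  ring

theorem dense_ne : Dense {x : ℚ_[p] × ℚ_[p] | x.1 ≠ 0} := by
  have h : {x : ℚ_[p] × ℚ_[p] | x.1 ≠ 0} = {x : ℚ_[p] | x ≠ 0} ×ˢ Set.univ := by
    ext x
    simp
  rw [h]
  exact (dense_compl_singleton (0 : ℚ_[p])).prod dense_univ

theorem hm_of (m : ℕ) (P : Polynomial ℚ_[p]) (hd : P.natDegree ≤ m) (F : ℚ_[p] × ℚ_[p] → ℚ_[p])
    (hF : Continuous F) (h : ∀ u v, F (u, u * v) = u ^ m * P.eval v) (x : ℚ_[p] × ℚ_[p]) :
    hm m P x = F x := by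
  refine congrFun ((hm_cont m P).ext_on dense_ne hF fun x hx => ?_) x
  have h1 : x = c1 (x.1, x.2 / x.1) := by
    rw [c1]
    simp only
    rw [mul_div_cancel₀ _ hx]
  rw [h1, hm_c1 m P hd]
  exact (h _ _).symm

variable {ι : Type} [Fintype ι] {T0 : ℂ} {μ : (ι → ℚ_[p]) → ℝ → ℝ≥0∞}

/-- the model given by the leading forms -/
noncomputable def Fm (μ : (ι → ℚ_[p]) → ℝ → ℝ≥0∞) (m : ℕ) (P : ι → Polynomial ℚ_[p])
    (a0 n0 a1 n1 : ℕ) (s : ℝ) (x : ℚ_[p] × ℚ_[p]) : ℝ≥0∞ :=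
  μ (fun j => hm m (P j) x) s * (w s a0 n0 x.1 * w s a1 n1 x.2)

theorem ok_Fm (hμ : IsMu T0 μ) (m : ℕ) (P : ι → Polynomial ℚ_[p]) (a0 n0 a1 n1 : ℕ) :
    Ok (Fm μ m P a0 n0 a1 n1) :=
  (hμ.ok (fun j x => hm m (P j) x) (fun j => hm_cont m (P j))).mul
    ((ok_w (fun x => x.1) continuous_fst a0 n0).mul (ok_w (fun x => x.2) continuous_snd a1 n1))

/-- regularity on all the compact open sets -/
def RA (T0 : ℂ) (H : ℝ → ℚ_[p] × ℚ_[p] → ℝ≥0∞) : Prop := ∀ C, CO C → Reg p T0 0 (Zc H C)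

theorem hE_of (hμ : IsMu T0 μ) (g : ι → A ℚ_[p]) (a0 n0 a1 n1 m : ℕ) (hn0 : 1 ≤ n0) (hn1 : 1 ≤ n1)
    (gc : ℚ_[p] → ι → A ℚ_[p]) (gI : ι → A ℚ_[p])
    (hgc : ∀ c j, MvPolynomial.aeval (ch c) (g j) = MvPolynomial.X 0 ^ m * gc c j)
    (hgI : ∀ j, MvPolynomial.aeval chI (g j) = MvPolynomial.X 1 ^ m * gI j)
    (hreg : RA T0 (Fm μ m (fun j => r0 (gc 0 j)) a0 n0 a1 n1)) :
    ∃ Φ : ℝ → ℚ_[p] × ℚ_[p] → ℝ≥0∞, Ok Φ ∧ (∀ C, CO C → Reg p T0 0 (Zc Φ C)) ∧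
        (∀ (s : ℝ) (x : ℚ_[p] × ℚ_[p]), 0 ≤ s → H1 Φ s x =
          μ (fun j => (r0 (gc 0 j)).eval x.2) s *
            (w s (a0 + a1 + m) (n0 + n1) x.1 * w s a1 n1 x.2)) ∧
        (∀ (s : ℝ) (x : ℚ_[p] × ℚ_[p]), 0 ≤ s → H2 Φ s x =
          μ (fun j => (r1 (gI j)).eval x.1) s *
            (w s a0 n0 x.1 * w s (a0 + a1 + m) (n0 + n1) x.2)) := by
  have hdeg : ∀ j, (r0 (gc 0 j)).natDegree ≤ m := by
    intro j
    rw [r0_lead (hgc 0 j)]
    exact om_deg _ _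
  have hdegI : ∀ j, (r1 (gI j)).natDegree ≤ m := by
    intro j
    rw [r1_lead (hgI j)]
    exact omI_deg _ _
  refine ⟨Fm μ m (fun j => r0 (gc 0 j)) a0 n0 a1 n1, ok_Fm hμ _ _ _ _ _ _, hreg, ?_, ?_⟩
  · intro s x _
    unfold H1 Fm
    have h1 : (fun j => hm m (r0 (gc 0 j)) (c1 x)) = fun j => x.1 ^ m * (r0 (gc 0 j)).eval x.2 := by
      funext j
      exact hm_c1 m _ (hdeg j) x
    rw [h1, hμ.smul, w_add, w_add' s a0 a1 n0 n1 hn0 hn1, N_pow]
    change N p 1 x.1 * (_ * (w s a0 n0 x.1 * w s a1 n1 (x.1 * x.2))) = _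
    rw [w_mul]
    ring
  · intro s x _
    unfold H2 Fm
    have h1 : (fun j => hm m (r0 (gc 0 j)) (c2 x)) = fun j => x.2 ^ m * (r1 (gI j)).eval x.1 := by
      funext j
      exact hm_c2 m _ _ (fun i hi => r1_lead' (hgc 0 j) (hgI j) i hi) (hdegI j) x
    rw [h1, hμ.smul, w_add, w_add' s a0 a1 n0 n1 hn0 hn1, N_pow]
    change N p 1 x.2 * (_ * (w s a0 n0 (x.1 * x.2) * w s a1 n1 x.2)) = _
    rw [w_mul]
    ring

/-- **Proportional leading forms.** -/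
theorem RA_prop (hT0 : T0 ≠ 0) (hμ : IsMu T0 μ) {P : Polynomial ℚ_[p]} {m a0 n0 a1 n1 : ℕ}
    (hn0 : 1 ≤ n0) (hn1 : 1 ≤ n1) {γ : ℚ_[p]} {μ0 : ℕ} {T : Finset ℚ_[p]} {ν : ℚ_[p] → ℕ}
    (hS : Spec T0 P m a0 n0 a1 n1 γ μ0 T ν) (lam : ι → ℚ_[p]) (hlam : ∃ j, lam j ≠ 0)
    (Q : ι → Polynomial ℚ_[p]) (hQ : ∀ j, Q j = Polynomial.C (lam j) * P) :
    RA T0 (Fm μ m Q a0 n0 a1 n1) := by
  intro C hC
  set d := μ0 + ∑ c ∈ T, ν c with hd
  have hdm : d ≤ m := hS.hdeg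
  have hdP : P.natDegree = d := (spec_deg hS).1
  have hP : ∀ x, hm m P x = γ * (x.1 ^ (m - d) * x.2 ^ μ0 * Pool.Agent.Y230.PT.Lp T ν x) := by
    refine hm_of m P (by omega) _ ?_ ?_
    · exact continuous_const.mul ((by fun_prop : Continuous fun x : ℚ_[p] × ℚ_[p] =>
        x.1 ^ (m - d) * x.2 ^ μ0).mul (Lp_cont T ν))
    · intro u v
      have h1 : Pool.Agent.Y230.PT.Lp T ν (u, u * v) = u ^ (∑ c ∈ T, ν c) * ∏ c ∈ T, (v - c) ^ ν c := by
        unfold Pool.Agent.Y230.PT.Lp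
        rw [← Finset.prod_pow_eq_pow_sum, ← Finset.prod_mul_distrib]
        refine Finset.prod_congr rfl fun c _ => ?_
        rw [← mul_pow]
        congr 1
        simp only
        ring
      have h2 : P.eval v = γ * (v ^ μ0 * ∏ c ∈ T, (v - c) ^ ν c) := by
        conv_lhs => rw [hS.hP]
        rw [Polynomial.eval_mul, Polynomial.eval_C, Polynomial.eval_mul, Polynomial.eval_pow,
          Polynomial.eval_X, Polynomial.eval_prod]
        simp only [Polynomial.eval_pow, Polynomial.eval_sub, Polynomial.eval_X, Polynomial.eval_C]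
      rw [h1, h2]
      simp only
      have h3 : u ^ m = u ^ (m - d) * (u ^ μ0 * u ^ (∑ c ∈ T, ν c)) := by
        rw [← pow_add, ← pow_add]
        congr 1
        omega
      rw [h3, mul_pow]
      ring
  have hmQ : ∀ j x, hm m (Q j) x = lam j * hm m P x := by
    intro j x
    unfold hm
    rw [Finset.mul_sum]
    refine Finset.sum_congr rfl fun i _ => ?_
    rw [hQ, Polynomial.coeff_C_mul]
    ring
  refine ((hμ.reg lam hlam).mul0 (Ph_reg hT0 hn0 hn1 hS (fun _ : Unit => γ) ⟨(), hS.hγ⟩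
    hC)).congr fun s hs => ?_
  unfold Zc
  rw [← Complex.ofReal_mul, ← ENNReal.toReal_mul, ← lintegral_const_mul' _ _ (hμ.top lam s hs)]
  congr 3
  funext x
  unfold Fm Ph
  have h4 : (fun j => hm m (Q j) x) = fun j => lam j * hm m P x := by
    funext j
    exact hmQ j x
  have h5 : mx (fun _ : Unit => γ) s = N p s γ := by
    unfold mx
    exact ciSup_const
  rw [h4, hμ.smul', hP, N_mul, N_mul, N_mul, N_pow, N_pow, h5, w_add, w_add]
  ring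

end Pool.Agent.N138.PA
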