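import Pool.Agent.Y230.PT.Node

set_option autoImplicit false
set_option linter.unusedSectionVars false

/-! # Integrands given by a homogeneous function of a family: the leaves -/

namespace Pool.Agent.N138.PA

open MeasureTheory Set Pool.Agent.W427.SMC Pool.Agent.Y230.PT
open scoped ENNReal
open Pool.Agent.Y230.RE

variable {p : ℕ} [Fact p.Prime]

attribute [local instance] msK bsK

variable {ι : Type} [Fintype ι]

/-- a homogeneous function on `ℚ_p ^ ι`, locally constant outside the origin, with values which are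
regular at `T0` -/
structure IsMu (T0 : ℂ) (μ : (ι → ℚ_[p]) → ℝ → ℝ≥0∞) : Prop where
  smul : ∀ (c : ℚ_[p]) (h : ι → ℚ_[p]) (s : ℝ), μ (fun j => c * h j) s = N p s c * μ h s
  near : ∀ {X : Type} [TopologicalSpace X] (f : ι → X → ℚ_[p]) (_ : ∀ j, Continuous (f j)) (x0 : X)
    (_ : ∃ j, f j x0 ≠ 0), ∃ U, IsOpen U ∧ x0 ∈ U ∧ ∀ x ∈ U, ∀ s : ℝ, 0 ≤ s →
      μ (fun j => f j x) s = μ (fun j => f j x0) s
  top : ∀ (h : ι → ℚ_[p]) (s : ℝ), 0 ≤ s → μ h s ≠ ⊤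
  reg : ∀ h : ι → ℚ_[p], (∃ j, h j ≠ 0) → Reg p T0 0 (fun s => ((μ h s).toReal : ℂ))
  ok : ∀ f : ι → (ℚ_[p] × ℚ_[p]) → ℚ_[p], (∀ j, Continuous (f j)) →
    Ok (fun s x => μ (fun j => f j x) s)

variable {T0 : ℂ} {μ : (ι → ℚ_[p]) → ℝ → ℝ≥0∞}

theorem IsMu.smul' (hμ : IsMu T0 μ) (c : ℚ_[p]) (h : ι → ℚ_[p]) (s : ℝ) :
    μ (fun j => h j * c) s = μ h s * N p s c := by
  rw [mul_comm, ← hμ.smul]
  simp only [mul_comm]

variable (μ) in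
/-- the integrand of a node -/
noncomputable def Hm (g : ι → A ℚ_[p]) (a0 n0 a1 n1 : ℕ) (s : ℝ) (x : ℚ_[p] × ℚ_[p]) : ℝ≥0∞ :=
  μ (fun j => ev x (g j)) s * (w s a0 n0 x.1 * w s a1 n1 x.2)

variable (μ) in
/-- the monomial integrand -/
noncomputable def Mm (h : ι → ℚ_[p]) (a0 n0 a1 n1 : ℕ) (s : ℝ) (x : ℚ_[p] × ℚ_[p]) : ℝ≥0∞ :=
  μ h s * (w s a0 n0 x.1 * w s a1 n1 x.2)

theorem ok_Hm (hμ : IsMu T0 μ) (g : ι → A ℚ_[p]) (a0 n0 a1 n1 : ℕ) : Ok (Hm μ g a0 n0 a1 n1) :=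
  (hμ.ok (fun j x => ev x (g j)) (fun j => ev_cont (g j))).mul
    ((ok_w (fun x => x.1) continuous_fst a0 n0).mul (ok_w (fun x => x.2) continuous_snd a1 n1))

theorem ok_Mm (hμ : IsMu T0 μ) (h : ι → ℚ_[p]) (a0 n0 a1 n1 : ℕ) : Ok (Mm μ h a0 n0 a1 n1) :=
  (hμ.ok (fun j _ => h j) (fun _ => continuous_const)).mul
    ((ok_w (fun x => x.1) continuous_fst a0 n0).mul (ok_w (fun x => x.2) continuous_snd a1 n1))

theorem Hm_c1 (hμ : IsMu T0 μ) (g g0 : ι → A ℚ_[p]) (m : ℕ)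
    (hg : ∀ j, MvPolynomial.aeval (ch 0) (g j) = MvPolynomial.X 0 ^ m * g0 j)
    (a0 n0 a1 n1 : ℕ) (hn0 : 1 ≤ n0) (hn1 : 1 ≤ n1) (s : ℝ) (x : ℚ_[p] × ℚ_[p]) :
    H1 (Hm μ g a0 n0 a1 n1) s x = Hm μ g0 (a0 + a1 + m) (n0 + n1) a1 n1 s x := by
  unfold H1 Hm
  have h1 : (fun j => ev (c1 x) (g j)) = fun j => x.1 ^ m * ev x (g0 j) := by
    funext j
    exact ev_c1 x (g j) (g0 j) m (hg j)
  rw [h1, hμ.smul, w_add, w_add' s a0 a1 n0 n1 hn0 hn1, N_pow]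
  change N p 1 x.1 * (_ * (w s a0 n0 x.1 * w s a1 n1 (x.1 * x.2))) = _
  rw [w_mul]
  ring

theorem Hm_c2 (hμ : IsMu T0 μ) (g gI : ι → A ℚ_[p]) (m : ℕ)
    (hg : ∀ j, MvPolynomial.aeval chI (g j) = MvPolynomial.X 1 ^ m * gI j)
    (a0 n0 a1 n1 : ℕ) (hn0 : 1 ≤ n0) (hn1 : 1 ≤ n1) (s : ℝ) (x : ℚ_[p] × ℚ_[p]) :
    H2 (Hm μ g a0 n0 a1 n1) s x = Hm μ gI a0 n0 (a0 + a1 + m) (n0 + n1) s x := by
  unfold H2 Hm
  have h1 : (fun j => ev (c2 x) (g j)) = fun j => x.2 ^ m * ev x (gI j) := by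
    funext j
    exact ev_c2 x (g j) (gI j) m (hg j)
  rw [h1, hμ.smul, w_add, w_add' s a0 a1 n0 n1 hn0 hn1, N_pow]
  change N p 1 x.2 * (_ * (w s a0 n0 (x.1 * x.2) * w s a1 n1 x.2)) = _
  rw [w_mul]
  ring

theorem Mm_c1 (h : ι → ℚ_[p]) (a0 n0 a1 n1 : ℕ) (hn0 : 1 ≤ n0) (hn1 : 1 ≤ n1) (s : ℝ)
    (x : ℚ_[p] × ℚ_[p]) :
    H1 (Mm μ h a0 n0 a1 n1) s x = Mm μ h (a0 + a1) (n0 + n1) a1 n1 s x := by
  unfold H1 Mm
  rw [w_add' s a0 a1 n0 n1 hn0 hn1]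
  change N p 1 x.1 * (_ * (w s a0 n0 x.1 * w s a1 n1 (x.1 * x.2))) = _
  rw [w_mul]
  ring

theorem Mm_c2 (h : ι → ℚ_[p]) (a0 n0 a1 n1 : ℕ) (hn0 : 1 ≤ n0) (hn1 : 1 ≤ n1) (s : ℝ)
    (x : ℚ_[p] × ℚ_[p]) :
    H2 (Mm μ h a0 n0 a1 n1) s x = Mm μ h a0 n0 (a0 + a1) (n0 + n1) s x := by
  unfold H2 Mm
  rw [w_add' s a0 a1 n0 n1 hn0 hn1]
  change N p 1 x.2 * (_ * (w s a0 n0 (x.1 * x.2) * w s a1 n1 x.2)) = _
  rw [w_mul]
  ring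

/-- translation to a point of the exceptional curve -/
theorem Hm_shift (g0 gc : ι → A ℚ_[p]) (c : ℚ_[p])
    (hg : ∀ j, gc j = MvPolynomial.aeval ![MvPolynomial.X 0, MvPolynomial.X 1 +
      MvPolynomial.C c] (g0 j)) (a n a1 n1 : ℕ) (s : ℝ) (x : ℚ_[p] × ℚ_[p])
    (hx : ‖c + x.2‖ = ‖c‖) :
    Hm μ g0 a n a1 n1 s (x.1, c + x.2) = w s a1 n1 c * Hm μ gc a n 0 1 s x := by
  unfold Hm
  have h1 : (fun j => ev (x.1, c + x.2) (g0 j)) = fun j => ev x (gc j) := by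
    funext j
    rw [hg, ev_shift]
  rw [h1, w01]
  simp only
  rw [w_norm s a1 n1 hx]
  ring

theorem Mm_mon (h : ι → ℚ_[p]) (a0 n0 a1 n1 : ℕ) (hμ : IsMu T0 μ) (C : Set (ℚ_[p] × ℚ_[p]))
    (s : ℝ) (hs : 0 ≤ s) : Zc (Mm μ h a0 n0 a1 n1) C s =
      ((μ h s).toReal : ℂ) * Zc (Pool.Agent.Y230.PT.mon 1 a0 n0 a1 n1) C s := by
  unfold Zc Mm Pool.Agent.Y230.PT.mon
  rw [lintegral_const_mul' _ _ (hμ.top h s hs), ENNReal.toReal_mul]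
  simp only [N_one, one_mul]
  push_cast
  rfl

theorem Mm_reg (hT0 : T0 ≠ 0) (hμ : IsMu T0 μ) (h : ι → ℚ_[p]) (hne : ∃ j, h j ≠ 0)
    {a0 n0 a1 n1 : ℕ} (hn0 : 1 ≤ n0) (hn1 : 1 ≤ n1) (h0 : ¬ Crit p T0 a0 n0)
    (h1 : ¬ Crit p T0 a1 n1) {C : Set (ℚ_[p] × ℚ_[p])} (hC : CO C) :
    Reg p T0 0 (Zc (Mm μ h a0 n0 a1 n1) C) :=
  ((hμ.reg h hne).mul0 (reg_mon hT0 1 one_ne_zero a0 n0 a1 n1 hn0 hn1 h0 h1 C hC)).congr
    fun s hs => (Mm_mon h a0 n0 a1 n1 hμ C s hs).symm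

/-- near a point of `u = 0` other than the origin -/
theorem Mm_lreg (hT0 : T0 ≠ 0) (hμ : IsMu T0 μ) (h : ι → ℚ_[p]) (hne : ∃ j, h j ≠ 0)
    {a0 n0 a1 n1 : ℕ} (hn0 : 1 ≤ n0) (h0 : ¬ Crit p T0 a0 n0) (c : ℚ_[p]) (hc : c ≠ 0) :
    LReg T0 0 (Zc (Mm μ h a0 n0 a1 n1)) (0, c) := by
  obtain ⟨U, hU, hcU, hU2⟩ := norm_const_near (fun x : ℚ_[p] × ℚ_[p] => x.2) continuous_snd (0, c) hc
  refine (LReg.mul (c := fun s => ((w s a1 n1 c).toReal : ℂ)) (LReg.of_all (0, c) (fun C hC =>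
    Mm_reg hT0 hμ h hne (a1 := 0) (n1 := 1) hn0 le_rfl h0 not_crit01 hC))
    (reg_w hT0 a1 n1 c hc)).congr hU hcU ?_
  intro C hC hCU s hs
  unfold Zc
  rw [← Complex.ofReal_mul, ← ENNReal.toReal_mul, ← lintegral_const_mul' _ _ (w_ne_top _ _ _ _)]
  congr 2
  refine setLIntegral_congr_fun hC.meas fun x hx => ?_
  unfold Mm
  rw [w01, w_norm s a1 n1 (show ‖x.2‖ = ‖c‖ from hU2 x (hCU hx))]
  ring

theorem Hm_unit (hμ : IsMu T0 μ) (g : ι → A ℚ_[p]) (j : ι)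
    (hj : MvPolynomial.constantCoeff (g j) ≠ 0)
    (a0 n0 a1 n1 : ℕ) : ∃ U, IsOpen U ∧ ((0, 0) : ℚ_[p] × ℚ_[p]) ∈ U ∧ ∀ C, CO C → C ⊆ U →
      ∀ s : ℝ, 0 ≤ s → Zc (Hm μ g a0 n0 a1 n1) C s =
        Zc (Mm μ (fun j => MvPolynomial.constantCoeff (g j)) a0 n0 a1 n1) C s := by
  obtain ⟨U, hU, h0U, hU2⟩ := hμ.near (fun j x => ev x (g j)) (fun j => ev_cont (g j)) (0, 0)
    ⟨j, by rw [ev_zero]; exact hj⟩
  refine ⟨U, hU, h0U, fun C hC hCU s hs => Zc_congr hC fun x hx => ?_⟩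
  unfold Hm Mm
  rw [hU2 x (hCU hx) s hs]
  simp only [ev_zero]

theorem Hm_curve (hμ : IsMu T0 μ) (g : ι → A ℚ_[p]) (m : ℕ) (h : A ℚ_[p]) (k : ι → A ℚ_[p])
    (hg : ∀ j, g j = h ^ m * k j) (h0 : MvPolynomial.constantCoeff h = 0)
    (h1 : MvPolynomial.constantCoeff (MvPolynomial.pderiv 1 h) ≠ 0) (j : ι)
    (hj : MvPolynomial.constantCoeff (k j) ≠ 0) (a0 n0 : ℕ) :
    ∃ (κ : ℕ) (U : Set (ℚ_[p] × ℚ_[p])) (B : ℚ_[p] × ℚ_[p] → ℚ_[p]), IsOpen U ∧ (0, 0) ∈ U ∧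
      IsO (fun j => r0 (g j)) m ∧
      ∀ y l, bx κ y l ⊆ U → (∀ s : ℝ, 0 ≤ s → Zc (Hm μ g a0 n0 0 1) (bx κ y l) s =
        ((μ (fun j => (r0 (g j)).coeff m) s).toReal : ℂ) *
          (((I1 s a0 n0 y.1 (l + κ)).toReal : ℂ) * ((I1 s m 1 (B y) l).toReal : ℂ))) ∧
        (‖y.1‖ ≤ qr p ^ (l + κ) → ∀ s : ℝ, I1 s m 1 (B y) l = I1 s m 1 y.2 l) := by
  set δ := MvPolynomial.constantCoeff (MvPolynomial.pderiv 1 h) with hδ
  set h' : A ℚ_[p] := MvPolynomial.C δ⁻¹ * h with hh'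
  set k' : ι → A ℚ_[p] := fun j => MvPolynomial.C (δ ^ m) * k j with hk'
  have hg' : ∀ j, g j = h' ^ m * k' j := by
    intro j
    rw [hg, hh', hk', mul_pow, ← map_pow]
    simp only
    have : (MvPolynomial.C (δ⁻¹ ^ m) : A ℚ_[p]) * MvPolynomial.C (δ ^ m) = 1 := by
      rw [← map_mul, inv_pow, inv_mul_cancel₀ (pow_ne_zero _ h1), map_one]
    linear_combination (-(h ^ m * k j)) * this
  have h0' : MvPolynomial.constantCoeff h' = 0 := by rw [hh', map_mul, h0, mul_zero]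
  have h1' : MvPolynomial.constantCoeff (MvPolynomial.pderiv 1 h') = 1 := by
    rw [hh', MvPolynomial.pderiv_C_mul, map_mul, MvPolynomial.constantCoeff_C, ← hδ,
      inv_mul_cancel₀ h1]
  have hj' : MvPolynomial.constantCoeff (k' j) ≠ 0 := by
    rw [hk', map_mul, MvPolynomial.constantCoeff_C]
    exact mul_ne_zero (pow_ne_zero _ h1) hj
  obtain ⟨q, hq⟩ : Polynomial.X ∣ r0 h' := by
    rw [Polynomial.X_dvd_iff, r0_coeff, ← cc_eq, h0']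
  have hq0 : q.coeff 0 = 1 := by
    have h2 := r0_pderiv h'
    rw [h1', hq] at h2
    have h3 := Polynomial.coeff_X_mul q 0
    rw [zero_add] at h3
    rw [← h3, h2]
  have hres : ∀ i, r0 (g i) = (Polynomial.X * q) ^ m * r0 (k' i) := by
    intro i
    rw [hg', map_mul, map_pow, hq]
  have hcm : ∀ i, (r0 (g i)).coeff m = ev (0, 0) (k' i) := by
    intro i
    rw [hres, (pow_coeff q _ m).2, hq0, one_pow, one_mul, ev_zero, r0_coeff, cc_eq]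
  have hIsO : IsO (fun j => r0 (g j)) m := by
    refine ⟨fun i d hd => ?_, j, ?_⟩
    · simp only
      rw [hres]
      exact (pow_coeff q _ m).1 d hd
    · simp only
      rw [hcm, ev_zero]
      exact hj'
  obtain ⟨U1, hU1, h0U1, hU12⟩ := hμ.near (fun j x => ev x (k' j))
    (fun j => ev_cont (k' j)) (0, 0) ⟨j, by rw [ev_zero]; exact hj'⟩
  obtain ⟨ε, κ, hε, hv, hu⟩ := curve_local h' h1'
  refine ⟨κ, U1 ∩ (Metric.ball 0 ε ×ˢ Metric.ball 0 ε), fun y => ev y h',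
    hU1.inter (Metric.isOpen_ball.prod Metric.isOpen_ball),
    ⟨h0U1, ⟨Metric.mem_ball_self hε, Metric.mem_ball_self hε⟩⟩, hIsO, fun y l hy => ⟨?_, ?_⟩⟩
  · intro s hs
    have h2 : ∀ x ∈ bx κ y l, Hm μ g a0 n0 0 1 s x = μ (fun j => (r0 (g j)).coeff m) s *
        (w s a0 n0 x.1 * w s m 1 (ev x h')) := by
      intro x hx
      unfold Hm
      have h3 : (fun j => ev x (g j)) = fun j => ev x h' ^ m * ev x (k' j) := by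
        funext i
        rw [hg', map_mul, map_pow]
      rw [h3, hμ.smul, hU12 x (hy hx).1 s hs, w01]
      have h4 : (fun j => (r0 (g j)).coeff m) = fun j => ev (0, 0) (k' j) := funext hcm
      rw [h4]
      have h5 : w s m 1 (ev x h') = N p s (ev x h' ^ m) := by
        rw [w, N_pow, Nat.sub_self, pow_zero, mul_one]
      rw [h5]
      ring
    unfold Zc
    rw [setLIntegral_congr_fun (CO_bx κ y l).meas h2, lintegral_const_mul' _ _ (hμ.top _ s hs),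
      curve_box h' hs a0 n0 m ε κ hv hu y l (hy.trans Set.inter_subset_right), ENNReal.toReal_mul,
      ENNReal.toReal_mul]
    push_cast
    rfl
  · intro hy1 s
    have hmem : ∀ x ∈ bx κ y l, ‖x.1‖ < ε ∧ ‖x.2‖ < ε := by
      intro x hx
      have := (hy hx).2
      rw [Set.mem_prod, Metric.mem_ball, Metric.mem_ball, dist_zero_right, dist_zero_right] at this
      exact this
    have hyB := hmem y (self_mem_bx κ y l)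
    have h0B : ‖(0 : ℚ_[p])‖ < ε := by rw [norm_zero]; exact hε
    have h2 := hu y.1 0 y.2 hyB.1 h0B hyB.2
    rw [sub_zero] at h2
    have h3 : ‖ev y h' - ev (0, y.2) h'‖ ≤ qr p ^ l := by
      rw [pow_add] at hy1
      exact le_of_mul_le_mul_right (h2.trans hy1) (pow_pos qr_pos κ)
    rw [I1_ball s m 1 l (b := ev (0, y.2) h') (b' := ev y h') (by rw [mem_bl]; exact h3)]
    refine I1_norm s m 1 l ?_
    have h4 := hv 0 y.2 0 h0B hyB.2 h0B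
    rw [ev_zero, h0', sub_zero, sub_zero] at h4
    exact h4

theorem Hm_sw (g : ι → A ℚ_[p]) (a0 n0 a1 n1 : ℕ) (s : ℝ) (x : ℚ_[p] × ℚ_[p]) :
    Hm μ (fun j => sw (g j)) a1 n1 a0 n0 s x = Hm μ g a0 n0 a1 n1 s x.swap := by
  unfold Hm
  simp only [ev_sw]
  rw [mul_comm (w s a1 n1 x.1)]
  rfl

theorem Mm_sw (h : ι → ℚ_[p]) (a0 n0 a1 n1 : ℕ) (s : ℝ) (x : ℚ_[p] × ℚ_[p]) :
    Mm μ h a1 n1 a0 n0 s x = Mm μ h a0 n0 a1 n1 s x.swap := by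
  unfold Mm
  rw [mul_comm (w s a1 n1 x.1)]
  rfl

theorem Zc_Hm_sw (g : ι → A ℚ_[p]) (a0 n0 a1 n1 : ℕ) (C : Set (ℚ_[p] × ℚ_[p])) (s : ℝ) :
    Zc (Hm μ g a0 n0 a1 n1) C s =
      Zc (Hm μ (fun j => sw (g j)) a1 n1 a0 n0) (Prod.swap ⁻¹' C) s := by
  rw [Zc_swap]
  unfold Zc
  simp only [Hm_sw]

theorem Zc_Mm_sw (h : ι → ℚ_[p]) (a0 n0 a1 n1 : ℕ) (C : Set (ℚ_[p] × ℚ_[p])) (s : ℝ) :
    Zc (Mm μ h a0 n0 a1 n1) C s = Zc (Mm μ h a1 n1 a0 n0) (Prod.swap ⁻¹' C) s := by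
  rw [Zc_swap]
  unfold Zc
  have : ∀ x, Mm μ h a1 n1 a0 n0 s x = Mm μ h a0 n0 a1 n1 s x.swap := Mm_sw h a0 n0 a1 n1 s
  simp only [this]

/-- regularity with the corrections -/
def CC (T0 : ℂ) (μ : (ι → ℚ_[p]) → ℝ → ℝ≥0∞) (g : ι → A ℚ_[p]) (a0 n0 a1 n1 : ℕ) : Prop :=
  ∀ ρ0 ρ1 : ℕ, (Crit p T0 a0 n0 → IsO (fun j => r0 (g j)) ρ0) →
    (Crit p T0 a1 n1 → IsO (fun j => r1 (g j)) ρ1) →
    LReg T0 0 (fun C s => Zc (Hm μ g a0 n0 a1 n1) C s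
      - crr (Crit p T0 a0 n0) (Zc (Mm μ (fun j => (r0 (g j)).coeff ρ0) a0 n0 (a1 + ρ0) n1)) C s
      - crr (Crit p T0 a1 n1) (Zc (Mm μ (fun j => (r1 (g j)).coeff ρ1) (a0 + ρ1) n0 a1 n1)) C s)
      (0, 0)

theorem CC.swap {g : ι → A ℚ_[p]} {a0 n0 a1 n1 : ℕ}
    (h : CC T0 μ (fun j => sw (g j)) a1 n1 a0 n0) : CC T0 μ g a0 n0 a1 n1 := by
  intro ρ0 ρ1 h0 h1
  have h2 := h ρ1 ρ0 (by simpa only [r0_sw] using h1) (by simpa only [r1_sw] using h0)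
  refine lreg_swap (x := (0, 0)) ?_ h2
  intro C hC s hs
  simp only [r0_sw, r1_sw]
  rw [Zc_Hm_sw]
  have e0 : crr (Crit p T0 a0 n0)
        (Zc (Mm μ (fun j => (r0 (g j)).coeff ρ0) a0 n0 (a1 + ρ0) n1)) C s =
      crr (Crit p T0 a0 n0) (Zc (Mm μ (fun j => (r0 (g j)).coeff ρ0) (a1 + ρ0) n1 a0 n0))
        (Prod.swap ⁻¹' C) s := by
    by_cases hc : Crit p T0 a0 n0
    · rw [crr_true hc, crr_true hc, Zc_Mm_sw]
    · rw [crr_false hc, crr_false hc]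
  have e1 : crr (Crit p T0 a1 n1)
        (Zc (Mm μ (fun j => (r1 (g j)).coeff ρ1) (a0 + ρ1) n0 a1 n1)) C s =
      crr (Crit p T0 a1 n1) (Zc (Mm μ (fun j => (r1 (g j)).coeff ρ1) a1 n1 (a0 + ρ1) n0))
        (Prod.swap ⁻¹' C) s := by
    by_cases hc : Crit p T0 a1 n1
    · rw [crr_true hc, crr_true hc, Zc_Mm_sw]
    · rw [crr_false hc, crr_false hc]
  rw [e0, e1]
  ring

theorem CC_unit (hT0 : T0 ≠ 0) (hμ : IsMu T0 μ) (g : ι → A ℚ_[p]) (j : ι)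
    (hj : MvPolynomial.constantCoeff (g j) ≠ 0) {a0 n0 a1 n1 : ℕ} (hn0 : 1 ≤ n0) (hn1 : 1 ≤ n1)
    (hcr : ¬ (Crit p T0 a0 n0 ∧ Crit p T0 a1 n1)) : CC T0 μ g a0 n0 a1 n1 := by
  intro ρ0 ρ1 h0 h1
  obtain ⟨U, hU, h0U, hU2⟩ := Hm_unit hμ g j hj a0 n0 a1 n1
  have hr0 : IsO (fun j => r0 (g j)) 0 := ⟨fun i k hk => absurd hk (Nat.not_lt_zero k), j, by
    simp only; rw [r0_coeff, ← cc_eq]; exact hj⟩
  have hr1 : IsO (fun j => r1 (g j)) 0 := ⟨fun i k hk => absurd hk (Nat.not_lt_zero k), j, by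
    simp only; rw [r1_coeff, ← cc_eq]; exact hj⟩
  by_cases hc0 : Crit p T0 a0 n0
  · have hc1 : ¬ Crit p T0 a1 n1 := fun h => hcr ⟨hc0, h⟩
    have hρ : ρ0 = 0 := (h0 hc0).unique hr0
    subst hρ
    refine LReg.zero.congr hU h0U fun C hC hCU s hs => ?_
    rw [crr_true hc0, crr_false hc1, hU2 C hC hCU s hs, add_zero, sub_zero]
    simp only [r0_coeff, ← cc_eq, sub_self]
  · by_cases hc1 : Crit p T0 a1 n1
    · have hρ : ρ1 = 0 := (h1 hc1).unique hr1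
      subst hρ
      refine LReg.zero.congr hU h0U fun C hC hCU s hs => ?_
      rw [crr_true hc1, crr_false hc0, hU2 C hC hCU s hs, add_zero, sub_zero]
      simp only [r1_coeff, ← cc_eq, sub_self]
    · refine (LReg.of_all (0, 0) (fun C hC => Mm_reg hT0 hμ
        (fun j => MvPolynomial.constantCoeff (g j)) ⟨j, hj⟩ hn0 hn1 hc0 hc1 hC)).congr hU h0U
        fun C hC hCU s hs => ?_
      rw [crr_false hc0, crr_false hc1, hU2 C hC hCU s hs, sub_zero, sub_zero]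

theorem Mm_box (hμ : IsMu T0 μ) (β : ι → ℚ_[p]) (a0 n0 a1 n1 : ℕ) (κ : ℕ) (y : ℚ_[p] × ℚ_[p])
    (l : ℕ) (s : ℝ) (hs : 0 ≤ s) : Zc (Mm μ β a0 n0 a1 n1) (bx κ y l) s =
      ((μ β s).toReal : ℂ) *
        (((I1 s a0 n0 y.1 (l + κ)).toReal : ℂ) * ((I1 s a1 n1 y.2 l).toReal : ℂ)) := by
  rw [Mm_mon β a0 n0 a1 n1 hμ _ s hs, mon_box, N_one]
  simp

theorem CC_curveV (hT0 : T0 ≠ 0) (hμ : IsMu T0 μ) (g : ι → A ℚ_[p]) (m : ℕ) (h : A ℚ_[p])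
    (k : ι → A ℚ_[p]) (hg : ∀ j, g j = h ^ m * k j) (h0 : MvPolynomial.constantCoeff h = 0)
    (h1 : MvPolynomial.constantCoeff (MvPolynomial.pderiv 1 h) ≠ 0) (j : ι)
    (hj : MvPolynomial.constantCoeff (k j) ≠ 0) {a0 n0 : ℕ} (hn0 : 1 ≤ n0)
    (hcr : ¬ Crit p T0 m 1) : CC T0 μ g a0 n0 0 1 := by
  intro ρ0 ρ1 hρ0 hρ1
  obtain ⟨κ, U, B, hU, h0U, hO, hbox⟩ := Hm_curve hμ g m h k hg h0 h1 j hj a0 n0
  have hreg : Reg p T0 0 (fun s => ((μ (fun j => (r0 (g j)).coeff m) s).toReal : ℂ)) :=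
    hμ.reg _ hO.2
  refine LReg.of_boxes ?_ κ hU h0U fun y l hy => ?_
  · exact ((addF_Zc (ok_Hm hμ _ _ _ _ _)).sub ((addF_Zc (ok_Mm hμ _ _ _ _ _)).crr _)).sub
      ((addF_Zc (ok_Mm hμ _ _ _ _ _)).crr _)
  rw [crr_false not_crit01]
  by_cases hc0 : Crit p T0 a0 n0
  · have hρ : ρ0 = m := (hρ0 hc0).unique hO
    subst hρ
    rw [crr_true hc0]
    have hM : ∀ s : ℝ, 0 ≤ s →
        Zc (Mm μ (fun j => (r0 (g j)).coeff ρ0) a0 n0 (0 + ρ0) 1) (bx κ y l) s =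
        ((μ (fun j => (r0 (g j)).coeff ρ0) s).toReal : ℂ) *
          (((I1 s a0 n0 y.1 (l + κ)).toReal : ℂ) * ((I1 s ρ0 1 y.2 l).toReal : ℂ)) := by
      intro s hs
      rw [Mm_box hμ _ _ _ _ _ _ _ _ s hs, zero_add]
    by_cases hy1 : ‖y.1‖ ≤ qr p ^ (l + κ)
    · refine Reg.zero.congr fun s hs => ?_
      rw [(hbox y l hy).1 s hs, hM s hs, (hbox y l hy).2 hy1 s, sub_self, sub_zero]
    · have hfar := reg_far (T0 := T0) hT0 a0 n0 y.1 (l + κ) (not_le.1 hy1)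
      refine ((hreg.mul0 (hfar.mul0 (reg_I1 hT0 ρ0 1 le_rfl hcr (B y) l))).sub
        (hreg.mul0 (hfar.mul0 (reg_I1 hT0 ρ0 1 le_rfl hcr y.2 l)))).congr fun s hs => ?_
      rw [(hbox y l hy).1 s hs, hM s hs, sub_zero]
  · rw [crr_false hc0]
    refine (hreg.mul0 ((reg_I1 hT0 a0 n0 hn0 hc0 y.1 (l + κ)).mul0
      (reg_I1 hT0 m 1 le_rfl hcr (B y) l))).congr fun s hs => ?_
    rw [(hbox y l hy).1 s hs, sub_zero, sub_zero]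

theorem CC_curveU (hT0 : T0 ≠ 0) (hμ : IsMu T0 μ) (g : ι → A ℚ_[p]) (m : ℕ) (h : A ℚ_[p])
    (k : ι → A ℚ_[p]) (hg : ∀ j, g j = h ^ m * k j) (h0 : MvPolynomial.constantCoeff h = 0)
    (h1 : MvPolynomial.constantCoeff (MvPolynomial.pderiv 0 h) ≠ 0) (j : ι)
    (hj : MvPolynomial.constantCoeff (k j) ≠ 0) {a1 n1 : ℕ} (hn1 : 1 ≤ n1)
    (hcr : ¬ Crit p T0 m 1) : CC T0 μ g 0 1 a1 n1 := by
  refine CC.swap (CC_curveV hT0 hμ (fun j => sw (g j)) m (sw h) (fun j => sw (k j)) ?_ ?_ ?_ j ?_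
    hn1 hcr)
  · intro i
    simp only [hg, map_mul, map_pow]
  · rw [cc_sw, h0]
  · rw [pderiv_sw, cc_sw]; exact h1
  · rw [cc_sw]; exact hj

end Pool.Agent.N138.PA
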