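import Pool.Agent.W574.SM.Bracket

set_option autoImplicit false
set_option linter.unusedSectionVars false
set_option linter.unusedVariables false

/-! # Pencils of polynomials with few special points -/

namespace Pool.Agent.N138.PA

open Polynomial Pool.Agent.W574.SM

theorem X_mul_der_coeff (Q : ℂ[X]) (n : ℕ) : (X * derivative Q).coeff n = n * Q.coeff n := by
  rcases n with _ | n
  · simp
  · rw [coeff_X_mul, coeff_derivative]
    push_cast
    ring

theorem X_mul_der_deg (Q : ℂ[X]) : (X * derivative Q).natDegree ≤ Q.natDegree := by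
  rw [natDegree_le_iff_coeff_eq_zero]
  intro n hn
  rw [X_mul_der_coeff, coeff_eq_zero_of_natDegree_lt hn, mul_zero]

theorem deg_wr (P Q : ℂ[X]) (hP : P ≠ 0) (hQ : Q ≠ 0) (h : P.natDegree ≠ Q.natDegree) :
    wronskian P Q ≠ 0 ∧ (wronskian P Q).natDegree + 1 = P.natDegree + Q.natDegree := by
  have h1 : X * wronskian P Q = P * (X * derivative Q) - (X * derivative P) * Q := by
    rw [wronskian]
    ring
  have hc : (X * wronskian P Q).coeff (P.natDegree + Q.natDegree) =
      ((Q.natDegree : ℂ) - P.natDegree) * (P.leadingCoeff * Q.leadingCoeff) := by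
    rw [h1, coeff_sub, coeff_mul_add_eq_of_natDegree_le le_rfl (X_mul_der_deg Q),
      coeff_mul_add_eq_of_natDegree_le (X_mul_der_deg P) le_rfl, X_mul_der_coeff, X_mul_der_coeff,
      coeff_natDegree, coeff_natDegree]
    ring
  have hne : (X * wronskian P Q).coeff (P.natDegree + Q.natDegree) ≠ 0 := by
    rw [hc]
    refine mul_ne_zero (sub_ne_zero.2 fun h2 => h ?_)
      (mul_ne_zero (leadingCoeff_ne_zero.2 hP) (leadingCoeff_ne_zero.2 hQ))
    exact_mod_cast h2.symm
  have hW : wronskian P Q ≠ 0 := by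
    intro h2
    rw [h2, mul_zero, coeff_zero] at hne
    exact hne rfl
  refine ⟨hW, ?_⟩
  have hle : (X * wronskian P Q).natDegree ≤ P.natDegree + Q.natDegree := by
    rw [h1]
    refine (natDegree_sub_le _ _).trans (max_le ?_ ?_)
    · exact natDegree_mul_le.trans (Nat.add_le_add le_rfl (X_mul_der_deg Q))
    · exact natDegree_mul_le.trans (Nat.add_le_add (X_mul_der_deg P) le_rfl)
  have hge := le_natDegree_of_ne_zero hne
  rw [natDegree_X_mul hW] at hle hge
  omega

theorem sub_mul_der (z : ℂ) (u : ℂ[X]) (f : ℕ) :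
    (X - C z) * derivative ((X - C z) ^ f * u) =
      (X - C z) ^ f * (C (f : ℂ) * u + (X - C z) * derivative u) := by
  rw [derivative_mul, derivative_X_sub_C_pow]
  rcases f with _ | f
  · simp
  · rw [Nat.add_sub_cancel, pow_succ]
    push_cast
    ring

theorem rm_wr (z : ℂ) (P Q : ℂ[X]) (hP : P ≠ 0) (hQ : Q ≠ 0)
    (h : P.rootMultiplicity z ≠ Q.rootMultiplicity z) :
    wronskian P Q ≠ 0 ∧
      (wronskian P Q).rootMultiplicity z + 1 = P.rootMultiplicity z + Q.rootMultiplicity z := by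
  obtain ⟨u, hu, hu2⟩ := P.exists_eq_pow_rootMultiplicity_mul_and_not_dvd hP z
  obtain ⟨v, hv, hv2⟩ := Q.exists_eq_pow_rootMultiplicity_mul_and_not_dvd hQ z
  rw [dvd_iff_isRoot, IsRoot] at hu2 hv2
  set f := P.rootMultiplicity z with hf
  set e := Q.rootMultiplicity z with he
  set B : ℂ[X] := u * (C (e : ℂ) * v + (X - C z) * derivative v) -
    (C (f : ℂ) * u + (X - C z) * derivative u) * v with hB
  have h1 : (X - C z) * wronskian P Q = (X - C z) ^ (f + e) * B := by
    have h2 := sub_mul_der z u f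
    have h3 := sub_mul_der z v e
    rw [← hu] at h2
    rw [← hv] at h3
    have h4 : (X - C z) * wronskian P Q = P * ((X - C z) * derivative Q) -
        ((X - C z) * derivative P) * Q := by
      rw [wronskian]
      ring
    rw [h4, h2, h3, hB]
    have h5 : P * ((X - C z) ^ e * (C (e : ℂ) * v + (X - C z) * derivative v)) =
        ((X - C z) ^ f * u) * ((X - C z) ^ e * (C (e : ℂ) * v + (X - C z) * derivative v)) := by
      rw [← hu]
    have h6 : (X - C z) ^ f * (C (f : ℂ) * u + (X - C z) * derivative u) * Q =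
        (X - C z) ^ f * (C (f : ℂ) * u + (X - C z) * derivative u) * ((X - C z) ^ e * v) := by
      rw [← hv]
    rw [h5, h6, pow_add]
    ring
  have hBz : B.eval z ≠ 0 := by
    rw [hB]
    simp only [eval_sub, eval_mul, eval_add, eval_C, eval_X, sub_self, zero_mul, add_zero]
    have h2 : eval z u * ((e : ℂ) * eval z v) - (f : ℂ) * eval z u * eval z v =
        ((e : ℂ) - f) * (eval z u * eval z v) := by ring
    rw [h2]
    refine mul_ne_zero (sub_ne_zero.2 fun h3 => h ?_) (mul_ne_zero hu2 hv2)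
    exact_mod_cast h3.symm
  have hB0 : B ≠ 0 := by
    intro h2
    rw [h2, eval_zero] at hBz
    exact hBz rfl
  have hX : (X - C z : ℂ[X]) ≠ 0 := X_sub_C_ne_zero z
  have hR : (X - C z) ^ (f + e) * B ≠ 0 := mul_ne_zero (pow_ne_zero _ hX) hB0
  have hW : wronskian P Q ≠ 0 := by
    intro h2
    rw [h2, mul_zero] at h1
    exact hR h1.symm
  refine ⟨hW, ?_⟩
  have h2 := congrArg (rootMultiplicity z) h1
  rw [rootMultiplicity_mul (mul_ne_zero hX hW), rootMultiplicity_mul hR,
    rootMultiplicity_X_sub_C_self, rootMultiplicity_X_sub_C_pow,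
    rootMultiplicity_eq_zero (show ¬ IsRoot B z from hBz)] at h2
  omega

theorem wr_shift (P Q : ℂ[X]) (τ : ℂ) : wronskian (P + C τ * Q) Q = wronskian P Q := by
  rw [wronskian, wronskian, derivative_add, derivative_C_mul]
  ring

theorem eq_pow_of_deg (z : ℂ) (P : ℂ[X]) (hP : P ≠ 0) (h : P.rootMultiplicity z = P.natDegree) :
    P = C P.leadingCoeff * (X - C z) ^ P.natDegree := by
  obtain ⟨u, hu, hu2⟩ := P.exists_eq_pow_rootMultiplicity_mul_and_not_dvd hP z
  have hu0 : u ≠ 0 := by
    rintro rfl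
    exact hu2 (dvd_zero _)
  have hd := congrArg natDegree hu
  rw [natDegree_mul (pow_ne_zero _ (X_sub_C_ne_zero z)) hu0, natDegree_pow, natDegree_X_sub_C,
    mul_one, h] at hd
  have hud : u.natDegree = 0 := by omega
  rw [eq_C_of_natDegree_eq_zero hud] at hu
  have hl := congrArg leadingCoeff hu
  rw [leadingCoeff_mul, leadingCoeff_pow, leadingCoeff_X_sub_C, one_pow, one_mul,
    leadingCoeff_C] at hl
  rw [h] at hu
  rw [hl]
  conv_lhs => rw [hu]
  ring

/-- **Pencils.** -/
theorem pen (m : ℕ) (P Q : ℂ[X]) (hQ : Q ≠ 0)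
    (h1 : ∀ τ : ℂ, P + C τ * Q ≠ 0)
    (h2 : ∀ z τ : ℂ, Q.rootMultiplicity z < (P + C τ * Q).rootMultiplicity z →
      Q.rootMultiplicity z = 0 ∧ (P + C τ * Q).rootMultiplicity z = 1)
    (h3 : ∀ τ : ℂ, (P + C τ * Q).natDegree < Q.natDegree →
      Q.natDegree = m ∧ (P + C τ * Q).natDegree + 1 = m) :
    (Q.natDegree = 0 ∧ P.natDegree = 1) ∨ ∃ z : ℂ, 1 ≤ m ∧
      Q = C Q.leadingCoeff * (X - C z) ^ m ∧
      ∃ α β : ℂ, P = (X - C z) ^ (m - 1) * (C α * X + C β) ∧ α * z + β ≠ 0 := by
  classical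
  -- different degrees
  obtain ⟨τ0, hτ0⟩ : ∃ τ0 : ℂ, (P + C τ0 * Q).natDegree ≠ Q.natDegree := by
    by_cases hd : P.natDegree = Q.natDegree
    · refine ⟨-P.leadingCoeff / Q.leadingCoeff, fun h => h1 (-P.leadingCoeff / Q.leadingCoeff) ?_⟩
      rw [← leadingCoeff_eq_zero, leadingCoeff, h, coeff_add, coeff_C_mul, coeff_natDegree, ← hd,
        coeff_natDegree, div_mul_cancel₀ _ (leadingCoeff_ne_zero.2 hQ), add_neg_cancel]
    · exact ⟨0, by rwa [map_zero, zero_mul, add_zero]⟩
  obtain ⟨P1, hP1⟩ : ∃ P1 : ℂ[X], P1 = P + C τ0 * Q := ⟨_, rfl⟩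
  rw [← hP1] at hτ0
  have hP10 : P1 ≠ 0 := by rw [hP1]; exact h1 τ0
  have hadd : ∀ τ : ℂ, P1 + C τ * Q = P + C (τ0 + τ) * Q := by
    intro τ
    rw [hP1, map_add]
    ring
  -- the roots of `Q`
  have hlt : ∀ z, 1 ≤ Q.rootMultiplicity z → P1.rootMultiplicity z < Q.rootMultiplicity z := by
    intro z hz
    rcases lt_trichotomy (P1.rootMultiplicity z) (Q.rootMultiplicity z) with h | h | h
    · exact h
    · exfalso
      obtain ⟨u, hu, hu2⟩ := P1.exists_eq_pow_rootMultiplicity_mul_and_not_dvd hP10 z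
      obtain ⟨v, hv, hv2⟩ := Q.exists_eq_pow_rootMultiplicity_mul_and_not_dvd hQ z
      rw [dvd_iff_isRoot, IsRoot] at hu2 hv2
      set τ := -u.eval z / v.eval z with hτ
      have h4 : (X - C z) ^ (Q.rootMultiplicity z + 1) ∣ P1 + C τ * Q := by
        have h5 : P1 + C τ * Q = (X - C z) ^ (Q.rootMultiplicity z) * (u + C τ * v) := by
          have e1 : P1 + C τ * Q = (X - C z) ^ (P1.rootMultiplicity z) * u +
            C τ * ((X - C z) ^ (Q.rootMultiplicity z) * v) := by rw [← hu, ← hv]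
          rw [e1, h]
          ring
        rw [h5, pow_succ]
        refine mul_dvd_mul_left _ ?_
        rw [dvd_iff_isRoot, IsRoot, eval_add, eval_mul, eval_C, hτ, div_mul_cancel₀ _ hv2,
          add_neg_cancel]
      have h6 : Q.rootMultiplicity z < (P1 + C τ * Q).rootMultiplicity z := by
        rw [hadd] at h4 ⊢
        exact (le_rootMultiplicity_iff (h1 _)).2 h4
      rw [hadd] at h6
      have := (h2 z _ h6).1
      omega
    · rw [hP1] at h
      have := (h2 z τ0 h).1
      omega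
  -- outside of the roots of `Q`
  obtain ⟨hW0, hWd⟩ := deg_wr P1 Q hP10 hQ hτ0
  have hout : ∀ z, Q.rootMultiplicity z = 0 → (wronskian P1 Q).eval z ≠ 0 := by
    intro z hz
    have hQz : Q.eval z ≠ 0 := by
      intro h
      exact absurd hz ((rootMultiplicity_pos hQ).2 h).ne'
    set τ := -P1.eval z / Q.eval z with hτ
    have hroot : (P1 + C τ * Q).IsRoot z := by
      rw [IsRoot, eval_add, eval_mul, eval_C, hτ, div_mul_cancel₀ _ hQz, add_neg_cancel]
    have hne : P1 + C τ * Q ≠ 0 := by rw [hadd]; exact h1 _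
    have h4 : Q.rootMultiplicity z < (P1 + C τ * Q).rootMultiplicity z := by
      rw [hz]
      exact (rootMultiplicity_pos hne).2 hroot
    have h5 : (P1 + C τ * Q).rootMultiplicity z = 1 := by
      rw [hadd] at h4 ⊢
      exact (h2 z _ h4).2
    obtain ⟨h6, h7⟩ := rm_wr z (P1 + C τ * Q) Q hne hQ (by omega)
    rw [wr_shift, h5, hz] at h7
    rw [wr_shift] at h6
    intro h8
    have := (rootMultiplicity_pos h6).2 h8
    omega
  set S := Q.roots.toFinset with hS
  have hSmem : ∀ z, z ∈ S ↔ 1 ≤ Q.rootMultiplicity z := by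
    intro z
    rw [hS, Multiset.mem_toFinset, mem_roots hQ]
    exact (rootMultiplicity_pos hQ).symm
  have hSQ : ∀ z ∉ S, Q.eval z ≠ 0 := by
    intro z hz h
    apply hz
    rw [hS, Multiset.mem_toFinset, mem_roots hQ]
    exact h
  have hsW : ∑ z ∈ S, (wronskian P1 Q).rootMultiplicity z = (wronskian P1 Q).natDegree :=
    sum_mult _ hW0 S fun z hz => hout z (rootMultiplicity_eq_zero (hSQ z hz))
  have hsQ : ∑ z ∈ S, Q.rootMultiplicity z = Q.natDegree := sum_mult _ hQ S hSQ
  have hsP := sum_mult_le P1 hP10 S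
  have hsum : ∑ z ∈ S, ((wronskian P1 Q).rootMultiplicity z + 1) =
      ∑ z ∈ S, (P1.rootMultiplicity z + Q.rootMultiplicity z) := by
    refine Finset.sum_congr rfl fun z hz => ?_
    exact (rm_wr z P1 Q hP10 hQ (hlt z ((hSmem z).1 hz)).ne).2
  rw [Finset.sum_add_distrib, Finset.sum_add_distrib, Finset.sum_const, smul_eq_mul, mul_one, hsW,
    hsQ] at hsum
  have hcard : S.card = 0 ∨ S.card = 1 := by omega
  rcases hcard with hc | hc
  · left
    rw [Finset.card_eq_zero] at hc
    rw [hc, Finset.sum_empty] at hsQ hsum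
    rw [Finset.card_empty] at hsum
    have hP1d : P1.natDegree = 1 := by omega
    refine ⟨hsQ.symm, ?_⟩
    have h4 : P = P1 - C τ0 * Q := by rw [hP1]; ring
    rw [h4, natDegree_sub_eq_left_of_natDegree_lt, hP1d]
    rw [hP1d]
    refine lt_of_le_of_lt (natDegree_C_mul_le _ _) ?_
    omega
  · right
    obtain ⟨z, hz⟩ := Finset.card_eq_one.1 hc
    rw [hz, Finset.sum_singleton] at hsQ hsum hsP
    rw [Finset.card_singleton] at hsum
    have hzS : z ∈ S := by rw [hz]; exact Finset.mem_singleton_self z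
    have h4 := hlt z ((hSmem z).1 hzS)
    have hPd : P1.rootMultiplicity z = P1.natDegree := by omega
    have h3' := h3 τ0
    rw [← hP1] at h3'
    obtain ⟨h5, h6⟩ := h3' (by omega)
    have hm : 1 ≤ m := by omega
    have hQe := eq_pow_of_deg z Q hQ hsQ
    rw [h5] at hQe
    have hPe := eq_pow_of_deg z P1 hP10 hPd
    have h7 : P1.natDegree = m - 1 := by
      omega
    rw [h7] at hPe
    refine ⟨z, hm, hQe, -(τ0 * Q.leadingCoeff), P1.leadingCoeff + τ0 * Q.leadingCoeff * z, ?_, ?_⟩
    · have h8 : P = P1 - C τ0 * Q := by rw [hP1]; ring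
      have h9 : (X - C z : ℂ[X]) ^ m = (X - C z) ^ (m - 1) * (X - C z) := by
        rw [← pow_succ]
        congr 1
        omega
      rw [h9] at hQe
      have h10 : P1 - C τ0 * Q = C P1.leadingCoeff * (X - C z) ^ (m - 1) -
          C τ0 * (C Q.leadingCoeff * ((X - C z) ^ (m - 1) * (X - C z))) := by rw [← hPe, ← hQe]
      rw [h8, h10]
      simp only [map_neg, map_mul, map_add]
      ring
    · have h8 : -(τ0 * Q.leadingCoeff) * z + (P1.leadingCoeff + τ0 * Q.leadingCoeff * z) =
          P1.leadingCoeff := by ring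
      rw [h8]
      exact leadingCoeff_ne_zero.2 hP10

end Pool.Agent.N138.PA
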