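import Pool.Agent.N138.PA.CxA
import Pool.Agent.Y230.PT.Local

set_option autoImplicit false
set_option linter.unusedSectionVars false
set_option linter.unusedVariables false
set_option linter.unusedSimpArgs false

/-! # The factors of the families `h g_j ^ a` -/

namespace Pool.Agent.N138.PA

open Pool.Agent.Y230.RE

section Split

variable {k : Type} [Field k] [CharZero k] {ι : Type}

theorem r0_X0 : r0 (MvPolynomial.X 0 : A k) = 0 := by simp [r0]

/-- the transforms of `h` and of the `g_j` -/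
theorem split (a : ℕ) (ha : 1 ≤ a) {G : ι → A k} {m : ℕ} {Gc : k → ι → A k} {GI : ι → A k}
    (hGc : ∀ c j, MvPolynomial.aeval (ch c) (G j) = MvPolynomial.X 0 ^ m * Gc c j)
    (hGI : ∀ j, MvPolynomial.aeval chI (G j) = MvPolynomial.X 1 ^ m * GI j)
    (hne : ∃ j, r0 (Gc 0 j) ≠ 0) {h' : A k} {g : ι → A k} (hG : ∀ j, G j = h' * g j ^ a) :
    ∃ (mh mg : ℕ) (hc : k → A k) (gc : k → ι → A k) (hI : A k) (gI : ι → A k),
      m = mh + a * mg ∧
      (∀ c, MvPolynomial.aeval (ch c) h' = MvPolynomial.X 0 ^ mh * hc c) ∧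
      (∀ c j, MvPolynomial.aeval (ch c) (g j) = MvPolynomial.X 0 ^ mg * gc c j) ∧
      MvPolynomial.aeval chI h' = MvPolynomial.X 1 ^ mh * hI ∧
      (∀ j, MvPolynomial.aeval chI (g j) = MvPolynomial.X 1 ^ mg * gI j) ∧
      (∀ c j, Gc c j = hc c * gc c j ^ a) ∧ (∀ j, GI j = hI * gI j ^ a) ∧
      r0 (hc 0) ≠ 0 ∧ ∃ j, r0 (gc 0 j) ≠ 0 := by
  obtain ⟨j1, hj1⟩ := hne
  have hX0 : (MvPolynomial.X 0 : A k) ≠ 0 := MvPolynomial.X_ne_zero 0
  have hX1 : (MvPolynomial.X 1 : A k) ≠ 0 := MvPolynomial.X_ne_zero 1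
  have hGne : G j1 ≠ 0 := by
    intro h
    have h1 := hGc 0 j1
    rw [h, map_zero] at h1
    rcases mul_eq_zero.1 h1.symm with h2 | h2
    · exact pow_ne_zero _ hX0 h2
    · exact hj1 (by rw [h2, map_zero])
  rw [hG] at hGne
  have hh' : h' ≠ 0 := left_ne_zero_of_mul hGne
  have hg' : g j1 ≠ 0 := fun h => right_ne_zero_of_mul hGne (by rw [h, zero_pow (by omega)])
  obtain ⟨mh, hmh⟩ := exists_ord (fun _ : Unit => h') ⟨(), hh'⟩
  obtain ⟨mg, hmg⟩ := exists_ord g ⟨j1, hg'⟩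
  obtain ⟨hc, hI, hB⟩ := exists_blow (fun _ : Unit => h') mh hmh.1
  obtain ⟨gc, gI, gB⟩ := exists_blow g mg hmg.1
  have hPh : r0 (hc 0 ()) ≠ 0 := by
    obtain ⟨⟨j, hj⟩, _⟩ := lead_ne hmh
    rw [hB.r0c 0 ()]
    simpa using hj
  obtain ⟨j2, hj2⟩ : ∃ j, r0 (gc 0 j) ≠ 0 := by
    obtain ⟨⟨j, hj⟩, _⟩ := lead_ne hmg
    refine ⟨j, ?_⟩
    rw [gB.r0c 0 j]
    simpa using hj
  have e1 : ∀ c j, MvPolynomial.X 0 ^ m * Gc c j =
      MvPolynomial.X 0 ^ (mh + a * mg) * (hc c () * gc c j ^ a) := by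
    intro c j
    rw [← hGc, hG, map_mul, map_pow, hB.hgc c (), gB.hgc c j, mul_pow, pow_add, pow_mul']
    ring
  have e2 : ∀ j, MvPolynomial.X 1 ^ m * GI j =
      MvPolynomial.X 1 ^ (mh + a * mg) * (hI () * gI j ^ a) := by
    intro j
    rw [← hGI, hG, map_mul, map_pow, hB.hgI (), gB.hgI j, mul_pow, pow_add, pow_mul']
    ring
  have hm : m = mh + a * mg := by
    rcases lt_trichotomy m (mh + a * mg) with h | h | h
    · exfalso
      obtain ⟨d, hd⟩ := Nat.exists_eq_add_of_lt h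
      have h1 := e1 0 j1
      have h2 : Gc 0 j1 = MvPolynomial.X 0 ^ (d + 1) * (hc 0 () * gc 0 j1 ^ a) := by
        apply mul_left_cancel₀ (pow_ne_zero m hX0)
        rw [h1, hd]
        ring
      apply hj1
      rw [h2, map_mul, map_pow, r0_X0, zero_pow (by omega), zero_mul]
    · exact h
    · exfalso
      obtain ⟨d, hd⟩ := Nat.exists_eq_add_of_lt h
      have h1 := e1 0 j2
      have h2 : hc 0 () * gc 0 j2 ^ a = MvPolynomial.X 0 ^ (d + 1) * Gc 0 j2 := by
        apply mul_left_cancel₀ (pow_ne_zero (mh + a * mg) hX0)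
        rw [← h1, hd]
        ring
      have h3 := congrArg r0 h2
      rw [map_mul, map_pow, map_mul, map_pow, r0_X0, zero_pow (by omega), zero_mul] at h3
      exact mul_ne_zero hPh (pow_ne_zero _ hj2) h3
  refine ⟨mh, mg, fun c => hc c (), gc, hI (), gI, hm, fun c => hB.hgc c (), gB.hgc, hB.hgI (),
    gB.hgI, fun c j => ?_, fun j => ?_, hPh, j2, hj2⟩
  · have h1 := e1 c j
    rw [← hm] at h1
    exact mul_left_cancel₀ (pow_ne_zero m hX0) h1
  · have h1 := e2 j
    rw [← hm] at h1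
    exact mul_left_cancel₀ (pow_ne_zero m hX1) h1

/-- the factors along a curve -/
theorem factor_curve (a : ℕ) (ha : 1 ≤ a) (h' : A k) (g : ι → A k) (m : ℕ) (q : A k)
    (κ : ι → A k) (hG : ∀ j, h' * g j ^ a = q ^ m * κ j)
    (h0 : MvPolynomial.constantCoeff q = 0) (i : Fin 2)
    (h1 : MvPolynomial.constantCoeff (MvPolynomial.pderiv i q) ≠ 0) (j : ι)
    (hj : MvPolynomial.constantCoeff (κ j) ≠ 0) :
    ∃ (q0 kh : A k) (mh mg : ℕ) (kg : ι → A k), m = mh + a * mg ∧ h' = q0 ^ mh * kh ∧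
      (∀ j, g j = q0 ^ mg * kg j) ∧ MvPolynomial.constantCoeff q0 = 0 ∧
      MvPolynomial.constantCoeff (MvPolynomial.pderiv i q0) ≠ 0 ∧
      MvPolynomial.constantCoeff kh ≠ 0 ∧ MvPolynomial.constantCoeff (kg j) ≠ 0 := by
  classical
  have hq : q ≠ 0 := by
    rintro rfl
    rw [map_zero, map_zero] at h1
    exact h1 rfl
  obtain ⟨S, hS, u, hu⟩ := UniqueFactorizationMonoid.exists_prime_factors q hq
  obtain ⟨q0, hq0S, hq0⟩ : ∃ q0 ∈ S, MvPolynomial.constantCoeff q0 = 0 := by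
    have h2 := congrArg MvPolynomial.constantCoeff hu
    rw [map_mul, h0] at h2
    have h3 : MvPolynomial.constantCoeff (u : A k) ≠ 0 := by
      have := (u.isUnit.map (MvPolynomial.constantCoeff (R := k) (σ := Fin 2)))
      exact this.ne_zero
    have h4 := (mul_eq_zero.1 h2).resolve_right h3
    rw [map_multiset_prod, Multiset.prod_eq_zero_iff, Multiset.mem_map] at h4
    obtain ⟨x, hx, hx2⟩ := h4
    exact ⟨x, hx, hx2⟩
  have hprime := hS q0 hq0S
  obtain ⟨u0, hu0⟩ : q0 ∣ q := by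
    rw [← hu]
    exact (Multiset.dvd_prod hq0S).mul_right _
  have hd : MvPolynomial.constantCoeff (MvPolynomial.pderiv i q0) ≠ 0 ∧
      MvPolynomial.constantCoeff u0 ≠ 0 := by
    rw [hu0, Derivation.leibniz, smul_eq_mul, smul_eq_mul, map_add, map_mul, map_mul, hq0, zero_mul,
      zero_add] at h1
    exact ⟨right_ne_zero_of_mul h1, left_ne_zero_of_mul h1⟩
  have hjne : h' * g j ^ a ≠ 0 := by
    rw [hG]
    refine mul_ne_zero (pow_ne_zero _ hq) fun h => hj ?_
    rw [h, map_zero]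
  have hh' : h' ≠ 0 := left_ne_zero_of_mul hjne
  have hg' : g j ≠ 0 := fun h => right_ne_zero_of_mul hjne (by rw [h, zero_pow (by omega)])
  obtain ⟨mh, kh, hkh, hkh2⟩ := WfDvdMonoid.max_power_factor hh' hprime.irreducible
  obtain ⟨n, x, hx, hx2⟩ := WfDvdMonoid.max_power_factor hg' hprime.irreducible
  have hex : ∃ N, ¬ ∀ i, q0 ^ N ∣ g i := by
    refine ⟨n + 1, fun hall => hx ?_⟩
    obtain ⟨y, hy⟩ := hall j
    refine ⟨y, mul_left_cancel₀ (pow_ne_zero n hprime.ne_zero) ?_⟩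
    rw [← hx2, hy]
    ring
  have hN0 : Nat.find hex ≠ 0 := by
    intro h
    have h2 := Nat.find_spec hex
    rw [h] at h2
    exact h2 fun i => by rw [pow_zero]; exact one_dvd _
  obtain ⟨mg, hmg⟩ : ∃ mg, Nat.find hex = mg + 1 := ⟨Nat.find hex - 1, by omega⟩
  have hall : ∀ i, q0 ^ mg ∣ g i := by
    by_contra h
    exact Nat.find_min hex (by omega) h
  have hsp := Nat.find_spec hex
  rw [hmg] at hsp
  push Not at hsp
  obtain ⟨i1, hi1⟩ := hsp
  choose kg hkg using hall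
  have hi1' : ¬ q0 ∣ kg i1 := by
    rintro ⟨y, hy⟩
    apply hi1
    rw [hkg i1, hy, pow_succ]
    exact ⟨y, by ring⟩
  have hkey : ∀ i, q0 ^ (mh + a * mg) * (kh * kg i ^ a) = q0 ^ m * (u0 ^ m * κ i) := by
    intro i
    have h2 := hG i
    rw [hkh2, hkg i, hu0, mul_pow, mul_pow] at h2
    rw [pow_add, pow_mul']
    linear_combination h2
  have hle : m ≤ mh + a * mg := by
    by_contra hlt
    push Not at hlt
    obtain ⟨d, hd2⟩ := Nat.exists_eq_add_of_lt hlt
    have h2 := hkey i1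
    have h3 : kh * kg i1 ^ a = q0 * (q0 ^ d * (u0 ^ m * κ i1)) := by
      apply mul_left_cancel₀ (pow_ne_zero (mh + a * mg) hprime.ne_zero)
      rw [h2]
      conv_lhs => rw [hd2]
      rw [pow_succ, pow_add]
      have h4 : u0 ^ (mh + a * mg + d + 1) = u0 ^ m := by rw [hd2]
      rw [h4]
      ring
    rcases hprime.dvd_or_dvd (Dvd.intro _ h3.symm) with h4 | h4
    · exact hkh h4
    · exact hi1' (hprime.dvd_of_dvd_pow h4)
  obtain ⟨e, he⟩ := Nat.exists_eq_add_of_le hle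
  have h5 : q0 ^ e * (kh * kg j ^ a) = u0 ^ m * κ j := by
    apply mul_left_cancel₀ (pow_ne_zero m hprime.ne_zero)
    rw [← hkey j, he]
    ring
  have h6 := congrArg MvPolynomial.constantCoeff h5
  rw [map_mul, map_pow, map_mul, map_pow, map_mul, map_pow, hq0] at h6
  have h7 : MvPolynomial.constantCoeff u0 ^ m * MvPolynomial.constantCoeff (κ j) ≠ 0 :=
    mul_ne_zero (pow_ne_zero _ hd.2) hj
  rw [← h6] at h7
  have he0 : e = 0 := by
    by_contra hne
    rw [zero_pow hne, zero_mul] at h7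
    exact h7 rfl
  rw [he0, pow_zero, one_mul] at h7
  exact ⟨q0, kh, mh, mg, kg, by omega, hkh2, hkg, hq0, hd.1, left_ne_zero_of_mul h7,
    fun h => right_ne_zero_of_mul h7 (by rw [h, zero_pow (by omega)])⟩

end Split

section Fc

open Pool.Agent.W574.SM Pool.Agent.N103 Polynomial

variable {κ : Type} [Fintype κ] [DecidableEq κ]

theorem fc_map (χ : MP →ₐ[ℂ] MP) (c : κ → ℂ) (g : Option κ → MP) (j : Option κ) :
    χ (fc c g j) = fc c (fun i => χ (g i)) j := by
  rcases j with _ | j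
  · change χ (g none + ∑ j, MvPolynomial.C (c j) * g (some j)) = χ (g none) +
      ∑ j, MvPolynomial.C (c j) * χ (g (some j))
    rw [map_add, map_sum]
    congr 1
    refine Finset.sum_congr rfl fun j _ => ?_
    rw [map_mul]
    congr 1
    exact χ.commutes (c j)
  · rfl

theorem fc_mul (x : MP) (c : κ → ℂ) (g : Option κ → MP) (j : Option κ) :
    fc c (fun i => x * g i) j = x * fc c g j := by
  rcases j with _ | j
  · change x * g none + ∑ j, MvPolynomial.C (c j) * (x * g (some j)) = x * (g none +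
      ∑ j, MvPolynomial.C (c j) * g (some j))
    rw [mul_add, Finset.mul_sum]
    congr 1
    refine Finset.sum_congr rfl fun j _ => ?_
    ring
  · rfl

theorem fc_zero (g : Option κ → MP) : fc 0 g = g := by
  funext j
  rcases j with _ | j
  · change g none + ∑ j, MvPolynomial.C ((0 : κ → ℂ) j) * g (some j) = g none
    simp
  · rfl

theorem res0_fc (c : κ → ℂ) (g : Option κ → MP) :
    res0 (fc c g none) = res0 (g none) + ∑ j, C (c j) * res0 (g (some j)) := by
  change res0 (g none + ∑ j, MvPolynomial.C (c j) * g (some j)) = _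
  rw [map_add, map_sum]
  congr 1
  refine Finset.sum_congr rfl fun j _ => ?_
  rw [map_mul]
  congr 1
  exact res0.commutes (c j)

/-- the generic order -/
theorem ord_c (hp : MP) (g : Option κ → MP) (a : ℕ) (ha : 1 ≤ a) (ρ : ℕ)
    (hO : Ord0 (fun j => hp * g j ^ a) ρ) :
    ∃ c : κ → ℂ, t0 (fc c g) = false ∧ Ord0 (fam false a hp (fc c g)) ρ := by
  classical
  -- orders
  obtain ⟨j1, hj1⟩ := hO.2
  have hj1' : res0 hp * res0 (g j1) ^ a ≠ 0 := by
    intro h
    apply hj1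
    simp only
    rw [map_mul, map_pow, h, coeff_zero]
  have hPh : res0 hp ≠ 0 := left_ne_zero_of_mul hj1'
  have hPg : res0 (g j1) ≠ 0 := fun h => right_ne_zero_of_mul hj1' (by rw [h, zero_pow (by omega)])
  have hex : ∃ n, ∃ j, (res0 (g j)).coeff n ≠ 0 :=
    ⟨(res0 (g j1)).natDegree, j1, by
      rw [coeff_natDegree]
      exact leadingCoeff_ne_zero.2 hPg⟩
  set ν := Nat.find hex with hν
  have hν1 : ∀ j, ∀ i < ν, (res0 (g j)).coeff i = 0 := by
    intro j i hi
    by_contra h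
    exact Nat.find_min hex hi ⟨j, h⟩
  obtain ⟨j2, hj2⟩ : ∃ j, (res0 (g j)).coeff ν ≠ 0 := Nat.find_spec hex
  -- the choice of `c`
  obtain ⟨c, hc⟩ : ∃ c : κ → ℂ, (res0 (fc c g none)).coeff ν ≠ 0 := by
    by_cases hn : (res0 (g none)).coeff ν = 0
    · rcases j2 with _ | j2
      · exact absurd hn hj2
      · refine ⟨Pi.single j2 1, ?_⟩
        rw [res0_fc, coeff_add, hn, zero_add, finsetSum_coeff, Finset.sum_eq_single j2]
        · rw [Pi.single_eq_same, map_one, one_mul]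
          exact hj2
        · intro j _ hj
          rw [Pi.single_eq_of_ne hj, map_zero, zero_mul, coeff_zero]
        · intro h
          exact absurd (Finset.mem_univ j2) h
    · exact ⟨0, by rwa [fc_zero]⟩
  have hO0 : OrdP (res0 (fc c g none)) ν := by
    refine ⟨fun i hi => ?_, hc⟩
    rw [res0_fc, coeff_add, hν1 none i hi, zero_add, finsetSum_coeff]
    refine Finset.sum_eq_zero fun j _ => ?_
    rw [coeff_C_mul, hν1 (some j) i hi, mul_zero]
  obtain ⟨μ, hμ⟩ : ∃ μ, OrdP (res0 hp) μ := by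
    have h1 := ord_comp (res0 hp) hPh 0
    rw [map_zero, add_zero, comp_X] at h1
    exact ⟨_, h1⟩
  have hfam : OrdP (res0 (hp * fc c g none ^ a)) (μ + a * ν) := by
    rw [map_mul, map_pow]
    exact hμ.mul (hO0.pow a)
  have hfam' : Ord0 (fam false a hp (fc c g)) (μ + a * ν) := by
    refine ⟨fun j i hi => ?_, none, ?_⟩
    · exact hfam.1 i hi
    · exact hfam.2
  have hall : Ord0 (fun j => hp * g j ^ a) (μ + a * ν) := by
    refine ⟨fun j i hi => ?_, j2, ?_⟩
    · simp only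
      rw [map_mul, map_pow]
      obtain ⟨x, hx⟩ := X_pow_dvd_iff.2 hμ.1
      obtain ⟨y, hy⟩ := X_pow_dvd_iff.2 (hν1 j)
      have h1 : (X : ℂ[X]) ^ (μ + a * ν) ∣ res0 hp * res0 (g j) ^ a := by
        rw [hx, hy]
        exact ⟨x * y ^ a, by ring⟩
      exact X_pow_dvd_iff.1 h1 i hi
    · simp only
      rw [map_mul, map_pow]
      have h1 : OrdP (res0 (g j2)) ν := ⟨hν1 j2, hj2⟩
      exact (hμ.mul (h1.pow a)).2
  have hρ : μ + a * ν = ρ := hall.unique hO
  rw [hρ] at hfam'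
  refine ⟨c, ?_, hfam'⟩
  rw [t0_false]
  intro h
  rw [h, coeff_zero] at hc
  exact hc rfl

end Fc

end Pool.Agent.N138.PA
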